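import Pool.Agent.H988.WM.Cor

/-! # Polynomials in the commutator with the Hamiltonian -/

set_option autoImplicit false
set_option linter.unusedSectionVars false

open Filter Topology MeasureTheory
open scoped InnerProductSpace ComplexConjugate

namespace Pool.Agent.H988.QB

open Pool.Agent.H988.WM Pool.Agent.Y662.ERG

section alg

variable {X : Type} [NormedAddCommGroup X] [InnerProductSpace ℂ X] [CompleteSpace X]

/-- the commutator minus a number -/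
noncomputable def dd (T : X →L[ℂ] X) (μ : ℝ) (A : X →L[ℂ] X) : X →L[ℂ] X :=
  T ∘L A - A ∘L T - (μ : ℂ) • A

theorem dd_apply (T : X →L[ℂ] X) (μ : ℝ) (A : X →L[ℂ] X) (x : X) :
    dd T μ A x = T (A x) - A (T x) - (μ : ℂ) • A x := rfl

/-- polynomials in `dd` -/
noncomputable def avp (T : X →L[ℂ] X) (μ : ℝ) (c : ℕ → ℂ) (N : ℕ) (A : X →L[ℂ] X) : X →L[ℂ] X :=
  ∑ k ∈ Finset.range N, c k • (dd T μ)^[k] A

theorem avp_apply (T : X →L[ℂ] X) (μ : ℝ) (c : ℕ → ℂ) (N : ℕ) (A : X →L[ℂ] X) (x : X) :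
    avp T μ c N A x = ∑ k ∈ Finset.range N, c k • (dd T μ)^[k] A x := by
  unfold avp
  rw [ContinuousLinearMap.sum_apply]
  rfl

/-- the polynomial -/
noncomputable def QQ (c : ℕ → ℂ) (N : ℕ) (x : ℝ) : ℂ := ∑ k ∈ Finset.range N, c k * (x : ℂ) ^ k

theorem dd_eig {T : X →L[ℂ] X} (hT : ∀ x y, ⟪T x, y⟫_ℂ = ⟪x, T y⟫_ℂ) (μ : ℝ) (A : X →L[ℂ] X)
    {u w : X} {E E' : ℝ} (hu : T u = (E : ℂ) • u) (hw : T w = (E' : ℂ) • w) :
    ⟪u, dd T μ A w⟫_ℂ = ((E - E' - μ : ℝ) : ℂ) * ⟪u, A w⟫_ℂ := by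
  rw [dd_apply, inner_sub_right, inner_sub_right, ← hT, hu, hw, map_smul, inner_smul_left,
    inner_smul_right, inner_smul_right, Complex.conj_ofReal]
  push_cast
  ring

theorem dd_iter {T : X →L[ℂ] X} (hT : ∀ x y, ⟪T x, y⟫_ℂ = ⟪x, T y⟫_ℂ) (μ : ℝ) (A : X →L[ℂ] X)
    {u w : X} {E E' : ℝ} (hu : T u = (E : ℂ) • u) (hw : T w = (E' : ℂ) • w) (k : ℕ) :
    ⟪u, (dd T μ)^[k] A w⟫_ℂ = ((E - E' - μ : ℝ) : ℂ) ^ k * ⟪u, A w⟫_ℂ := by
  induction k with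
  | zero => simp
  | succ k ih =>
    rw [Function.iterate_succ_apply', dd_eig hT μ _ hu hw, ih, pow_succ]
    ring

theorem avp_eig {T : X →L[ℂ] X} (hT : ∀ x y, ⟪T x, y⟫_ℂ = ⟪x, T y⟫_ℂ) (μ : ℝ) (A : X →L[ℂ] X)
    {u w : X} {E E' : ℝ} (hu : T u = (E : ℂ) • u) (hw : T w = (E' : ℂ) • w) (c : ℕ → ℂ) (N : ℕ) :
    ⟪u, avp T μ c N A w⟫_ℂ = QQ c N (E - E' - μ) * ⟪u, A w⟫_ℂ := by
  rw [avp_apply, inner_sum]
  unfold QQ
  rw [Finset.sum_mul]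
  refine Finset.sum_congr rfl fun k _ => ?_
  rw [inner_smul_right, dd_iter hT μ A hu hw]
  ring

theorem dd_norm {T : X →L[ℂ] X} {R : ℝ} (hR : ‖T‖ ≤ R) (μ : ℝ) (A : X →L[ℂ] X) :
    ‖dd T μ A‖ ≤ (2 * R + |μ|) * ‖A‖ := by
  unfold dd
  have h0 : 0 ≤ R := (norm_nonneg _).trans hR
  have h1 : ‖T ∘L A‖ ≤ R * ‖A‖ :=
    (ContinuousLinearMap.opNorm_comp_le _ _).trans (mul_le_mul_of_nonneg_right hR (norm_nonneg _))
  have h2 : ‖A ∘L T‖ ≤ R * ‖A‖ :=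
    (ContinuousLinearMap.opNorm_comp_le _ _).trans
      ((mul_le_mul_of_nonneg_left hR (norm_nonneg _)).trans (le_of_eq (mul_comm _ _)))
  have h3 : ‖(μ : ℂ) • A‖ ≤ |μ| * ‖A‖ := by
    refine (norm_smul_le _ _).trans ?_
    rw [Complex.norm_real, Real.norm_eq_abs]
  calc ‖T ∘L A - A ∘L T - (μ : ℂ) • A‖ ≤ ‖T ∘L A‖ + ‖A ∘L T‖ + ‖(μ : ℂ) • A‖ :=
        (norm_sub_le _ _).trans (add_le_add (norm_sub_le _ _) le_rfl)
    _ ≤ R * ‖A‖ + R * ‖A‖ + |μ| * ‖A‖ := by gcongr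
    _ = _ := by ring

theorem dd_iter_norm {T : X →L[ℂ] X} {R : ℝ} (hR : ‖T‖ ≤ R) (μ : ℝ) (A : X →L[ℂ] X) (k : ℕ) :
    ‖(dd T μ)^[k] A‖ ≤ (2 * R + |μ|) ^ k * ‖A‖ := by
  have h0 : 0 ≤ R := (norm_nonneg _).trans hR
  induction k with
  | zero => simp
  | succ k ih =>
    rw [Function.iterate_succ_apply', pow_succ]
    refine (dd_norm hR μ _).trans ?_
    calc (2 * R + |μ|) * ‖(dd T μ)^[k] A‖ ≤ (2 * R + |μ|) * ((2 * R + |μ|) ^ k * ‖A‖) := by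
          gcongr
      _ = _ := by ring

/-- a bound for the norm of `avp` -/
noncomputable def cc (R μ : ℝ) (c : ℕ → ℂ) (N : ℕ) : ℝ :=
  ∑ k ∈ Finset.range N, ‖c k‖ * (2 * R + |μ|) ^ k

theorem cc_nonneg {R : ℝ} (hR : 0 ≤ R) (μ : ℝ) (c : ℕ → ℂ) (N : ℕ) : 0 ≤ cc R μ c N :=
  Finset.sum_nonneg fun k _ => by positivity

theorem avp_norm {T : X →L[ℂ] X} {R : ℝ} (hR : ‖T‖ ≤ R) (μ : ℝ) (c : ℕ → ℂ) (N : ℕ)
    (A : X →L[ℂ] X) : ‖avp T μ c N A‖ ≤ cc R μ c N * ‖A‖ := by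
  unfold avp cc
  rw [Finset.sum_mul]
  refine (norm_sum_le _ _).trans (Finset.sum_le_sum fun k _ => ?_)
  refine (norm_smul_le _ _).trans ?_
  rw [mul_assoc]
  exact mul_le_mul_of_nonneg_left (dd_iter_norm hR μ A k) (norm_nonneg _)

/-- slowly varying weights almost commute -/
theorem dd_weight {R μ : ℝ} (hR0 : 0 ≤ R) (k : ℕ) : ∃ C : ℝ, 0 ≤ C ∧ ∀ (T A m : X →L[ℂ] X),
    ‖T‖ ≤ R → ‖(dd T μ)^[k] (m ∘L A) - m ∘L (dd T μ)^[k] A‖ ≤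
      C * ‖T ∘L m - m ∘L T‖ * ‖A‖ := by
  induction k with
  | zero => exact ⟨0, le_rfl, fun T A m _ => by simp⟩
  | succ k ih =>
    obtain ⟨C, hC, h⟩ := ih
    refine ⟨(2 * R + |μ|) ^ k + (2 * R + |μ|) * C, by positivity, fun T A m hT => ?_⟩
    rw [Function.iterate_succ_apply', Function.iterate_succ_apply']
    set Z := (dd T μ)^[k] A with hZ
    set W := (dd T μ)^[k] (m ∘L A) with hW
    have e : dd T μ W - m ∘L dd T μ Z = (T ∘L m - m ∘L T) ∘L Z + dd T μ (W - m ∘L Z) := by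
      ext x
      simp only [ContinuousLinearMap.sub_apply, ContinuousLinearMap.comp_apply, dd_apply,
        ContinuousLinearMap.add_apply, map_sub, map_smul, smul_sub]
      abel
    rw [e]
    refine (norm_add_le _ _).trans ?_
    have h1 : ‖(T ∘L m - m ∘L T) ∘L Z‖ ≤ ‖T ∘L m - m ∘L T‖ * ((2 * R + |μ|) ^ k * ‖A‖) :=
      (ContinuousLinearMap.opNorm_comp_le _ _).trans
        (mul_le_mul_of_nonneg_left (dd_iter_norm hT μ A k) (norm_nonneg _))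
    have h2 : ‖dd T μ (W - m ∘L Z)‖ ≤ (2 * R + |μ|) * (C * ‖T ∘L m - m ∘L T‖ * ‖A‖) :=
      (dd_norm hT μ _).trans (mul_le_mul_of_nonneg_left (h T A m hT) (by positivity))
    calc _ ≤ ‖T ∘L m - m ∘L T‖ * ((2 * R + |μ|) ^ k * ‖A‖) +
          (2 * R + |μ|) * (C * ‖T ∘L m - m ∘L T‖ * ‖A‖) := add_le_add h1 h2
      _ = _ := by ring

theorem avp_weight {R : ℝ} (hR0 : 0 ≤ R) (μ : ℝ) (c : ℕ → ℂ) (N : ℕ) :
    ∃ C : ℝ, 0 ≤ C ∧ ∀ (T A m : X →L[ℂ] X), ‖T‖ ≤ R →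
      ‖avp T μ c N (m ∘L A) - m ∘L avp T μ c N A‖ ≤ C * ‖T ∘L m - m ∘L T‖ * ‖A‖ := by
  choose C hC h using fun k : ℕ => dd_weight (X := X) (μ := μ) hR0 k
  refine ⟨∑ k ∈ Finset.range N, ‖c k‖ * C k, Finset.sum_nonneg fun k _ => by
    have := hC k
    positivity, fun T A m hT => ?_⟩
  have e : avp T μ c N (m ∘L A) - m ∘L avp T μ c N A =
      ∑ k ∈ Finset.range N, c k • ((dd T μ)^[k] (m ∘L A) - m ∘L (dd T μ)^[k] A) := by
    ext x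
    rw [ContinuousLinearMap.sub_apply, ContinuousLinearMap.comp_apply, avp_apply, avp_apply,
      map_sum, ← Finset.sum_sub_distrib, ContinuousLinearMap.sum_apply]
    refine Finset.sum_congr rfl fun k _ => ?_
    rw [map_smul, ← smul_sub]
    rfl
  rw [e, Finset.sum_mul, Finset.sum_mul]
  refine (norm_sum_le _ _).trans (Finset.sum_le_sum fun k _ => ?_)
  refine (norm_smul_le _ _).trans ?_
  calc ‖c k‖ * ‖(dd T μ)^[k] (m ∘L A) - m ∘L (dd T μ)^[k] A‖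
      ≤ ‖c k‖ * (C k * ‖T ∘L m - m ∘L T‖ * ‖A‖) :=
        mul_le_mul_of_nonneg_left (h k T A m hT) (norm_nonneg _)
    _ = _ := by ring

end alg

end Pool.Agent.H988.QB
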