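import Pool.Agent.H988.QB.Spc

/-! # Approximation by polynomials -/

set_option autoImplicit false
set_option linter.unusedSectionVars false

open Filter Topology MeasureTheory Set
open scoped InnerProductSpace ComplexConjugate ENNReal NNReal

namespace Pool.Agent.H988.QB

theorem sqrt_poly {g : ℝ → ℝ} (hg : Continuous g) (h0 : ∀ x, 0 ≤ g x) (R : ℝ) {ε : ℝ}
    (hε : 0 < ε) : ∃ p : Polynomial ℝ, ∀ x, |x| ≤ R → |g x - p.eval x ^ 2| ≤ ε := by
  have hs : Continuous fun x => Real.sqrt (g x) := hg.sqrt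
  obtain ⟨B, hB⟩ := (isCompact_Icc (a := -R) (b := R)).exists_bound_of_continuousOn hs.continuousOn
  set B' := |B| with hB'
  set η := min 1 (ε / (2 * B' + 1)) with hη
  have hd : 0 < 2 * B' + 1 := by positivity
  have hη0 : 0 < η := lt_min one_pos (by positivity)
  obtain ⟨p, hp⟩ := exists_polynomial_near_of_continuousOn (-R) R _ hs.continuousOn η hη0
  refine ⟨p, fun x hx => ?_⟩
  have hx' : x ∈ Icc (-R) R := abs_le.1 hx
  have h1 := (hp x hx').le
  have h2 : Real.sqrt (g x) ≤ B' := by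
    have := hB x hx'
    rw [Real.norm_eq_abs, abs_of_nonneg (Real.sqrt_nonneg _)] at this
    exact this.trans (le_abs_self _)
  set s := Real.sqrt (g x) with hs'
  have hs0 : 0 ≤ s := Real.sqrt_nonneg _
  have e : g x - p.eval x ^ 2 = (s - p.eval x) * (s + p.eval x) := by
    have : g x = s ^ 2 := (Real.sq_sqrt (h0 x)).symm
    rw [this]
    ring
  rw [e, abs_mul]
  have h3 : |s - p.eval x| ≤ η := by
    rw [abs_sub_comm]
    exact h1
  have h4 : |s + p.eval x| ≤ 2 * B' + 1 := by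
    have h5 : s + p.eval x = 2 * s - (s - p.eval x) := by ring
    rw [h5]
    refine (abs_sub _ _).trans ?_
    have h6 : |2 * s| ≤ 2 * B' := by
      rw [abs_of_nonneg (by positivity)]
      linarith
    have h7 : η ≤ 1 := min_le_left _ _
    linarith
  calc |s - p.eval x| * |s + p.eval x| ≤ η * (2 * B' + 1) :=
        mul_le_mul h3 h4 (abs_nonneg _) hη0.le
    _ ≤ ε / (2 * B' + 1) * (2 * B' + 1) :=
        mul_le_mul_of_nonneg_right (min_le_right _ _) hd.le
    _ = ε := by field_simp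

/-- complex Weierstrass approximation -/
theorem cpoly {g : ℝ → ℂ} (hg : Continuous g) (R : ℝ) {ε : ℝ} (hε : 0 < ε) :
    ∃ q : Polynomial ℂ, ∀ x : ℝ, |x| ≤ R → ‖q.eval (x : ℂ) - g x‖ ≤ ε := by
  have h1 : Continuous fun x => (g x).re := Complex.continuous_re.comp hg
  have h2 : Continuous fun x => (g x).im := Complex.continuous_im.comp hg
  obtain ⟨p, hp⟩ := exists_polynomial_near_of_continuousOn (-R) R _ h1.continuousOn (ε / 2)
    (by positivity)
  obtain ⟨r, hr⟩ := exists_polynomial_near_of_continuousOn (-R) R _ h2.continuousOn (ε / 2)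
    (by positivity)
  refine ⟨rp p + Polynomial.C Complex.I * rp r, fun x hx => ?_⟩
  have hx' : x ∈ Icc (-R) R := abs_le.1 hx
  rw [Polynomial.eval_add, Polynomial.eval_mul, Polynomial.eval_C, rp_eval, rp_eval]
  have e : ((p.eval x : ℝ) : ℂ) + Complex.I * ((r.eval x : ℝ) : ℂ) - g x =
      ((p.eval x - (g x).re : ℝ) : ℂ) + Complex.I * ((r.eval x - (g x).im : ℝ) : ℂ) := by
    have h3 := Complex.re_add_im (g x)
    conv_lhs => rw [← h3]
    push_cast
    ring
  rw [e]
  refine (norm_add_le _ _).trans ?_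
  rw [norm_mul, Complex.norm_I, one_mul, Complex.norm_real, Complex.norm_real, Real.norm_eq_abs,
    Real.norm_eq_abs]
  have h4 := (hp x hx').le
  have h5 := (hr x hx').le
  linarith

/-- the radial projection to a ball -/
noncomputable def clip (M : ℝ) (z : ℂ) : ℂ := ((M / max M ‖z‖ : ℝ) : ℂ) * z

theorem clip_cont {M : ℝ} (hM : 0 < M) : Continuous (clip M) := by
  unfold clip
  refine Continuous.mul (Complex.continuous_ofReal.comp ?_) continuous_id
  refine Continuous.div continuous_const (by fun_prop) fun z => ?_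
  exact (lt_of_lt_of_le hM (le_max_left _ _)).ne'

theorem clip_le {M : ℝ} (hM : 0 < M) (z : ℂ) : ‖clip M z‖ ≤ M := by
  have h1 : 0 < max M ‖z‖ := lt_of_lt_of_le hM (le_max_left _ _)
  unfold clip
  rw [norm_mul, Complex.norm_real, Real.norm_eq_abs, abs_of_nonneg (by positivity),
    div_mul_eq_mul_div, div_le_iff₀ h1]
  exact mul_le_mul_of_nonneg_left (le_max_right _ _) hM.le

theorem clip_dist {M : ℝ} (hM : 0 < M) {w : ℂ} (hw : ‖w‖ ≤ M) (z : ℂ) :
    ‖w - clip M z‖ ≤ ‖w - z‖ := by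
  rcases le_or_gt ‖z‖ M with h | h
  · have e : clip M z = z := by
      unfold clip
      rw [max_eq_left h, div_self hM.ne', Complex.ofReal_one, one_mul]
    rw [e]
  · have hz : 0 < ‖z‖ := hM.trans h
    have e : clip M z = ((M / ‖z‖ : ℝ) : ℂ) * z := by
      unfold clip
      rw [max_eq_right h.le]
    rw [e]
    refine le_of_sq_le_sq ?_ (norm_nonneg _)
    set t := M / ‖z‖ with ht
    have ht1 : t * ‖z‖ = M := by
      rw [ht]
      field_simp
    have ht0 : 0 < t := by positivity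
    have ht2 : t < 1 := by
      rw [ht, div_lt_one hz]
      exact h
    have f1 : ∀ v : ℂ, ‖v‖ ^ 2 = Complex.normSq v := fun v => (Complex.normSq_eq_norm_sq v).symm
    have f2 : w.re * z.re + w.im * z.im ≤ ‖w‖ * ‖z‖ := by
      have := Complex.re_le_norm (w * conj z)
      rw [norm_mul, RCLike.norm_conj] at this
      simpa using this
    have f3 : ‖w‖ * ‖z‖ ≤ M * ‖z‖ := mul_le_mul_of_nonneg_right hw hz.le
    rw [f1, f1, Complex.normSq_apply, Complex.normSq_apply]
    have f4 : z.re * z.re + z.im * z.im = ‖z‖ ^ 2 := by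
      rw [f1, Complex.normSq_apply]
    simp only [Complex.sub_re, Complex.sub_im, Complex.mul_re, Complex.mul_im, Complex.ofReal_re,
      Complex.ofReal_im, zero_mul, sub_zero, add_zero]
    have f5 : (w.re - z.re) * (w.re - z.re) + (w.im - z.im) * (w.im - z.im) -
        ((w.re - t * z.re) * (w.re - t * z.re) + (w.im - t * z.im) * (w.im - t * z.im)) =
        (1 - t) * ((1 + t) * (z.re * z.re + z.im * z.im) -
          2 * (w.re * z.re + w.im * z.im)) := by ring
    have f6 : 0 ≤ (1 + t) * (z.re * z.re + z.im * z.im) - 2 * (w.re * z.re + w.im * z.im) := by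
      rw [f4]
      have f7 : (1 + t) * ‖z‖ ^ 2 = ‖z‖ * (‖z‖ + M) := by
        rw [← ht1]
        ring
      rw [f7]
      nlinarith
    have f8 := mul_nonneg (by linarith : (0 : ℝ) ≤ 1 - t) f6
    linarith

/-- approximation of the microcanonical average -/
theorem apx {κ : Measure ℝ} [IsFiniteMeasure κ] {f : ℝ → ℂ} (hf : Measurable f) {M : ℝ}
    (hM : 0 ≤ M) (hb : ∀ᵐ E ∂κ, ‖f E‖ ≤ M) (R : ℝ) {ε : ℝ} (hε : 0 < ε) :
    ∃ q : Polynomial ℂ, (∀ x : ℝ, |x| ≤ R → ‖q.eval (x : ℂ)‖ ≤ M + ε) ∧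
      ∫⁻ E, (if |E| ≤ R then ‖f E - q.eval (E : ℂ)‖ₑ ^ 2 else 0) ∂κ ≤ ENNReal.ofReal ε := by
  -- truncation
  set f1 : ℝ → ℂ := fun E => if ‖f E‖ ≤ M then f E else 0 with hf1
  have hf1m : Measurable f1 := Measurable.ite (measurableSet_le hf.norm measurable_const) hf
    measurable_const
  have hf1b : ∀ E, ‖f1 E‖ ≤ M := by
    intro E
    simp only [hf1]
    split_ifs with h
    · exact h
    · rw [norm_zero]
      exact hM
  have hf1e : f1 =ᵐ[κ] f := by
    filter_upwards [hb] with E hE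
    simp only [hf1]
    rw [if_pos hE]
  have hL : MemLp f1 2 κ := MemLp.of_bound hf1m.aestronglyMeasurable M (ae_of_all _ hf1b)
  -- precision
  obtain ⟨η, hη0, hη1, hη2⟩ : ∃ η : ℝ, 0 < η ∧ η ≤ ε / 2 ∧
      2 * η ^ 2 + 2 * η ^ 2 * κ.real univ ≤ ε := by
    have h1 : Tendsto (fun η : ℝ => 2 * η ^ 2 + 2 * η ^ 2 * κ.real univ) (𝓝[>] 0) (𝓝 0) := by
      have h2 : Continuous fun η : ℝ => 2 * η ^ 2 + 2 * η ^ 2 * κ.real univ := by fun_prop
      have h3 := h2.tendsto 0
      simp only [ne_eq, OfNat.ofNat_ne_zero, not_false_eq_true, zero_pow, mul_zero, zero_mul,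
        add_zero] at h3
      exact h3.mono_left nhdsWithin_le_nhds
    have h6 : ∀ᶠ η : ℝ in 𝓝[>] 0, η ∈ Ioo (0 : ℝ) (ε / 2) :=
      Ioo_mem_nhdsGT (by positivity : (0 : ℝ) < ε / 2)
    obtain ⟨η, h5, h7⟩ := (((tendsto_order.1 h1).2 ε hε).and h6).exists
    exact ⟨η, h7.1, h7.2.le, h5.le⟩
  obtain ⟨g0, hg1, -⟩ := hL.exists_boundedContinuous_eLpNorm_sub_le (by simp)
    (ENNReal.ofReal_pos.2 hη0).ne'
  have hM1 : 0 < M + ε / 2 := by positivity
  have hc : Continuous fun E => clip (M + ε / 2) (g0 E) := (clip_cont hM1).comp g0.continuous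
  obtain ⟨q, hq⟩ := cpoly hc R hη0
  refine ⟨q, fun x hx => ?_, ?_⟩
  · have h1 := hq x hx
    have h2 := clip_le hM1 (g0 x)
    calc ‖q.eval (x : ℂ)‖ ≤ ‖q.eval (x : ℂ) - clip (M + ε / 2) (g0 x)‖ +
          ‖clip (M + ε / 2) (g0 x)‖ := by
            have := norm_add_le (q.eval (x : ℂ) - clip (M + ε / 2) (g0 x)) (clip (M + ε / 2) (g0 x))
            rwa [sub_add_cancel] at this
      _ ≤ η + (M + ε / 2) := add_le_add h1 h2
      _ ≤ M + ε := by linarith
  · have hg3 : ∫⁻ E, ‖f1 E - g0 E‖ₑ ^ 2 ∂κ ≤ ENNReal.ofReal η ^ 2 := by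
      have e : eLpNorm (f1 - (g0 : ℝ → ℂ)) 2 κ =
          (∫⁻ E, ‖f1 E - g0 E‖ₑ ^ 2 ∂κ) ^ (1 / 2 : ℝ) := by
        rw [eLpNorm_eq_lintegral_rpow_enorm_toReal (by simp) (by simp)]
        simp
      rw [e] at hg1
      calc ∫⁻ E, ‖f1 E - g0 E‖ₑ ^ 2 ∂κ =
          ((∫⁻ E, ‖f1 E - g0 E‖ₑ ^ 2 ∂κ) ^ (1 / 2 : ℝ)) ^ 2 := by
            rw [← ENNReal.rpow_natCast, ← ENNReal.rpow_mul]
            norm_num
        _ ≤ _ := pow_le_pow_left₀ zero_le hg1 2
    have hpt : ∀ᵐ E ∂κ, (if |E| ≤ R then ‖f E - q.eval (E : ℂ)‖ₑ ^ 2 else 0) ≤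
        2 * ‖f1 E - g0 E‖ₑ ^ 2 + ENNReal.ofReal (2 * η ^ 2) := by
      filter_upwards [hf1e] with E hE
      split_ifs with h
      · have h1 : ‖f E - q.eval (E : ℂ)‖ ^ 2 ≤ 2 * ‖f1 E - g0 E‖ ^ 2 + 2 * η ^ 2 := by
          have h2 := hq E h
          have h3 := clip_dist hM1 ((hf1b E).trans (by linarith)) (g0 E)
          have h4 : ‖f E - q.eval (E : ℂ)‖ ≤ ‖f1 E - g0 E‖ + η := by
            rw [← hE]
            have e : f1 E - q.eval (E : ℂ) = (f1 E - clip (M + ε / 2) (g0 E)) -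
              (q.eval (E : ℂ) - clip (M + ε / 2) (g0 E)) := by ring
            rw [e]
            exact (norm_sub_le _ _).trans (add_le_add h3 h2)
          have h5 := pow_le_pow_left₀ (norm_nonneg _) h4 2
          nlinarith [sq_nonneg (‖f1 E - g0 E‖ - η)]
        have h6 : ‖f E - q.eval (E : ℂ)‖ₑ ^ 2 = ENNReal.ofReal (‖f E - q.eval (E : ℂ)‖ ^ 2) := by
          rw [← ofReal_norm, ENNReal.ofReal_pow (norm_nonneg _)]
        have h7 : 2 * ‖f1 E - g0 E‖ₑ ^ 2 = ENNReal.ofReal (2 * ‖f1 E - g0 E‖ ^ 2) := by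
          rw [← ofReal_norm, ENNReal.ofReal_mul (by norm_num), ENNReal.ofReal_pow (norm_nonneg _)]
          simp
        rw [h6, h7, ← ENNReal.ofReal_add (by positivity) (by positivity)]
        exact ENNReal.ofReal_le_ofReal h1
      · exact zero_le
    refine (lintegral_mono_ae hpt).trans ?_
    rw [lintegral_add_right _ measurable_const, lintegral_const_mul' _ _ (by simp),
      lintegral_const]
    have h8 : κ univ = ENNReal.ofReal (κ.real univ) := by
      rw [Measure.real, ENNReal.ofReal_toReal (measure_ne_top _ _)]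
    rw [h8, ← ENNReal.ofReal_mul (by positivity)]
    calc 2 * ∫⁻ E, ‖f1 E - g0 E‖ₑ ^ 2 ∂κ + ENNReal.ofReal (2 * η ^ 2 * κ.real univ)
        ≤ 2 * ENNReal.ofReal η ^ 2 + ENNReal.ofReal (2 * η ^ 2 * κ.real univ) := by gcongr
      _ = ENNReal.ofReal (2 * η ^ 2) + ENNReal.ofReal (2 * η ^ 2 * κ.real univ) := by
          have h9 : ENNReal.ofReal (2 * η ^ 2) = 2 * ENNReal.ofReal η ^ 2 := by
            rw [ENNReal.ofReal_mul (by norm_num), ENNReal.ofReal_pow hη0.le]
            simp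
          rw [h9]
      _ = ENNReal.ofReal (2 * η ^ 2 + 2 * η ^ 2 * κ.real univ) := by
          rw [ENNReal.ofReal_add (by positivity) (by positivity)]
      _ ≤ ENNReal.ofReal ε := ENNReal.ofReal_le_ofReal hη2

end Pool.Agent.H988.QB
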