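import Pool.Agent.H988.QB.Inf3

/-! # Boxes: assembly -/

set_option autoImplicit false
set_option linter.unusedSectionVars false

open Filter Topology MeasureTheory Set
open scoped InnerProductSpace ComplexConjugate ENNReal NNReal

namespace Pool.Agent.H988.QB

open Pool.Agent.TH980.IM Pool.Agent.H5R2
open Pool.Agent.R988.NQ
open Pool.Agent.H988.WM
open Pool.Agent.Y662.ERG

section asm

variable {d : ℕ} {ev : (NB.Site d → ℝ) → NB.UG (L2 d)}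
variable {A B P : OF d} {M C : ℝ}

theorem QQ_zero (S : ℝ) {N : ℕ} (hN : 1 ≤ N) : QQ (ca S) N 0 = 1 := by
  unfold QQ
  obtain ⟨n, rfl⟩ := Nat.exists_eq_add_of_le' hN
  rw [Finset.sum_range_succ']
  simp [ca_zero]

theorem QQ_cont (c : ℕ → ℂ) (N : ℕ) : Continuous (QQ c N) := by
  unfold QQ
  fun_prop

theorem er_small (d : ℕ) (K μ S : ℝ) (b : ℝ) {ε : ℝ} (hε : 0 < ε) :
    ∃ N : ℕ, 1 ≤ N ∧ b * er d K μ S N ^ 2 ≤ ε := by
  have h1 : Tendsto (fun N : ℕ => er d K μ S N) atTop (𝓝 0) := by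
    unfold er
    exact FloorSemiring.tendsto_pow_div_factorial_atTop _
  have h2 : Tendsto (fun N : ℕ => b * er d K μ S N ^ 2) atTop (𝓝 0) := by
    have := (h1.pow 2).const_mul b
    simpa using this
  obtain ⟨N, h3, h4⟩ := (((tendsto_order.1 h2).2 ε hε).and (eventually_ge_atTop 1)).exists
  exact ⟨N, h4, h3.le⟩

theorem sq_w {a w Y : ℝ} (hw : 0 ≤ w) (h : a ≤ Y) : (a + w) ^ 2 ≤ a ^ 2 + (2 * Y * w + w ^ 2) := by
  have h1 : a * w ≤ Y * w := mul_le_mul_of_nonneg_right h hw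
  have h2 : (a + w) ^ 2 = a ^ 2 + (2 * (a * w) + w ^ 2) := by ring
  rw [h2]
  linarith

theorem alg_c {t Sm c v e : ℝ} (hc : c ≠ 0) :
    t * (Sm + c * v) + e * c = c * (t * (Sm / c + v) + e) := by
  field_simp

/-- the sum over the pairs of eigenfunctions -/
noncomputable def ps {ι : Type} [Fintype ι] (u : ι → L2 d) (E : ι → ℝ) (A : L2 d →L[ℂ] L2 d)
    (m0 : L2 d →L[ℂ] L2 d) (q : Polynomial ℂ) (g : ℝ → ℝ) (μ δ : ℝ) : ℝ :=
  ∑ n, ∑ m, (if |E m - E n - μ| ≤ δ then g (E n) *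
      ‖⟪u m, m0 (A (u n))⟫_ℂ - q.eval (E n : ℂ) * ⟪u m, m0 (u n)⟫_ℂ‖ ^ 2 else 0)

/-- assembly -/
theorem assemble {K : ℝ} {ν : Measure ℝ} [IsProbabilityMeasure ν] (hK : ∀ᵐ r ∂ν, |r| ≤ K)
    (hev : ∀ ω : NB.Site d → ℝ, NB.IsGrp (-1) (fun x => 2 * d + ω x) (ev ω))
    (hA : Fld M A) (hP : Fld 1 P) (q : Polynomial ℂ) {mq : ℝ} (hmq : 0 ≤ mq)
    (hq : ∀ E : ℝ, |E| ≤ Rh d K → ‖q.eval (E : ℂ)‖ ≤ mq) (μ : ℝ) {β : ℝ} (hβ : 0 ≤ β)
    (H : ∀ p : Polynomial ℝ, (∀ x, |x| ≤ Rh d K → p.eval x ^ 2 ≤ 2) → ∃ S : ℝ, 0 < S ∧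
      ∫ ω, ‖avR μ (Hz ev (subF A (qF K q))) S ω (s1 K p P ω)‖ ^ 2 ∂(NB.PP d ν) ≤ β)
    {θ : ℝ} (hθ : 0 < θ) {g : ℝ → ℝ} (hg : Continuous g) (h0 : ∀ x, 0 ≤ g x)
    (h1 : ∀ x, g x ≤ 1) {ε : ℝ} (hε : 0 < ε) :
    ∃ δ : ℝ, 0 < δ ∧ ∃ L0 : ℕ, ∀ L : ℕ, L0 ≤ L → ∃ Rf : (NB.Site d → ℝ) → ℝ,
      Integrable Rf (NB.PP d ν) ∧
      ∫ ω, Rf ω ∂(NB.PP d ν) ≤ (1 + θ) * (M + mq) ^ 2 * (∫ ω, sw K P g ω ∂(NB.PP d ν)) +
        2 * (1 + θ⁻¹) * β + ε ∧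
      ∀ (ω : NB.Site d → ℝ) (ι : Type) [Fintype ι] (u : ι → L2 d) (E : ι → ℝ),
        EF K (bx d L) ω u E → ∀ (a : NB.Site d → ℝ) (ha : ∀ x, |a x| ≤ 1),
        (∀ x (i : Fin d), |a (x + Pi.single i 1) - a x| ≤ δ) →
        ps u E (A ω) (NB.MOM.mulop a 1 ha) q g μ δ ≤ (bx d L).card * Rf ω := by
  set R := Rh d K with hR
  have hR0 : 0 ≤ R := Rh_nonneg d K
  have hM : 0 ≤ M := hA.nonneg
  set mD := M + mq with hmD
  set mD' := M + pb R q with hmD'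
  have hmD0 : 0 ≤ mD := by positivity
  have hmD'0 : 0 ≤ mD' := add_nonneg hM (pb_nonneg hR0 q)
  have hD : Fld mD (subF A (qF K q)) := hA.sub (fld_qF K q hmq hq)
  set I := ∫ ω, sw K P g ω ∂(NB.PP d ν) with hI
  have hI0 : 0 ≤ I := integral_nonneg fun ω => sw_nonneg K h0 ω
  set base := (1 + θ) * mD ^ 2 * I + 2 * (1 + θ⁻¹) * β with hbase
  have hbase0 : 0 ≤ base := by positivity
  -- precision of the window
  set ε1 := min 1 (min (ε / (8 * ((1 + θ) * mD ^ 2 * 4 + 1))) (ε / (8 * (mD' ^ 2 + 1)))) with hε1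
  have hε1p : 0 < ε1 := lt_min one_pos (lt_min (by positivity) (by positivity))
  have hε1a : ε1 ≤ 1 := min_le_left _ _
  have hε1b : (1 + θ) * mD ^ 2 * (ε1 * 4) ≤ ε / 8 := by
    have h2 : ε1 ≤ ε / (8 * ((1 + θ) * mD ^ 2 * 4 + 1)) :=
      (min_le_right _ _).trans (min_le_left _ _)
    rw [le_div_iff₀ (by positivity)] at h2
    nlinarith
  have hε1c : ε1 * mD' ^ 2 ≤ ε / 8 := by
    have h2 : ε1 ≤ ε / (8 * (mD' ^ 2 + 1)) := (min_le_right _ _).trans (min_le_right _ _)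
    rw [le_div_iff₀ (by positivity)] at h2
    nlinarith
  obtain ⟨p, hp⟩ := sqrt_poly hg h0 R hε1p
  have hp1 : ∀ x, |x| ≤ R → p.eval x ^ 2 ≤ g x + ε1 := fun x hx => by
    have := abs_le.1 (hp x hx)
    linarith [this.1]
  have hp2 : ∀ x, |x| ≤ R → g x ≤ ‖(rp p).eval (x : ℂ)‖ ^ 2 + ε1 := fun x hx => by
    have := abs_le.1 (hp x hx)
    rw [rp_eval, Complex.norm_real, Real.norm_eq_abs, sq_abs]
    linarith [this.2]
  have hp3 : ∀ x, |x| ≤ R → p.eval x ^ 2 ≤ 2 := fun x hx => by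
    have h2 := hp1 x hx
    have h3 := h1 x
    linarith
  obtain ⟨S, hS, hSb⟩ := H p hp3
  obtain ⟨N, hN, hNb⟩ := er_small d K μ S
    (2 * (1 + θ⁻¹) * (mD * pb (Rh d K) (rp p)) ^ 2) (ε := ε / 8) (by positivity)
  have hgI : gI ν K μ (ca S) N q (rp p) A ≤ base + ε / 4 := by
    have h2 := gI_le hK hev hA hP q hD p μ hS N hθ
    have h3 := s2_le K (ν := ν) hP hg h0 h1 p hε1p.le hp1
    have h4 : (1 + θ) * mD ^ 2 * (∫ ω, ‖s2 K p P ω‖ ^ 2 ∂(NB.PP d ν)) ≤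
        (1 + θ) * mD ^ 2 * (I + ε1 * 4) := mul_le_mul_of_nonneg_left h3 (by positivity)
    have h5 : 2 * (1 + θ⁻¹) * ((∫ ω, ‖avR μ (Hz ev (subF A (qF K q))) S ω (s1 K p P ω)‖ ^ 2
        ∂(NB.PP d ν)) + (er d K μ S N * mD * pb (Rh d K) (rp p)) ^ 2) ≤
        2 * (1 + θ⁻¹) * (β + (er d K μ S N * mD * pb (Rh d K) (rp p)) ^ 2) := by
      gcongr
    have h6 : 2 * (1 + θ⁻¹) * (er d K μ S N * mD * pb (Rh d K) (rp p)) ^ 2 ≤ ε / 8 := by
      refine le_trans (le_of_eq ?_) hNb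
      ring
    have h7 : (1 + θ) * mD ^ 2 * (I + ε1 * 4) =
        (1 + θ) * mD ^ 2 * I + (1 + θ) * mD ^ 2 * (ε1 * 4) := by ring
    have h8 : 2 * (1 + θ⁻¹) * (β + (er d K μ S N * mD * pb (Rh d K) (rp p)) ^ 2) =
        2 * (1 + θ⁻¹) * β + 2 * (1 + θ⁻¹) * (er d K μ S N * mD * pb (Rh d K) (rp p)) ^ 2 := by
      ring
    rw [hbase]
    linarith
  -- the window
  set θ' := (base + ε) / (base + ε + ε / 8) with hθ'
  have hbe : 0 < base + ε := by positivity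
  have hθ'p : 0 < θ' := by positivity
  have hθ'1 : θ' < 1 := by
    rw [hθ', div_lt_one (by positivity)]
    linarith
  have hθ'i : θ'⁻¹ = 1 + ε / 8 / (base + ε) := by
    rw [hθ', inv_div]
    field_simp
  have hθ'b : ∀ Y : ℝ, Y ≤ base + ε → 0 ≤ Y → θ'⁻¹ * Y ≤ Y + ε / 8 := by
    intro Y hY hY0
    rw [hθ'i, add_mul, one_mul]
    have h2 : ε / 8 / (base + ε) * Y ≤ ε / 8 / (base + ε) * (base + ε) :=
      mul_le_mul_of_nonneg_left hY (by positivity)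
    have h3 : ε / 8 / (base + ε) * (base + ε) = ε / 8 := by field_simp
    linarith
  obtain ⟨δ0, hδ0, hδ0b⟩ : ∃ δ0 : ℝ, 0 < δ0 ∧ ∀ x, |x| ≤ δ0 → θ' ≤ ‖QQ (ca S) N x‖ ^ 2 := by
    have h2 : Continuous fun x => ‖QQ (ca S) N x‖ ^ 2 := ((QQ_cont (ca S) N).norm).pow 2
    have h3 := h2.tendsto 0
    simp only [QQ_zero S hN, norm_one, one_pow] at h3
    have h4 := (tendsto_order.1 h3).1 θ' hθ'1
    obtain ⟨r, hr, h5⟩ := Metric.eventually_nhds_iff.1 h4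
    refine ⟨r / 2, by positivity, fun x hx => (h5 ?_).le⟩
    rw [Real.dist_eq, sub_zero]
    linarith
  obtain ⟨Cw, hCw, hw⟩ := avp_weight (X := L2 d) hR0 μ (ca S) N
  set Y0 := yb R μ (ca S) N q (rp p) M with hY0
  have hY0p : 0 ≤ Y0 := yb_nonneg hA K μ (ca S) N q (rp p)
  set wf : ℝ → ℝ := fun δ => Cw * (2 * d * δ) * mD' * pb R (rp p) with hwf
  obtain ⟨δ, hδ, hδδ0, hδw⟩ : ∃ δ : ℝ, 0 < δ ∧ δ ≤ δ0 ∧ 2 * Y0 * wf δ + wf δ ^ 2 ≤ ε / 8 := by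
    have h2 : Continuous fun δ => 2 * Y0 * wf δ + wf δ ^ 2 := by
      simp only [hwf]
      fun_prop
    have h3 := (h2.tendsto 0).mono_left (nhdsWithin_le_nhds (s := Ioi (0 : ℝ)))
    have e : 2 * Y0 * wf 0 + wf 0 ^ 2 = 0 := by
      simp only [hwf]
      ring
    rw [e] at h3
    have h6 : ∀ᶠ δ : ℝ in 𝓝[>] 0, δ ∈ Ioo (0 : ℝ) δ0 := Ioo_mem_nhdsGT hδ0
    obtain ⟨δ, h5, h7⟩ := (((tendsto_order.1 h3).2 (ε / 8) (by positivity)).and h6).exists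
    exact ⟨δ, h7.1, h7.2.le, h5.le⟩
  set w := wf δ with hw'
  have hw0 : 0 ≤ w := by
    simp only [hw', hwf]
    have := pb_nonneg hR0 (rp p)
    positivity
  obtain ⟨L0, hL0⟩ := avg (G := gL ν K μ (ca S) N q (rp p) A) (C := Y0 ^ 2)
    (fun Λ => by
      unfold gL
      have h2 : ∫ V, ‖YY (HB K Λ V) μ (ca S) N q (rp p) (A V) (NB.dl 0)‖ ^ 2 ∂(NB.PP d ν) ≤
          ∫ _V, Y0 ^ 2 ∂(NB.PP d ν) :=
        integral_mono_of_nonneg (ae_of_all _ fun V => by positivity) (integrable_const _)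
          (ae_of_all _ fun V => pow_le_pow_left₀ (norm_nonneg _)
            (YY_dl hA K μ (ca S) N q (rp p) Λ 0 V) 2)
      simpa using h2)
    (fun Λ => integral_nonneg fun V => by positivity)
    (gL_lim (ν := ν) hA K μ (ca S) N q (rp p)) (ε := ε / 8) (by positivity)
  refine ⟨δ, hδ, L0, fun L hL => ?_⟩
  have hcp := card_pos (d := d) L
  have hint : ∀ x : NB.Site d, Integrable (fun V : NB.Site d → ℝ =>
      ‖YY (HB K (bx d L) V) μ (ca S) N q (rp p) (A V) (NB.dl x)‖ ^ 2) (NB.PP d ν) := fun x =>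
    Integrable.of_bound (C := Y0 ^ 2)
      (ms_YY hA K μ (ca S) N q (rp p) (bx d L) x).aestronglyMeasurable
      (ae_of_all _ fun V => by
        rw [norm_pow, norm_norm]
        exact pow_le_pow_left₀ (norm_nonneg _) (YY_dl hA K μ (ca S) N q (rp p) _ x V) 2)
  have hint1 : Integrable (fun V : NB.Site d → ℝ => (∑ x ∈ bx d L,
      ‖YY (HB K (bx d L) V) μ (ca S) N q (rp p) (A V) (NB.dl x)‖ ^ 2) / (bx d L).card)
      (NB.PP d ν) := (integrable_finsetSum _ fun x _ => hint x).div_const _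
  have hint2 : Integrable (fun V : NB.Site d → ℝ => (∑ x ∈ bx d L,
      ‖YY (HB K (bx d L) V) μ (ca S) N q (rp p) (A V) (NB.dl x)‖ ^ 2) / (bx d L).card +
        (2 * Y0 * w + w ^ 2)) (NB.PP d ν) := hint1.add (integrable_const _)
  refine ⟨fun V => θ'⁻¹ * ((∑ x ∈ bx d L,
    ‖YY (HB K (bx d L) V) μ (ca S) N q (rp p) (A V) (NB.dl x)‖ ^ 2) / (bx d L).card +
      (2 * Y0 * w + w ^ 2)) + ε1 * mD' ^ 2, (hint2.const_mul _).add (integrable_const _), ?_, ?_⟩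
  · rw [integral_add (hint2.const_mul _) (integrable_const _), integral_const_mul,
      integral_add hint1 (integrable_const _), integral_div,
      integral_finsetSum _ fun x _ => hint x]
    have h2 : ∑ x ∈ bx d L, ∫ V, ‖YY (HB K (bx d L) V) μ (ca S) N q (rp p) (A V)
        (NB.dl x)‖ ^ 2 ∂(NB.PP d ν) =
        ∑ x ∈ bx d L, gL ν K μ (ca S) N q (rp p) A (tr x (bx d L)) :=
      Finset.sum_congr rfl fun x _ => gL_site hA K μ (ca S) N q (rp p) (bx d L) x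
    rw [h2]
    have h3 := hL0 L hL
    simp only [integral_const, probReal_univ, one_smul]
    set Y := (∑ x ∈ bx d L, gL ν K μ (ca S) N q (rp p) A (tr x (bx d L))) / (bx d L).card +
      (2 * Y0 * w + w ^ 2) with hY
    have hY1 : Y ≤ base + ε / 2 := by
      rw [hY]
      linarith
    have hY0' : 0 ≤ Y := by
      rw [hY]
      refine add_nonneg (div_nonneg (Finset.sum_nonneg fun x _ => ?_) hcp.le) (by positivity)
      exact integral_nonneg fun V => by positivity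
    have h4 := hθ'b Y (by linarith) hY0'
    linarith
  · intro V ι _ u E hEF a ha hal
    have h2 := det hEF (A V) (hA.opn V) μ (ca S) N q (rp p) hε1p.le hp2 hθ'p
      (fun x hx => hδ0b x (hx.trans hδδ0)) hCw hw ha hδ.le hal
    refine h2.trans ?_
    have h3 : ∀ x ∈ bx d L, (‖YY (HB K (bx d L) V) μ (ca S) N q (rp p) (A V) (NB.dl x)‖ +
        Cw * (2 * d * δ) * (M + pb (Rh d K) q) * pb (Rh d K) (rp p)) ^ 2 ≤
        ‖YY (HB K (bx d L) V) μ (ca S) N q (rp p) (A V) (NB.dl x)‖ ^ 2 +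
          (2 * Y0 * w + w ^ 2) := by
      intro x _
      have e : Cw * (2 * d * δ) * (M + pb (Rh d K) q) * pb (Rh d K) (rp p) = w := rfl
      rw [e]
      have h4 := YY_dl hA K μ (ca S) N q (rp p) (bx d L) x V
      exact sq_w hw0 h4
    have h6 := Finset.sum_le_sum h3
    rw [Finset.sum_add_distrib, Finset.sum_const, nsmul_eq_mul] at h6
    have h7 : θ'⁻¹ * (∑ x ∈ bx d L, (‖YY (HB K (bx d L) V) μ (ca S) N q (rp p) (A V)
        (NB.dl x)‖ + Cw * (2 * d * δ) * (M + pb (Rh d K) q) * pb (Rh d K) (rp p)) ^ 2) ≤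
        θ'⁻¹ * (∑ x ∈ bx d L, ‖YY (HB K (bx d L) V) μ (ca S) N q (rp p) (A V)
          (NB.dl x)‖ ^ 2 + (bx d L).card * (2 * Y0 * w + w ^ 2)) :=
      mul_le_mul_of_nonneg_left h6 (inv_nonneg.2 hθ'p.le)
    refine (add_le_add h7 le_rfl).trans (le_of_eq ?_)
    have h8 : ((bx d L).card : ℝ) ≠ 0 := hcp.ne'
    have e2 : M + pb (Rh d K) q = mD' := rfl
    rw [e2]
    exact alg_c h8

end asm

end Pool.Agent.H988.QB
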