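import Pool.Agent.H988.QB.Fin

/-! # Averages over boxes -/

set_option autoImplicit false
set_option linter.unusedSectionVars false

open Filter Topology MeasureTheory Set
open scoped InnerProductSpace ComplexConjugate ENNReal NNReal

namespace Pool.Agent.H988.QB

open Pool.Agent.TH980.IM Pool.Agent.H5R2
open Pool.Agent.R988.NQ
open Pool.Agent.H988.WM

variable {d : ℕ}

/-- the box -/
noncomputable def bx (d L : ℕ) : Finset (Fin d → ℤ) := Fintype.piFinset fun _ => Finset.Icc (-(L : ℤ)) L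

theorem mem_bx {L : ℕ} {x : Fin d → ℤ} : x ∈ bx d L ↔ ∀ i, -(L : ℤ) ≤ x i ∧ x i ≤ L := by
  unfold bx
  rw [Fintype.mem_piFinset]
  simp only [Finset.mem_Icc]

theorem card_bx (L : ℕ) : (bx d L).card = (2 * L + 1) ^ d := by
  unfold bx
  rw [Fintype.card_piFinset_const, Int.card_Icc]
  congr 1
  omega

theorem card_pos (L : ℕ) : (0 : ℝ) < (bx d L).card := by
  rw [card_bx]
  positivity

theorem bx_mono {L L' : ℕ} (h : L ≤ L') : bx d L ⊆ bx d L' := by
  intro x hx
  rw [mem_bx] at hx ⊢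
  intro i
  have := hx i
  omega

theorem exists_bx (F : Finset (Fin d → ℤ)) : ∃ r : ℕ, F ⊆ bx d r := by
  classical
  refine ⟨∑ x ∈ F, ∑ i, (x i).natAbs, fun x hx => ?_⟩
  rw [mem_bx]
  intro i
  have h1 : (x i).natAbs ≤ ∑ i, (x i).natAbs :=
    Finset.single_le_sum (f := fun i => (x i).natAbs) (fun _ _ => Nat.zero_le _) (Finset.mem_univ i)
  have h2 : ∑ i, (x i).natAbs ≤ ∑ x ∈ F, ∑ i, (x i).natAbs :=
    Finset.single_le_sum (f := fun x : Fin d → ℤ => ∑ i, (x i).natAbs) (fun _ _ => Nat.zero_le _) hx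
  have h3 := h1.trans h2
  omega

theorem bx_sub {r L : ℕ} (h : r ≤ L) {x : Fin d → ℤ} (hx : x ∈ bx d (L - r)) :
    bx d r ⊆ tr x (bx d L) := by
  intro y hy
  rw [mem_tr]
  rw [mem_bx] at hx hy ⊢
  intro i
  have h1 := hx i
  have h2 := hy i
  have e : (y + x) i = y i + x i := rfl
  rw [e]
  omega

theorem ratio (d r : ℕ) : Tendsto (fun L : ℕ => ((bx d (L - r)).card : ℝ) / (bx d L).card) atTop
    (𝓝 1) := by
  have h1 : Tendsto (fun L : ℕ => (1 - (2 * r : ℝ) / (2 * L + 1)) ^ d) atTop (𝓝 ((1 - 0) ^ d)) := by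
    refine Tendsto.pow (Tendsto.const_sub _ ?_) d
    refine Tendsto.div_atTop tendsto_const_nhds ?_
    exact tendsto_atTop_add_const_right _ _
      (Tendsto.const_mul_atTop (by norm_num) tendsto_natCast_atTop_atTop)
  rw [sub_zero, one_pow] at h1
  refine h1.congr' ?_
  filter_upwards [eventually_ge_atTop r] with L hL
  rw [card_bx, card_bx]
  push_cast
  rw [← div_pow]
  congr 1
  have h2 : ((L - r : ℕ) : ℝ) = L - r := by
    rw [Nat.cast_sub hL]
  rw [h2]
  have h3 : (2 * (L : ℝ) + 1) ≠ 0 := by positivity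
  field_simp
  ring

theorem avg {G : Finset (Fin d → ℤ) → ℝ} {C g : ℝ} (hC : ∀ Λ, G Λ ≤ C)
    (h0 : ∀ Λ, 0 ≤ G Λ) (hG : Tendsto G atTop (𝓝 g)) {ε : ℝ} (hε : 0 < ε) :
    ∃ L0 : ℕ, ∀ L : ℕ, L0 ≤ L →
      (∑ x ∈ bx d L, G (tr x (bx d L))) / (bx d L).card ≤ g + ε := by
  classical
  have hC0 : 0 ≤ C := (h0 ∅).trans (hC ∅)
  have hg : 0 ≤ g := ge_of_tendsto' hG h0
  have h1 : ∀ᶠ Λ in atTop, G Λ ≤ g + ε / 2 := by
    have := (tendsto_order.1 hG).2 (g + ε / 2) (by linarith)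
    filter_upwards [this] with Λ hΛ
    exact hΛ.le
  obtain ⟨F, hF⟩ := eventually_atTop.1 h1
  obtain ⟨r, hr⟩ := exists_bx F
  have h2 : Tendsto (fun L : ℕ => (1 - ((bx d (L - r)).card : ℝ) / (bx d L).card) * C) atTop
      (𝓝 ((1 - 1) * C)) := ((ratio d r).const_sub 1).mul_const C
  rw [sub_self, zero_mul] at h2
  have h3 := (tendsto_order.1 h2).2 (ε / 2) (by linarith)
  obtain ⟨L1, hL1⟩ := eventually_atTop.1 h3
  refine ⟨max L1 r, fun L hL => ?_⟩
  have h4 := hL1 L ((le_max_left _ _).trans hL)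
  have hrL : r ≤ L := (le_max_right _ _).trans hL
  have hp := card_pos (d := d) L
  have hsub : bx d (L - r) ⊆ bx d L := bx_mono (Nat.sub_le _ _)
  have h5 : ∑ x ∈ bx d L, G (tr x (bx d L)) =
      ∑ x ∈ bx d (L - r), G (tr x (bx d L)) + ∑ x ∈ bx d L \ bx d (L - r), G (tr x (bx d L)) := by
    rw [add_comm]
    exact (Finset.sum_sdiff hsub).symm
  have h6 : ∑ x ∈ bx d (L - r), G (tr x (bx d L)) ≤ (bx d L).card * (g + ε / 2) := by
    have h7 : ∀ x ∈ bx d (L - r), G (tr x (bx d L)) ≤ g + ε / 2 := fun x hx =>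
      hF _ (hr.trans (bx_sub hrL hx))
    refine (Finset.sum_le_card_nsmul _ _ _ h7).trans ?_
    rw [nsmul_eq_mul]
    have h8 : ((bx d (L - r)).card : ℝ) ≤ (bx d L).card := by
      exact_mod_cast Finset.card_le_card hsub
    exact mul_le_mul_of_nonneg_right h8 (by linarith)
  have h9 : ∑ x ∈ bx d L \ bx d (L - r), G (tr x (bx d L)) ≤
      ((bx d L).card - (bx d (L - r)).card) * C := by
    refine (Finset.sum_le_card_nsmul _ _ _ fun x _ => hC _).trans ?_
    rw [nsmul_eq_mul]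
    have h10 : ((bx d L \ bx d (L - r)).card : ℝ) = (bx d L).card - (bx d (L - r)).card := by
      rw [Finset.card_sdiff_of_subset hsub, Nat.cast_sub (Finset.card_le_card hsub)]
    rw [h10]
  rw [div_le_iff₀ hp, h5]
  have h11 : (1 - ((bx d (L - r)).card : ℝ) / (bx d L).card) * C * (bx d L).card =
      ((bx d L).card - (bx d (L - r)).card) * C := by
    field_simp
  have h12 := mul_lt_mul_of_pos_right h4 hp
  rw [h11] at h12
  linarith

end Pool.Agent.H988.QB
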