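import Pool.Agent.H988.QB.Asm

/-! # Boxes: the two theorems for fields -/

set_option autoImplicit false
set_option linter.unusedSectionVars false

open Filter Topology MeasureTheory Set
open scoped InnerProductSpace ComplexConjugate ENNReal NNReal

namespace Pool.Agent.H988.QB

open Pool.Agent.TH980.IM Pool.Agent.H5R2
open Pool.Agent.R988.NQ
open Pool.Agent.H988.WM
open Pool.Agent.Y662.ERG

section cor

variable {d : ℕ} {ev : (NB.Site d → ℝ) → NB.UG (L2 d)}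
variable {A B P : OF d} {M C : ℝ}

/-- asymptotic bound for the sums over pairs of eigenfunctions -/
def AB (K : ℝ) (ν : Measure ℝ) [IsProbabilityMeasure ν] (A : OF d) (q : Polynomial ℂ)
    (g : ℝ → ℝ) (μ c : ℝ) : Prop :=
  ∃ δ : ℝ, 0 < δ ∧ ∃ L0 : ℕ, ∀ L : ℕ, L0 ≤ L → ∃ Rf : (NB.Site d → ℝ) → ℝ,
      Integrable Rf (NB.PP d ν) ∧ ∫ ω, Rf ω ∂(NB.PP d ν) ≤ c ∧
      ∀ (ω : NB.Site d → ℝ) (ι : Type) [Fintype ι] (u : ι → L2 d) (E : ι → ℝ),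
        EF K (bx d L) ω u E → ∀ (a : NB.Site d → ℝ) (ha : ∀ x, |a x| ≤ 1),
        (∀ x (i : Fin d), |a (x + Pi.single i 1) - a x| ≤ δ) →
        ps u E (A ω) (NB.MOM.mulop a 1 ha) q g μ δ ≤ (bx d L).card * Rf ω

/-- nonzero frequencies -/
theorem core1 {K : ℝ} {ν : Measure ℝ} [IsProbabilityMeasure ν] (hK : ∀ᵐ r ∂ν, |r| ≤ K)
    (hev : ∀ ω : NB.Site d → ℝ, NB.IsGrp (-1) (fun x => 2 * d + ω x) (ev ω))
    (hA : Fld M A) (hP : Fld 1 P) {μ : ℝ}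
    (hm : ∀ p : Polynomial ℝ, Mn μ (NB.PP d ν) (Hz ev A) (s1 K p P)) {ε : ℝ} (hε : 0 < ε)
    {g : ℝ → ℝ} (hg : Continuous g) (h0 : ∀ x, 0 ≤ g x) (h1 : ∀ x, g x ≤ 1) :
    AB K ν A 0 g μ (M ^ 2 * (∫ ω, sw K P g ω ∂(NB.PP d ν)) + ε) := by
  have hM : 0 ≤ M := hA.nonneg
  set I := ∫ ω, sw K P g ω ∂(NB.PP d ν) with hI
  have hI4 : I ≤ 4 := by
    have h2 : I ≤ ∫ _ω : NB.Site d → ℝ, (4 : ℝ) ∂(NB.PP d ν) :=
      integral_mono (sw_int K hP hg h0 h1) (integrable_const _) fun ω => sw_le K hP hg h1 ω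
    simpa using h2
  have hI0 : 0 ≤ I := integral_nonneg fun ω => sw_nonneg K h0 ω
  set θ := ε / (12 * (M ^ 2 + 1)) with hθ
  have hθp : 0 < θ := by positivity
  have hθb : θ * M ^ 2 * I ≤ ε / 3 := by
    have h2 : θ * M ^ 2 * I ≤ θ * M ^ 2 * 4 := mul_le_mul_of_nonneg_left hI4 (by positivity)
    have h3 : θ * (12 * (M ^ 2 + 1)) = ε := by
      rw [hθ]
      field_simp
    nlinarith
  set β := ε / (6 * (1 + θ⁻¹)) with hβ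
  have hβp : 0 < β := by positivity
  have hβb : 2 * (1 + θ⁻¹) * β = ε / 3 := by
    rw [hβ]
    have : (1 + θ⁻¹) ≠ 0 := by positivity
    field_simp
    norm_num
  obtain ⟨δ, hδ, L0, h2⟩ := assemble hK hev hA hP 0 (mq := 0) le_rfl (fun E _ => by simp) μ
    hβp.le (fun p _ => lim1 hev hA hP p (hm p) hβp) hθp hg h0 h1 (ε := ε / 3) (by positivity)
  refine ⟨δ, hδ, L0, fun L hL => ?_⟩
  obtain ⟨Rf, h3, h4, h5⟩ := h2 L hL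
  refine ⟨Rf, h3, h4.trans ?_, h5⟩
  rw [hβb, add_zero]
  have h6 : (1 + θ) * M ^ 2 * I = M ^ 2 * I + θ * M ^ 2 * I := by ring
  have h7 : ∫ ω, sw K P g ω ∂(NB.PP d ν) = I := rfl
  rw [h7, h6]
  linarith

/-- frequency zero -/
theorem core0 {K : ℝ} {ν : Measure ℝ} [IsProbabilityMeasure ν] (hK : ∀ᵐ r ∂ν, |r| ≤ K)
    (hev : ∀ ω : NB.Site d → ℝ, NB.IsGrp (-1) (fun x => 2 * d + ω x) (ev ω))
    (hA : Fld M A) (hB : Fld C B) (hP : Fld 1 P)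
    (cB : ∀ V t x, B V ((ev V).U t x) = (ev V).U t (B V x))
    (lB : ∀ᵐ V ∂(NB.PP d ν), ∀ x, Tendsto (fun N : ℕ => av 0 id (ev V) (A V) N x) atTop
        (𝓝 (B V x)))
    {κ : Measure ℝ} [IsFiniteMeasure κ]
    (hκ : ∀ g : ℝ → ℂ, Measurable g → (∃ C : ℝ, ∀ E, ‖g E‖ ≤ C) →
      ∫ ω, (∫ E, g E ∂(spm (HV_sa K ω) (PA K ω (NB.dl 0 : L2 d)))) ∂(NB.PP d ν) = ∫ E, g E ∂κ)
    {f : ℝ → ℂ} (hf : Measurable f) {Rf : ℝ} (hfR : ∀ E, ‖f E‖ ≤ Rf)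
    (h2 : ∀ᵐ ω ∂(NB.PP d ν), (∀ x, B ω (HV K ω x) = HV K ω (B ω x)) ∧
      (∀ ψ, ∀ᵐ E : ℝ, Ngl (HV K ω) E (B ω ψ - f E • ψ)))
    (eP : ∀ᵐ ω ∂(NB.PP d ν), P ω = PA K ω)
    (hm : ∀ p : Polynomial ℝ, Mn 0 (NB.PP d ν) (Hz ev (subF A B)) (s1 K p P))
    {ε : ℝ} (hε : 0 < ε) :
    ∃ q : Polynomial ℂ, ∫⁻ E, (if |E| ≤ Rh d K then ‖f E - q.eval (E : ℂ)‖ₑ ^ 2 else 0) ∂κ ≤
        ENNReal.ofReal ε ∧
      ∀ g : ℝ → ℝ, Continuous g → (∀ x, 0 ≤ g x) → (∀ x, g x ≤ 1) →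
        AB K ν A q g 0 (4 * M ^ 2 * (∫ ω, sw K P g ω ∂(NB.PP d ν)) + ε) := by
  have hM : 0 ≤ M := hA.nonneg
  have hBM := B_norm hev hA lB
  have hfM := f_bd hκ hBM hf h2
  -- the precision
  obtain ⟨θ, hθ, hθb⟩ : ∃ θ : ℝ, 0 < θ ∧ (1 + θ) * (M + (M + θ)) ^ 2 ≤ 4 * M ^ 2 + ε / 16 := by
    have h3 : Continuous fun θ : ℝ => (1 + θ) * (M + (M + θ)) ^ 2 := by fun_prop
    have h4 := (h3.tendsto 0).mono_left (nhdsWithin_le_nhds (s := Ioi (0 : ℝ)))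
    have e : (1 + (0 : ℝ)) * (M + (M + 0)) ^ 2 = 4 * M ^ 2 := by ring
    rw [e] at h4
    obtain ⟨θ, h5, h6⟩ := (((tendsto_order.1 h4).2 (4 * M ^ 2 + ε / 16) (by linarith)).and
      self_mem_nhdsWithin).exists
    exact ⟨θ, h6, h5.le⟩
  set ε2 := min (min θ ε) (ε / (40 * (1 + θ⁻¹))) with hε2
  have hε2p : 0 < ε2 := lt_min (lt_min hθ hε) (by positivity)
  have hε2a : ε2 ≤ θ := (min_le_left _ _).trans (min_le_left _ _)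
  have hε2b : ε2 ≤ ε := (min_le_left _ _).trans (min_le_right _ _)
  have hε2c : 2 * (1 + θ⁻¹) * (5 * ε2) ≤ ε / 4 := by
    have h3 : ε2 ≤ ε / (40 * (1 + θ⁻¹)) := min_le_right _ _
    rw [le_div_iff₀ (by positivity)] at h3
    linarith
  obtain ⟨q, hq1, hq2⟩ := apx hf hM hfM (Rh d K) hε2p
  refine ⟨q, hq2.trans (ENNReal.ofReal_le_ofReal hε2b), fun g hg h0 h1 => ?_⟩
  set I := ∫ ω, sw K P g ω ∂(NB.PP d ν) with hI
  have hI4 : I ≤ 4 := by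
    have h2 : I ≤ ∫ _ω : NB.Site d → ℝ, (4 : ℝ) ∂(NB.PP d ν) :=
      integral_mono (sw_int K hP hg h0 h1) (integrable_const _) fun ω => sw_le K hP hg h1 ω
    simpa using h2
  have hI0 : 0 ≤ I := integral_nonneg fun ω => sw_nonneg K h0 ω
  obtain ⟨δ, hδ, L0, h3⟩ := assemble hK hev hA hP q (mq := M + θ) (by positivity)
    (fun E hE => (hq1 E hE).trans (by linarith)) 0 (β := 5 * ε2) (by positivity)
    (fun p hp => by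
      obtain ⟨S, hS, h4⟩ := lim0 hK hev hA hB hP p cB (hm p) q hε2p
      refine ⟨S, hS, h4.trans ?_⟩
      have h5 := mic hκ hf hfR h2 eP q p hp (by norm_num) hε2p.le hq2
      linarith) hθ hg h0 h1 (ε := ε / 4) (by positivity)
  refine ⟨δ, hδ, L0, fun L hL => ?_⟩
  obtain ⟨Rf', h4, h5, h6⟩ := h3 L hL
  refine ⟨Rf', h4, h5.trans ?_, h6⟩
  have h7 : ∫ ω, sw K P g ω ∂(NB.PP d ν) = I := rfl
  rw [h7]
  have h8 : (1 + θ) * (M + (M + θ)) ^ 2 * I ≤ (4 * M ^ 2 + ε / 16) * I :=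
    mul_le_mul_of_nonneg_right hθb hI0
  have h9 : (4 * M ^ 2 + ε / 16) * I = 4 * M ^ 2 * I + ε / 16 * I := by ring
  have h10 : ε / 16 * I ≤ ε / 16 * 4 := mul_le_mul_of_nonneg_left hI4 (by positivity)
  linarith

end cor

end Pool.Agent.H988.QB
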