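import Pool.Agent.H988.QB.Alg

/-! # Time averages and polynomials in the commutator -/

set_option autoImplicit false
set_option linter.unusedSectionVars false

open Filter Topology MeasureTheory Set
open scoped InnerProductSpace ComplexConjugate

namespace Pool.Agent.H988.QB

open Pool.Agent.H988.WM Pool.Agent.Y662.ERG

section tay

variable {X : Type} [NormedAddCommGroup X] [InnerProductSpace ℂ X] [CompleteSpace X]

/-- the evolution with a phase -/
noncomputable def GG (T : X →L[ℂ] X) (μ : ℝ) (A : X →L[ℂ] X) (s : ℝ) : X →L[ℂ] X :=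
  ph μ s • (Ex T (-s) * A * Ex T s)

theorem GG_deriv (T : X →L[ℂ] X) (μ : ℝ) (A : X →L[ℂ] X) (s : ℝ) :
    HasDerivAt (GG T μ A) (Complex.I • GG T μ (dd T μ A) s) s := by
  have h1 : HasDerivAt (fun s : ℝ => Ex T s) (((-Complex.I) • T) * Ex T s) s :=
    hasDerivAt_exp_smul_const' (𝕂 := ℝ) ((-Complex.I) • T) s
  have h2 : HasDerivAt (fun s : ℝ => Ex T s) (Ex T (-s) * ((-Complex.I) • T)) (-s) :=
    hasDerivAt_exp_smul_const (𝕂 := ℝ) ((-Complex.I) • T) (-s)
  have h3 : HasDerivAt (fun s : ℝ => Ex T (-s)) ((-1 : ℝ) • (Ex T (-s) * ((-Complex.I) • T))) s :=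
    HasDerivAt.scomp s h2 (hasDerivAt_neg s)
  have h4 : HasDerivAt (fun s : ℝ => ph μ s) (-(Complex.I * μ) * ph μ s) s := by
    unfold ph
    have e1 : HasDerivAt (fun s : ℝ => -(Complex.I * μ * (s : ℂ))) (-(Complex.I * μ)) s := by
      have := ((Complex.ofRealCLM.hasDerivAt (x := s)).const_mul (Complex.I * (μ : ℂ))).fun_neg
      simpa using this
    have e2 := e1.cexp
    convert e2 using 1
    ring
  have h5 := h4.smul ((h3.mul_const A).mul h1)
  have h6 := h5.congr_deriv (g' := Complex.I • GG T μ (dd T μ A) s) (by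
    unfold GG
    ext x
    simp only [Pi.mul_apply, dd, smul_apply, add_apply, sub_apply, mul_apply_eq_comp,
      ContinuousLinearMap.comp_apply, map_smul, map_sub, smul_sub, neg_smul, neg_apply, map_neg]
    module)
  exact h6

theorem Ex_zero' (T : X →L[ℂ] X) : Ex T 0 = 1 := by
  ext u
  exact Ex_zero T u

theorem GG_zero (T : X →L[ℂ] X) (μ : ℝ) (A : X →L[ℂ] X) : GG T μ A 0 = A := by
  unfold GG
  have h : ph μ 0 = 1 := by
    unfold ph
    simp
  rw [h, neg_zero, Ex_zero', one_smul, one_mul, mul_one]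

variable {T : X →L[ℂ] X}

theorem GG_norm (hU : ∀ t : ℝ, ‖Ex T t‖ ≤ 1) (μ : ℝ) (A : X →L[ℂ] X) (s : ℝ) :
    ‖GG T μ A s‖ ≤ ‖A‖ := by
  unfold GG
  refine (norm_smul_le _ _).trans ?_
  rw [ph_norm, one_mul]
  calc ‖Ex T (-s) * A * Ex T s‖ ≤ ‖Ex T (-s)‖ * ‖A‖ * ‖Ex T s‖ :=
        (norm_mul_le _ _).trans (mul_le_mul_of_nonneg_right (norm_mul_le _ _) (norm_nonneg _))
    _ ≤ 1 * ‖A‖ * 1 := by
        gcongr
        · exact hU _
        · exact hU _
    _ = ‖A‖ := by ring

/-- partial sums -/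
noncomputable def PP (T : X →L[ℂ] X) (μ : ℝ) (N : ℕ) (A : X →L[ℂ] X) (s : ℝ) : X →L[ℂ] X :=
  ∑ k ∈ Finset.range N, ((Complex.I * s) ^ k / (k.factorial : ℂ)) • (dd T μ)^[k] A

theorem PP_deriv (T : X →L[ℂ] X) (μ : ℝ) (N : ℕ) (A : X →L[ℂ] X) (s : ℝ) :
    HasDerivAt (PP T μ (N + 1) A) (Complex.I • PP T μ N (dd T μ A) s) s := by
  have h : HasDerivAt (fun s : ℝ => ∑ k ∈ Finset.range (N + 1),
      ((Complex.I * s) ^ k / (k.factorial : ℂ)) • (dd T μ)^[k] A)
      (∑ k ∈ Finset.range (N + 1), (((k : ℂ) * (Complex.I * s) ^ (k - 1) * Complex.I) /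
        (k.factorial : ℂ)) • (dd T μ)^[k] A) s := by
    refine HasDerivAt.fun_sum fun k _ => ?_
    have e1 : HasDerivAt (fun s : ℝ => Complex.I * (s : ℂ)) Complex.I s := by
      have := (Complex.ofRealCLM.hasDerivAt (x := s)).const_mul Complex.I
      simpa using this
    exact ((e1.pow k).div_const _).smul_const _
  unfold PP
  convert h using 1
  rw [Finset.sum_range_succ', Finset.smul_sum]
  simp only [Nat.cast_zero, zero_mul, zero_div, zero_smul, add_zero]
  refine Finset.sum_congr rfl fun k _ => ?_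
  rw [smul_smul, Function.iterate_succ_apply]
  congr 1
  rw [Nat.add_sub_cancel, Nat.factorial_succ]
  have h1 : ((k.factorial : ℕ) : ℂ) ≠ 0 := by exact_mod_cast Nat.factorial_ne_zero k
  have h2 : ((k : ℂ) + 1) ≠ 0 := by exact_mod_cast Nat.succ_ne_zero k
  push_cast
  field_simp

/-- Taylor's formula -/
theorem taylor (hU : ∀ t : ℝ, ‖Ex T t‖ ≤ 1) {R : ℝ} (hR : ‖T‖ ≤ R) (μ : ℝ) (N : ℕ) :
    ∀ (A : X →L[ℂ] X) (s : ℝ), 0 ≤ s →
      ‖GG T μ A s - PP T μ N A s‖ ≤ ((2 * R + |μ|) * s) ^ N / (N.factorial : ℝ) * ‖A‖ := by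
  have h0 : 0 ≤ R := (norm_nonneg _).trans hR
  induction N with
  | zero =>
    intro A s _
    have e : PP T μ 0 A s = 0 := by
      unfold PP
      simp
    rw [e, sub_zero]
    simpa using GG_norm hU μ A s
  | succ N ih =>
    intro A s hs
    set r := 2 * R + |μ| with hr
    have hr0 : 0 ≤ r := by positivity
    have hN : (0 : ℝ) < N.factorial := by exact_mod_cast Nat.factorial_pos N
    have key := image_norm_le_of_norm_deriv_right_le_deriv_boundary
      (f := fun s => GG T μ A s - PP T μ (N + 1) A s)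
      (f' := fun s => Complex.I • GG T μ (dd T μ A) s - Complex.I • PP T μ N (dd T μ A) s)
      (a := 0) (b := s) (B := fun s => (r * s) ^ (N + 1) / ((N + 1).factorial : ℝ) * ‖A‖)
      (B' := fun s => (r * s) ^ N / (N.factorial : ℝ) * (r * ‖A‖)) ?_ ?_ ?_ ?_ ?_
    · exact key (right_mem_Icc.2 hs)
    · intro x _
      exact ((GG_deriv T μ A x).sub (PP_deriv T μ N A x)).continuousAt.continuousWithinAt
    · intro x _
      exact ((GG_deriv T μ A x).sub (PP_deriv T μ N A x)).hasDerivWithinAt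
    · show ‖GG T μ A 0 - PP T μ (N + 1) A 0‖ ≤ _
      have e : PP T μ (N + 1) A 0 = A := by
        unfold PP
        rw [Finset.sum_range_succ']
        simp
      rw [e, GG_zero, sub_self, norm_zero]
      positivity
    · intro x
      have e1 : HasDerivAt (fun s : ℝ => r * s) r x := by
        simpa using (hasDerivAt_id x).const_mul r
      have e2 := ((e1.pow (N + 1)).div_const (((N + 1).factorial : ℕ) : ℝ)).mul_const ‖A‖
      refine e2.congr_deriv ?_
      rw [Nat.add_sub_cancel, Nat.factorial_succ]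
      push_cast
      have h3 : ((N : ℝ) + 1) ≠ 0 := by positivity
      field_simp
    · intro x hx
      rw [← smul_sub]
      refine (norm_smul_le _ _).trans ?_
      rw [Complex.norm_I, one_mul]
      refine (ih (dd T μ A) x hx.1).trans ?_
      exact mul_le_mul_of_nonneg_left (dd_norm hR μ A) (by
        have := hx.1
        positivity)

/-- the coefficients of the averages -/
noncomputable def ca (S : ℝ) (k : ℕ) : ℂ := (Complex.I * S) ^ k / ((k + 1).factorial : ℂ)

theorem ca_zero (S : ℝ) : ca S 0 = 1 := by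
  unfold ca
  simp

theorem int_PP (T : X →L[ℂ] X) (μ : ℝ) (N : ℕ) (A : X →L[ℂ] X) {S : ℝ} (hS : 0 < S) (x : X) :
    ((S : ℂ)⁻¹) • ∫ s in (0 : ℝ)..S, PP T μ N A s x = avp T μ (ca S) N A x := by
  have h1 : ∀ s, PP T μ N A s x = ∑ k ∈ Finset.range N,
      ((Complex.I * s) ^ k / (k.factorial : ℂ)) • (dd T μ)^[k] A x := by
    intro s
    unfold PP
    rw [sum_apply]
    rfl
  simp only [h1]
  rw [intervalIntegral.integral_finsetSum, avp_apply, Finset.smul_sum]
  · refine Finset.sum_congr rfl fun k _ => ?_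
    rw [intervalIntegral.integral_smul_const, smul_smul]
    congr 1
    have h2 : ∀ s : ℝ, (Complex.I * s) ^ k / (k.factorial : ℂ) =
        (Complex.I ^ k / (k.factorial : ℂ)) * ((s ^ k : ℝ) : ℂ) := by
      intro s
      rw [mul_pow]
      push_cast
      ring
    simp only [h2]
    rw [intervalIntegral.integral_const_mul, intervalIntegral.integral_ofReal, integral_pow]
    unfold ca
    have h3 : (S : ℂ) ≠ 0 := by exact_mod_cast hS.ne'
    have h4 : ((k.factorial : ℕ) : ℂ) ≠ 0 := by exact_mod_cast Nat.factorial_ne_zero k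
    have h5 : ((k : ℂ) + 1) ≠ 0 := by exact_mod_cast Nat.succ_ne_zero k
    rw [Nat.factorial_succ, mul_pow, zero_pow (Nat.succ_ne_zero k), sub_zero]
    push_cast
    field_simp
    ring
  · intro k _
    refine Continuous.intervalIntegrable ?_ _ _
    fun_prop

/-- time averages are close to polynomials in the commutator -/
theorem avg_close (hU : ∀ t : ℝ, ‖Ex T t‖ ≤ 1) {R : ℝ} (hR : ‖T‖ ≤ R) (μ : ℝ) (N : ℕ)
    (A : X →L[ℂ] X) {S : ℝ} (hS : 0 < S) (x : X) :
    ‖((S : ℂ)⁻¹) • (∫ s in (0 : ℝ)..S, ph μ s • Ex T (-s) (A (Ex T s x))) -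
      avp T μ (ca S) N A x‖ ≤ ((2 * R + |μ|) * S) ^ N / (N.factorial : ℝ) * ‖A‖ * ‖x‖ := by
  have h0 : 0 ≤ R := (norm_nonneg _).trans hR
  rw [← int_PP T μ N A hS x, ← smul_sub]
  have c1 : Continuous fun s : ℝ => ph μ s • Ex T (-s) (A (Ex T s x)) := by
    have h1 : Continuous (GG T μ A) := continuous_iff_continuousAt.2 fun s =>
      (GG_deriv T μ A s).continuousAt
    exact h1.clm_apply continuous_const
  have c2 : Continuous fun s : ℝ => PP T μ N A s x := by
    have h1 : Continuous (PP T μ N A) := by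
      unfold PP
      fun_prop
    exact h1.clm_apply continuous_const
  rw [← intervalIntegral.integral_sub (c1.intervalIntegrable _ _) (c2.intervalIntegrable _ _)]
  have hSn : ‖((S : ℂ)⁻¹)‖ = S⁻¹ := by
    rw [norm_inv, Complex.norm_real, Real.norm_eq_abs, abs_of_pos hS]
  have h2 : ‖∫ s in (0 : ℝ)..S, (ph μ s • Ex T (-s) (A (Ex T s x)) - PP T μ N A s x)‖ ≤
      (((2 * R + |μ|) * S) ^ N / (N.factorial : ℝ) * ‖A‖ * ‖x‖) * |S - 0| := by
    refine intervalIntegral.norm_integral_le_of_norm_le_const fun s hs => ?_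
    rw [uIoc_of_le hS.le] at hs
    have e : ph μ s • Ex T (-s) (A (Ex T s x)) - PP T μ N A s x =
        (GG T μ A s - PP T μ N A s) x := rfl
    rw [e]
    refine (ContinuousLinearMap.le_opNorm _ _).trans (mul_le_mul_of_nonneg_right ?_ (norm_nonneg _))
    refine (taylor hU hR μ N A s hs.1.le).trans (mul_le_mul_of_nonneg_right ?_ (norm_nonneg _))
    have := hs.1.le
    have := hs.2
    gcongr
  refine (norm_smul_le _ _).trans ?_
  rw [hSn]
  rw [sub_zero, abs_of_pos hS] at h2
  calc S⁻¹ * ‖∫ s in (0 : ℝ)..S, (ph μ s • Ex T (-s) (A (Ex T s x)) - PP T μ N A s x)‖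
      ≤ S⁻¹ * ((((2 * R + |μ|) * S) ^ N / (N.factorial : ℝ) * ‖A‖ * ‖x‖) * S) := by gcongr
    _ = _ := by field_simp

end tay

end Pool.Agent.H988.QB
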