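import Pool.Agent.H988.QB.Box
import Pool.Agent.H988.QB.Tay

/-! # Eigenfunctions of a finite set: the deterministic estimate -/

set_option autoImplicit false
set_option linter.unusedSectionVars false

open Filter Topology MeasureTheory Set
open scoped InnerProductSpace ComplexConjugate ENNReal NNReal

namespace Pool.Agent.H988.QB

open Pool.Agent.TH980.IM Pool.Agent.H5R2
open Pool.Agent.R988.NQ
open Pool.Agent.H988.WM

variable {d : ℕ}

/-- commutator with a slowly varying function -/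
theorem comm_HV (K : ℝ) (V : NB.Site d → ℝ) {a : NB.Site d → ℝ} (ha : ∀ x, |a x| ≤ 1) {η : ℝ}
    (hη : 0 ≤ η) (h1 : ∀ x (i : Fin d), |a (x + Pi.single i 1) - a x| ≤ η) (ψ : L2 d) :
    ‖HV K V (NB.MOM.mulop a 1 ha ψ) - NB.MOM.mulop a 1 ha (HV K V ψ)‖ ≤ 2 * d * η * ‖ψ‖ := by
  have h2 : ∀ (i : Fin d) x, |a x - a (x + Pi.single i 1)| ≤ η := fun i x => by
    rw [abs_sub_comm]
    exact h1 x i
  have h3 : ∀ (i : Fin d) x, |a x - a (x - Pi.single i 1)| ≤ η := fun i x => by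
    have := h1 (x - Pi.single i 1) i
    rwa [sub_add_cancel] at this
  have e : HV K V (NB.MOM.mulop a 1 ha ψ) - NB.MOM.mulop a 1 ha (HV K V ψ) =
      ∑ i : Fin d, (NB.MOM.mulop (fun x => a x - a (x + Pi.single i 1)) η (h2 i)
          (sO (Pi.single i 1) ψ) +
        NB.MOM.mulop (fun x => a x - a (x - Pi.single i 1)) η (h3 i) (sO (-Pi.single i 1) ψ)) := by
    ext x
    have e1 : ∀ u : L2 d, u x = ⟪(NB.dl x : L2 d), u⟫_ℂ := fun u => (NB.STAT.inner_dl x u).symm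
    rw [e1 (∑ i : Fin d, _), inner_sum]
    simp only [inner_add_right, NB.STAT.inner_dl, NB.MOM.mulop_apply]
    show (HV K V (NB.MOM.mulop a 1 ha ψ)) x - (NB.MOM.mulop a 1 ha (HV K V ψ)) x = _
    rw [NB.MOM.mulop_apply, HV_apply, HV_apply]
    simp only [NB.MOM.mulop_apply]
    have e2 : ∀ (z : NB.Site d), (sO z ψ) x = ψ (x + z) := fun z => sO_shift z ψ x
    simp only [e2]
    have e3 : ∀ i : Fin d, x + -Pi.single i 1 = x - Pi.single i 1 := fun i =>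
      (sub_eq_add_neg _ _).symm
    simp only [e3]
    rw [mul_add, Finset.mul_sum, add_sub_add_comm, ← Finset.sum_sub_distrib]
    have e4 : (cl K (V x) : ℂ) * ((a x : ℂ) * ψ x) - (a x : ℂ) * ((cl K (V x) : ℂ) * ψ x) = 0 := by
      ring
    rw [e4, add_zero]
    refine Finset.sum_congr rfl fun i _ => ?_
    push_cast
    ring
  rw [e]
  refine (norm_sum_le _ _).trans ?_
  have h : ∀ i ∈ (Finset.univ : Finset (Fin d)),
      ‖NB.MOM.mulop (fun x => a x - a (x + Pi.single i 1)) η (h2 i) (sO (Pi.single i 1) ψ) +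
        NB.MOM.mulop (fun x => a x - a (x - Pi.single i 1)) η (h3 i)
          (sO (-Pi.single i 1) ψ)‖ ≤ 2 * η * ‖ψ‖ := by
    intro i _
    refine (norm_add_le _ _).trans ?_
    have g1 := NB.MOM.mulop_norm_le (fun x => a x - a (x + Pi.single i 1)) η (h2 i)
      (sO (Pi.single i 1) ψ)
    have g2 := NB.MOM.mulop_norm_le (fun x => a x - a (x - Pi.single i 1)) η (h3 i)
      (sO (-Pi.single i 1) ψ)
    rw [sO_norm] at g1 g2
    linarith
  refine (Finset.sum_le_sum h).trans ?_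
  simp
  ring_nf
  exact le_rfl

theorem pf_mul (Λ : Finset (NB.Site d)) {a : NB.Site d → ℝ} (ha : ∀ x, |a x| ≤ 1) (ψ : L2 d) :
    pf Λ (NB.MOM.mulop a 1 ha ψ) = NB.MOM.mulop a 1 ha (pf Λ ψ) := by
  ext x
  rw [pf_apply, NB.MOM.mulop_apply, NB.MOM.mulop_apply, pf_apply]
  ring

theorem comm_HB (K : ℝ) (Λ : Finset (NB.Site d)) (V : NB.Site d → ℝ) {a : NB.Site d → ℝ}
    (ha : ∀ x, |a x| ≤ 1) {η : ℝ} (hη : 0 ≤ η)
    (h1 : ∀ x (i : Fin d), |a (x + Pi.single i 1) - a x| ≤ η) :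
    ‖HB K Λ V ∘L NB.MOM.mulop a 1 ha - NB.MOM.mulop a 1 ha ∘L HB K Λ V‖ ≤ 2 * d * η := by
  refine ContinuousLinearMap.opNorm_le_bound _ (by positivity) fun ψ => ?_
  show ‖pf Λ (HV K V (pf Λ (NB.MOM.mulop a 1 ha ψ))) -
    NB.MOM.mulop a 1 ha (pf Λ (HV K V (pf Λ ψ)))‖ ≤ _
  rw [pf_mul, ← pf_mul Λ ha (HV K V (pf Λ ψ)), ← map_sub]
  refine (pf_le _ _).trans ((comm_HV K V ha hη h1 _).trans ?_)
  exact mul_le_mul_of_nonneg_left (pf_le _ _) (by positivity)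

/-- an orthonormal family of eigenfunctions of a finite set -/
structure EF (K : ℝ) (Λ : Finset (NB.Site d)) (V : NB.Site d → ℝ) {ι : Type} (u : ι → L2 d)
    (E : ι → ℝ) : Prop where
  on : Orthonormal ℂ u
  out : ∀ n x, x ∉ Λ → u n x = 0
  eig : ∀ n, ∀ x ∈ Λ, (HV K V (u n)) x = (E n : ℂ) * u n x

theorem EF.bd {K : ℝ} {Λ : Finset (NB.Site d)} {V : NB.Site d → ℝ} {ι : Type} {u : ι → L2 d}
    {E : ι → ℝ} (h : EF K Λ V u E) (n : ι) : |E n| ≤ Rh d K := by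
  have h1 := HB_eig (h.out n) (h.eig n)
  have h2 := (HB K Λ V).le_opNorm (u n)
  rw [h1, norm_smul, h.on.1 n, mul_one, mul_one, Complex.norm_real, Real.norm_eq_abs] at h2
  exact h2.trans (HB_norm K Λ V)

theorem pol_eig {X : Type} [NormedAddCommGroup X] [InnerProductSpace ℂ X] [CompleteSpace X]
    {T : X →L[ℂ] X} {u : X} {E : ℝ} (hu : T u = (E : ℂ) • u) (q : Polynomial ℂ) :
    Polynomial.aeval T q u = q.eval (E : ℂ) • u := by
  have h1 : ∀ k : ℕ, (T ^ k) u = ((E : ℂ) ^ k) • u := by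
    intro k
    induction k with
    | zero => simp
    | succ k ih =>
      rw [pow_succ']
      show T ((T ^ k) u) = _
      rw [ih, map_smul, hu, smul_smul, pow_succ]
  rw [Polynomial.aeval_eq_sum_range, Polynomial.eval_eq_sum_range, sum_apply, Finset.sum_smul]
  refine Finset.sum_congr rfl fun k _ => ?_
  show q.coeff k • (T ^ k) u = _
  rw [h1, smul_smul]

/-- the deterministic estimate -/
theorem det {K : ℝ} {Λ : Finset (NB.Site d)} {V : NB.Site d → ℝ} {ι : Type} [Fintype ι]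
    {u : ι → L2 d} {E : ι → ℝ} (h : EF K Λ V u E) (A : L2 d →L[ℂ] L2 d) {M : ℝ} (hM : ‖A‖ ≤ M)
    (μ : ℝ) (c : ℕ → ℂ) (N : ℕ) (q p : Polynomial ℂ) {g : ℝ → ℝ} {ε1 : ℝ} (hε1 : 0 ≤ ε1)
    (hg : ∀ x, |x| ≤ Rh d K → g x ≤ ‖p.eval (x : ℂ)‖ ^ 2 + ε1)
    {δ θ : ℝ} (hθ : 0 < θ) (hQ : ∀ x, |x| ≤ δ → θ ≤ ‖QQ c N x‖ ^ 2)
    {Cw : ℝ} (hCw : 0 ≤ Cw) (hw : ∀ (T A m : L2 d →L[ℂ] L2 d), ‖T‖ ≤ Rh d K →
      ‖avp T μ c N (m ∘L A) - m ∘L avp T μ c N A‖ ≤ Cw * ‖T ∘L m - m ∘L T‖ * ‖A‖)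
    {a : NB.Site d → ℝ} (ha : ∀ x, |a x| ≤ 1) {η : ℝ} (hη : 0 ≤ η)
    (h1 : ∀ x (i : Fin d), |a (x + Pi.single i 1) - a x| ≤ η) :
    ∑ n, ∑ m, (if |E m - E n - μ| ≤ δ then g (E n) *
      ‖⟪u m, NB.MOM.mulop a 1 ha (A (u n))⟫_ℂ -
        q.eval (E n : ℂ) * ⟪u m, NB.MOM.mulop a 1 ha (u n)⟫_ℂ‖ ^ 2 else 0) ≤
      θ⁻¹ * (∑ x ∈ Λ, (‖YY (HB K Λ V) μ c N q p A (NB.dl x)‖ +
        Cw * (2 * d * η) * (M + pb (Rh d K) q) * pb (Rh d K) p) ^ 2) +
      ε1 * (M + pb (Rh d K) q) ^ 2 * Λ.card := by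
  classical
  set T := HB K Λ V with hT
  set m0 := NB.MOM.mulop a 1 ha with hm0
  have hTn : ‖T‖ ≤ Rh d K := HB_norm K Λ V
  have hTs : ∀ x y, ⟪T x, y⟫_ℂ = ⟪x, T y⟫_ℂ := HB_symm K Λ V
  have hTe : ∀ n, T (u n) = (E n : ℂ) • u n := fun n => HB_eig (h.out n) (h.eig n)
  set D : L2 d →L[ℂ] L2 d := A - Polynomial.aeval T q with hD
  set mD := M + pb (Rh d K) q with hmD
  have hR := Rh_nonneg d K
  have hmD0 : 0 ≤ mD := add_nonneg ((norm_nonneg _).trans hM) (pb_nonneg hR q)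
  have hDn : ‖D‖ ≤ mD := (norm_sub_le _ _).trans (add_le_add hM (pol_norm hTn q))
  have hm0n : ‖m0‖ ≤ 1 := ContinuousLinearMap.opNorm_le_bound _ zero_le_one
    (NB.MOM.mulop_norm_le a 1 ha)
  set b : ι → ι → ℝ := fun n m => ‖⟪u m, (m0 ∘L D) (u n)⟫_ℂ‖ ^ 2 with hb
  have hb0 : ∀ n m, 0 ≤ b n m := fun n m => by positivity
  have e1 : ∀ n m, ⟪u m, m0 (A (u n))⟫_ℂ - q.eval (E n : ℂ) * ⟪u m, m0 (u n)⟫_ℂ =
      ⟪u m, (m0 ∘L D) (u n)⟫_ℂ := by
    intro n m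
    have e2 : (m0 ∘L D) (u n) = m0 (A (u n)) - q.eval (E n : ℂ) • m0 (u n) := by
      show m0 (A (u n) - Polynomial.aeval T q (u n)) = _
      rw [pol_eig (hTe n) q, map_sub, map_smul]
    rw [e2, inner_sub_right, inner_smul_right]
  have hstep1 : ∀ n m, (if |E m - E n - μ| ≤ δ then g (E n) *
      ‖⟪u m, m0 (A (u n))⟫_ℂ - q.eval (E n : ℂ) * ⟪u m, m0 (u n)⟫_ℂ‖ ^ 2 else 0) ≤
      θ⁻¹ * (‖p.eval (E n : ℂ)‖ ^ 2 * ‖⟪u m, avp T μ c N (m0 ∘L D) (u n)⟫_ℂ‖ ^ 2) +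
        ε1 * b n m := by
    intro n m
    have hpos : 0 ≤ θ⁻¹ * (‖p.eval (E n : ℂ)‖ ^ 2 *
        ‖⟪u m, avp T μ c N (m0 ∘L D) (u n)⟫_ℂ‖ ^ 2) := by positivity
    have hpos2 : 0 ≤ ε1 * b n m := mul_nonneg hε1 (hb0 n m)
    split_ifs with hc
    · rw [e1]
      have h3 := hg (E n) (h.bd n)
      have h4 : ‖p.eval (E n : ℂ)‖ ^ 2 * b n m ≤ θ⁻¹ * (‖p.eval (E n : ℂ)‖ ^ 2 *
          ‖⟪u m, avp T μ c N (m0 ∘L D) (u n)⟫_ℂ‖ ^ 2) := by
        rw [avp_eig hTs μ _ (hTe m) (hTe n), norm_mul, mul_pow]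
        have h5 := hQ _ hc
        have h6 : θ * (‖p.eval (E n : ℂ)‖ ^ 2 * b n m) ≤ ‖p.eval (E n : ℂ)‖ ^ 2 *
            (‖QQ c N (E m - E n - μ)‖ ^ 2 * b n m) := by
          calc θ * (‖p.eval (E n : ℂ)‖ ^ 2 * b n m) ≤ ‖QQ c N (E m - E n - μ)‖ ^ 2 *
                (‖p.eval (E n : ℂ)‖ ^ 2 * b n m) :=
                mul_le_mul_of_nonneg_right h5 (mul_nonneg (by positivity) (hb0 n m))
            _ = _ := by ring
        calc ‖p.eval (E n : ℂ)‖ ^ 2 * b n m = θ⁻¹ * (θ * (‖p.eval (E n : ℂ)‖ ^ 2 * b n m)) := by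
              field_simp
          _ ≤ _ := mul_le_mul_of_nonneg_left h6 (inv_nonneg.2 hθ.le)
      calc g (E n) * b n m ≤ (‖p.eval (E n : ℂ)‖ ^ 2 + ε1) * b n m :=
            mul_le_mul_of_nonneg_right h3 (hb0 n m)
        _ = ‖p.eval (E n : ℂ)‖ ^ 2 * b n m + ε1 * b n m := by ring
        _ ≤ _ := add_le_add h4 le_rfl
    · exact add_nonneg hpos hpos2
  have hstep2 : ∀ n, ∑ m, (if |E m - E n - μ| ≤ δ then g (E n) *
      ‖⟪u m, m0 (A (u n))⟫_ℂ - q.eval (E n : ℂ) * ⟪u m, m0 (u n)⟫_ℂ‖ ^ 2 else 0) ≤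
      θ⁻¹ * ‖(avp T μ c N (m0 ∘L D) ∘L Polynomial.aeval T p) (u n)‖ ^ 2 +
        ε1 * ‖(m0 ∘L D) (u n)‖ ^ 2 := by
    intro n
    refine (Finset.sum_le_sum fun m _ => hstep1 n m).trans ?_
    rw [Finset.sum_add_distrib, ← Finset.mul_sum, ← Finset.mul_sum, ← Finset.mul_sum]
    refine add_le_add (mul_le_mul_of_nonneg_left ?_ (inv_nonneg.2 hθ.le))
      (mul_le_mul_of_nonneg_left (bes h.on _) hε1)
    have e3 : (avp T μ c N (m0 ∘L D) ∘L Polynomial.aeval T p) (u n) =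
        p.eval (E n : ℂ) • avp T μ c N (m0 ∘L D) (u n) := by
      show avp T μ c N (m0 ∘L D) (Polynomial.aeval T p (u n)) = _
      rw [pol_eig (hTe n) p, map_smul]
    rw [e3, norm_smul, mul_pow]
    exact mul_le_mul_of_nonneg_left (bes h.on _) (by positivity)
  refine (Finset.sum_le_sum fun n _ => hstep2 n).trans ?_
  rw [Finset.sum_add_distrib, ← Finset.mul_sum, ← Finset.mul_sum]
  refine add_le_add (mul_le_mul_of_nonneg_left ?_ (inv_nonneg.2 hθ.le)) ?_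
  · refine (hs_le h.on h.out _).trans (Finset.sum_le_sum fun x _ => ?_)
    refine pow_le_pow_left₀ (norm_nonneg _) ?_ 2
    have e4 : (avp T μ c N (m0 ∘L D) ∘L Polynomial.aeval T p) (NB.dl x) =
        m0 (YY T μ c N q p A (NB.dl x)) +
          (avp T μ c N (m0 ∘L D) - m0 ∘L avp T μ c N D) (Polynomial.aeval T p (NB.dl x)) := by
      show avp T μ c N (m0 ∘L D) (Polynomial.aeval T p (NB.dl x)) =
        m0 (avp T μ c N D (Polynomial.aeval T p (NB.dl x))) +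
          (avp T μ c N (m0 ∘L D) (Polynomial.aeval T p (NB.dl x)) -
            m0 (avp T μ c N D (Polynomial.aeval T p (NB.dl x))))
      abel
    rw [e4]
    refine (norm_add_le _ _).trans (add_le_add ?_ ?_)
    · have := NB.MOM.mulop_norm_le a 1 ha (YY T μ c N q p A (NB.dl x))
      rwa [one_mul] at this
    · refine (ContinuousLinearMap.le_opNorm _ _).trans ?_
      have g1 := hw T D m0 hTn
      have g2 := comm_HB K Λ V ha hη h1
      have g3 : ‖Polynomial.aeval T p (NB.dl x : L2 d)‖ ≤ pb (Rh d K) p := by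
        refine (ContinuousLinearMap.le_opNorm _ _).trans ?_
        rw [NB.STAT.norm_dl, mul_one]
        exact pol_norm hTn p
      refine mul_le_mul (g1.trans ?_) g3 (norm_nonneg _) (by positivity)
      exact mul_le_mul (mul_le_mul_of_nonneg_left g2 hCw) hDn (norm_nonneg _) (by positivity)
  · rw [mul_assoc]
    refine mul_le_mul_of_nonneg_left ?_ hε1
    refine (hs_le h.on h.out _).trans ?_
    have g4 : ∀ x ∈ Λ, ‖(m0 ∘L D) (NB.dl x)‖ ^ 2 ≤ mD ^ 2 := by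
      intro x _
      refine pow_le_pow_left₀ (norm_nonneg _) ?_ 2
      refine (ContinuousLinearMap.le_opNorm _ _).trans ?_
      rw [NB.STAT.norm_dl, mul_one]
      refine (ContinuousLinearMap.opNorm_comp_le _ _).trans ?_
      calc ‖m0‖ * ‖D‖ ≤ 1 * mD := mul_le_mul hm0n hDn (norm_nonneg _) zero_le_one
        _ = mD := one_mul _
    refine (Finset.sum_le_card_nsmul _ _ _ g4).trans ?_
    rw [nsmul_eq_mul, mul_comm]

end Pool.Agent.H988.QB
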