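import Pool.Agent.H988.QB.Hs

/-! # Finite volume -/

set_option autoImplicit false
set_option linter.unusedSectionVars false

open Filter Topology MeasureTheory Set
open scoped InnerProductSpace ComplexConjugate ENNReal NNReal

namespace Pool.Agent.H988.QB

open Pool.Agent.TH980.IM Pool.Agent.H5R2
open Pool.Agent.R988.NQ
open Pool.Agent.H988.WM

variable {d : ℕ}

/-- bound for the Hamiltonian -/
noncomputable def Rh (d : ℕ) (K : ℝ) : ℝ := d * 4 + |K|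

theorem Rh_nonneg (d : ℕ) (K : ℝ) : 0 ≤ Rh d K := by
  unfold Rh
  positivity

theorem sO_norm (z : NB.Site d) (a : L2 d) : ‖sO z a‖ = ‖a‖ := by
  have h3 := sO_iso z a a
  rw [inner_self_eq_norm_sq_to_K, inner_self_eq_norm_sq_to_K] at h3
  have h4 : ‖sO z a‖ ^ 2 = ‖a‖ ^ 2 := by exact_mod_cast h3
  exact (sq_eq_sq₀ (norm_nonneg _) (norm_nonneg _)).1 h4

theorem HV_sum (K : ℝ) (V : NB.Site d → ℝ) (ψ : L2 d) : HV K V ψ =
    ∑ i : Fin d, (((2 : ℂ) • ψ - sO (Pi.single i 1) ψ) - sO (-Pi.single i 1) ψ) +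
      NB.MOM.mulop (fun x => cl K (V x)) |K| (fun x => cl_abs K (V x)) ψ := by
  ext x
  have e : ∀ u : L2 d, u x = ⟪(NB.dl x : L2 d), u⟫_ℂ := fun u => (NB.STAT.inner_dl x u).symm
  rw [HV_apply]
  rw [e (∑ i : Fin d, (((2 : ℂ) • ψ - sO (Pi.single i 1) ψ) - sO (-Pi.single i 1) ψ) +
      NB.MOM.mulop (fun x => cl K (V x)) |K| (fun x => cl_abs K (V x)) ψ), inner_add_right,
    inner_sum, NB.STAT.inner_dl, NB.MOM.mulop_apply]
  congr 1
  refine Finset.sum_congr rfl fun i _ => ?_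
  rw [inner_sub_right, inner_sub_right, inner_smul_right, NB.STAT.inner_dl, NB.STAT.inner_dl,
    NB.STAT.inner_dl, sO_shift, sO_shift, ← sub_eq_add_neg]

theorem HV_bd (K : ℝ) (V : NB.Site d → ℝ) (ψ : L2 d) : ‖HV K V ψ‖ ≤ Rh d K * ‖ψ‖ := by
  rw [HV_sum]
  refine (norm_add_le _ _).trans ?_
  unfold Rh
  rw [add_mul]
  refine add_le_add ?_ (NB.MOM.mulop_norm_le _ _ _ _)
  refine (norm_sum_le _ _).trans ?_
  have h : ∀ i ∈ (Finset.univ : Finset (Fin d)),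
      ‖((2 : ℂ) • ψ - sO (Pi.single i 1) ψ) - sO (-Pi.single i 1) ψ‖ ≤ 4 * ‖ψ‖ := by
    intro i _
    refine (norm_sub_le _ _).trans ?_
    refine (add_le_add (norm_sub_le _ _) le_rfl).trans ?_
    rw [sO_norm, sO_norm, norm_smul]
    have : ‖(2 : ℂ)‖ = 2 := by simp
    rw [this]
    linarith [norm_nonneg ψ]
  refine (Finset.sum_le_sum h).trans ?_
  simp
  ring_nf
  exact le_rfl

theorem HV_cov (K : ℝ) (z : NB.Site d) (S : L2 d →L[ℂ] L2 d) (hS : NB.IsShift z S)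
    (V : NB.Site d → ℝ) (ψ : L2 d) : HV K (fun y => V (y + z)) (S ψ) = S (HV K V ψ) := by
  ext x
  have h1 : (S (HV K V ψ)) x = (HV K V ψ) (x + z) := hS _ _
  have h2 : ∀ y, (S ψ) y = ψ (y + z) := fun y => hS ψ y
  rw [h1, HV_apply, HV_apply]
  simp only [h2]
  congr 1
  refine Finset.sum_congr rfl fun i _ => ?_
  have e1 : x + Pi.single i 1 + z = x + z + Pi.single i 1 := add_right_comm _ _ _
  have e2 : x - Pi.single i 1 + z = x + z - Pi.single i 1 := sub_add_eq_add_sub _ _ _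
  rw [e1, e2]

theorem fld_HV (K : ℝ) : Fld (Rh d K) (HV K : OF d) := by
  refine (flds (HV_bd K) (fun u x => ?_) fun z S hS V ψ => HV_cov K z S hS V ψ).1
  simp only [HV_apply]
  refine Measurable.const_add ?_ _
  refine Measurable.mul_const ?_ _
  refine Complex.measurable_ofReal.comp ?_
  exact (cl_cont K).measurable.comp (measurable_pi_apply x)

theorem HV_norm (K : ℝ) (V : NB.Site d → ℝ) : ‖HV K V‖ ≤ Rh d K :=
  ContinuousLinearMap.opNorm_le_bound _ (Rh_nonneg d K) (HV_bd K V)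

/-- the Hamiltonian of a finite set -/
noncomputable def HB (K : ℝ) (Λ : Finset (NB.Site d)) (V : NB.Site d → ℝ) : L2 d →L[ℂ] L2 d :=
  pf Λ ∘L (HV K V ∘L pf Λ)

theorem pf_norm (Λ : Finset (NB.Site d)) : ‖(pf Λ : L2 d →L[ℂ] L2 d)‖ ≤ 1 :=
  ContinuousLinearMap.opNorm_le_bound _ zero_le_one fun ψ => by
    rw [one_mul]
    exact pf_le Λ ψ

theorem HB_norm (K : ℝ) (Λ : Finset (NB.Site d)) (V : NB.Site d → ℝ) : ‖HB K Λ V‖ ≤ Rh d K := by
  refine ContinuousLinearMap.opNorm_le_bound _ (Rh_nonneg d K) fun ψ => ?_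
  show ‖pf Λ (HV K V (pf Λ ψ))‖ ≤ _
  refine (pf_le _ _).trans ((HV_bd K V _).trans ?_)
  exact mul_le_mul_of_nonneg_left (pf_le _ _) (Rh_nonneg d K)

theorem pf_symm (Λ : Finset (NB.Site d)) (f g : L2 d) : ⟪pf Λ f, g⟫_ℂ = ⟪f, pf Λ g⟫_ℂ := by
  rw [lp.inner_eq_tsum, lp.inner_eq_tsum]
  refine tsum_congr fun x => ?_
  rw [pf_apply, pf_apply, RCLike.inner_apply, RCLike.inner_apply, map_mul, Complex.conj_ofReal]
  ring

theorem HB_symm (K : ℝ) (Λ : Finset (NB.Site d)) (V : NB.Site d → ℝ) (f g : L2 d) :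
    ⟪HB K Λ V f, g⟫_ℂ = ⟪f, HB K Λ V g⟫_ℂ := by
  show ⟪pf Λ (HV K V (pf Λ f)), g⟫_ℂ = ⟪f, pf Λ (HV K V (pf Λ g))⟫_ℂ
  rw [pf_symm, ← pf_symm Λ f]
  exact (HV_sa K V).isSymmetric (pf Λ f) (pf Λ g)

theorem HB_eig {K : ℝ} {Λ : Finset (NB.Site d)} {V : NB.Site d → ℝ} {u : L2 d} {E : ℝ}
    (hs : ∀ x, x ∉ Λ → u x = 0) (he : ∀ x ∈ Λ, (HV K V u) x = (E : ℂ) * u x) :
    HB K Λ V u = (E : ℂ) • u := by
  show pf Λ (HV K V (pf Λ u)) = _
  rw [pf_eq hs]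
  ext x
  rw [pf_apply]
  show _ = (E : ℂ) * u x
  unfold chi
  by_cases hx : x ∈ Λ
  · simp [hx, he x hx]
  · simp [hx, hs x hx]

/-- the finite sets tend to the lattice -/
theorem sc_pf : SC (atTop : Filter (Finset (NB.Site d))) (fun Λ => (pf Λ : L2 d →L[ℂ] L2 d))
    1 := by
  intro ψ
  have h1 : HasSum (fun y => lp.single 2 y (ψ y)) ψ := lp.hasSum_single (by norm_num) ψ
  refine Tendsto.congr (fun Λ => ?_) h1
  show ∑ y ∈ Λ, lp.single 2 y (ψ y) = pf Λ ψ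
  rw [pf_sum]
  refine Finset.sum_congr rfl fun y _ => ?_
  unfold NB.dl
  rw [← lp.single_smul, smul_eq_mul, mul_one]

theorem sc_HB (K : ℝ) (V : NB.Site d → ℝ) :
    SC (atTop : Filter (Finset (NB.Site d))) (fun Λ => HB K Λ V) (HV K V) := by
  have h1 : SC (atTop : Filter (Finset (NB.Site d)))
      (fun Λ => HV K V ∘L (pf Λ : L2 d →L[ℂ] L2 d)) (HV K V ∘L 1) :=
    SC.comp (C := Rh d K) (fun _ => HV_norm K V) (SC.const _) sc_pf
  exact SC.comp (C := 1) (fun Λ => pf_norm Λ) sc_pf h1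

/-- the translated set -/
noncomputable def tr (x : NB.Site d) (Λ : Finset (NB.Site d)) : Finset (NB.Site d) := by
  classical exact Λ.image fun y => y - x

theorem mem_tr {x y : NB.Site d} {Λ : Finset (NB.Site d)} : y ∈ tr x Λ ↔ y + x ∈ Λ := by
  classical
  unfold tr
  rw [Finset.mem_image]
  constructor
  · rintro ⟨z, hz, rfl⟩
    simpa using hz
  · intro h
    exact ⟨y + x, h, by simp⟩

theorem iw_pf (x : NB.Site d) (Λ : Finset (NB.Site d)) :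
    IW (sO (-x)) (pf Λ : L2 d →L[ℂ] L2 d) (pf (tr x Λ)) := by
  intro v
  ext y
  have h1 : ∀ (u : L2 d) (y : NB.Site d), (sO (-x) u) y = u (y + -x) := fun u y =>
    sO_shift (-x) u y
  rw [pf_apply, h1, h1, pf_apply]
  congr 2
  unfold chi
  have h2 : y + -x ∈ tr x Λ ↔ y ∈ Λ := by
    rw [mem_tr, neg_add_cancel_right]
  simp only [h2]

theorem iw_HB (K : ℝ) (x : NB.Site d) (Λ : Finset (NB.Site d)) (V : NB.Site d → ℝ) :
    IW (sO (-x)) (HB K Λ V) (HB K (tr x Λ) fun y => V (y + x)) := by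
  have h1 : IW (sO (-x)) (HV K V) (HV K fun y => V (y + x)) := fun v =>
    cov_at (fld_HV K) x (sO_shift (-x)) V v
  exact (iw_pf x Λ).comp (h1.comp (iw_pf x Λ))

theorem mo_HB (K : ℝ) (Λ : Finset (NB.Site d)) : MO fun V : NB.Site d → ℝ => HB K Λ V := by
  have h : MO fun V : NB.Site d → ℝ => (HV K V : L2 d →L[ℂ] L2 d) := (fld_HV K).meas
  exact (MO.const _).comp (h.comp (MO.const _))

section vol

variable {A : OF d} {M : ℝ}

/-- the vector of a site -/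
theorem site (hA : Fld M A) (K μ : ℝ) (c : ℕ → ℂ) (N : ℕ) (q p : Polynomial ℂ)
    (x : NB.Site d) (Λ : Finset (NB.Site d)) (V : NB.Site d → ℝ) :
    ‖YY (HB K Λ V) μ c N q p (A V) (NB.dl x)‖ =
      ‖YY (HB K (tr x Λ) fun y => V (y + x)) μ c N q p (A fun y => V (y + x)) (NB.dl 0)‖ := by
  have h1 : IW (sO (-x)) (A V) (A fun y => V (y + x)) := fun v =>
    cov_at hA x (sO_shift (-x)) V v
  have h2 := (iw_HB K x Λ V).YY h1 μ c N q p (NB.dl 0)
  have h3 : sO (-x) (NB.dl 0) = (NB.dl x : L2 d) :=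
    NB.LIMB.shift_dl x (sO (-x)) (sO_shift (-x))
  rw [h3] at h2
  rw [h2, sO_norm]

/-- the mean at the origin -/
noncomputable def gL (ν : Measure ℝ) [IsProbabilityMeasure ν] (K μ : ℝ) (c : ℕ → ℂ) (N : ℕ)
    (q p : Polynomial ℂ) (A : OF d) (Λ : Finset (NB.Site d)) : ℝ :=
  ∫ V, ‖YY (HB K Λ V) μ c N q p (A V) (NB.dl 0)‖ ^ 2 ∂(NB.PP d ν)

/-- the mean at the origin, infinite volume -/
noncomputable def gI (ν : Measure ℝ) [IsProbabilityMeasure ν] (K μ : ℝ) (c : ℕ → ℂ) (N : ℕ)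
    (q p : Polynomial ℂ) (A : OF d) : ℝ :=
  ∫ V, ‖YY (HV K V) μ c N q p (A V) (NB.dl 0)‖ ^ 2 ∂(NB.PP d ν)

theorem mo_A (hA : Fld M A) : MO fun V : NB.Site d → ℝ => (A V : L2 d →L[ℂ] L2 d) := hA.meas

theorem ms_YY (hA : Fld M A) (K μ : ℝ) (c : ℕ → ℂ) (N : ℕ) (q p : Polynomial ℂ)
    (Λ : Finset (NB.Site d)) (x : NB.Site d) :
    StronglyMeasurable fun V : NB.Site d → ℝ => ‖YY (HB K Λ V) μ c N q p (A V) (NB.dl x)‖ ^ 2 :=
  (((mo_HB K Λ).YY (mo_A hA) μ c N q p) _ stronglyMeasurable_const).norm.pow 2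

theorem yb_nonneg (hA : Fld M A) (K μ : ℝ) (c : ℕ → ℂ) (N : ℕ) (q p : Polynomial ℂ) :
    0 ≤ yb (Rh d K) μ c N q p M :=
  (norm_nonneg _).trans (YY_norm (HV_norm K (0 : NB.Site d → ℝ)) (hA.opn 0) μ c N q p)

theorem YY_dl (hA : Fld M A) (K μ : ℝ) (c : ℕ → ℂ) (N : ℕ) (q p : Polynomial ℂ)
    (Λ : Finset (NB.Site d)) (x : NB.Site d) (V : NB.Site d → ℝ) :
    ‖YY (HB K Λ V) μ c N q p (A V) (NB.dl x)‖ ≤ yb (Rh d K) μ c N q p M := by
  refine ((YY (HB K Λ V) μ c N q p (A V)).le_opNorm _).trans ?_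
  rw [NB.STAT.norm_dl, mul_one]
  exact YY_norm (HB_norm K Λ V) (hA.opn V) μ c N q p

theorem YY_dl' (hA : Fld M A) (K μ : ℝ) (c : ℕ → ℂ) (N : ℕ) (q p : Polynomial ℂ)
    (x : NB.Site d) (V : NB.Site d → ℝ) :
    ‖YY (HV K V) μ c N q p (A V) (NB.dl x)‖ ≤ yb (Rh d K) μ c N q p M := by
  refine ((YY (HV K V) μ c N q p (A V)).le_opNorm _).trans ?_
  rw [NB.STAT.norm_dl, mul_one]
  exact YY_norm (HV_norm K V) (hA.opn V) μ c N q p

variable {ν : Measure ℝ} [IsProbabilityMeasure ν]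

theorem gL_lim (hA : Fld M A) (K μ : ℝ) (c : ℕ → ℂ) (N : ℕ) (q p : Polynomial ℂ) :
    Tendsto (gL ν K μ c N q p A) atTop (𝓝 (gI ν K μ c N q p A)) := by
  unfold gL gI
  refine tendsto_integral_filter_of_dominated_convergence
    (fun _ => yb (Rh d K) μ c N q p M ^ 2) (Eventually.of_forall fun Λ => ?_)
    (Eventually.of_forall fun Λ => Eventually.of_forall fun V => ?_) (integrable_const _)
    (Eventually.of_forall fun V => ?_)
  · exact (ms_YY hA K μ c N q p Λ 0).aestronglyMeasurable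
  · rw [norm_pow, norm_norm]
    exact pow_le_pow_left₀ (norm_nonneg _) (YY_dl hA K μ c N q p Λ 0 V) 2
  · have h := SC.YY (A := A V) (R := Rh d K) (fun Λ => HB_norm K Λ V) (sc_HB K V) μ c N q p
      (NB.dl 0)
    exact (h.norm).pow 2

theorem gL_site (hA : Fld M A) (K μ : ℝ) (c : ℕ → ℂ) (N : ℕ) (q p : Polynomial ℂ)
    (Λ : Finset (NB.Site d)) (x : NB.Site d) :
    ∫ V, ‖YY (HB K Λ V) μ c N q p (A V) (NB.dl x)‖ ^ 2 ∂(NB.PP d ν) =
      gL ν K μ c N q p A (tr x Λ) := by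
  unfold gL
  simp only [site hA K μ c N q p x Λ]
  have h1 := (NB.t_RES d ν).2 x
  have h2 := integral_map (μ := NB.PP d ν) h1.measurable.aemeasurable
    (f := fun V => ‖YY (HB K (tr x Λ) V) μ c N q p (A V) (NB.dl 0)‖ ^ 2)
    (ms_YY hA K μ c N q p (tr x Λ) 0).aestronglyMeasurable
  rw [h1.map_eq] at h2
  exact h2.symm

end vol

end Pool.Agent.H988.QB
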