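import Pool.Agent.H988.QB.Str

/-! # Sums over eigenfunctions -/

set_option autoImplicit false
set_option linter.unusedSectionVars false

open Filter Topology MeasureTheory Set
open scoped InnerProductSpace ComplexConjugate ENNReal NNReal

namespace Pool.Agent.H988.QB

open Pool.Agent.TH980.IM Pool.Agent.H5R2
open Pool.Agent.R988.NQ

variable {d : ℕ}

theorem norm_tsum (v : L2 d) : ‖v‖ ^ 2 = ∑' y, ‖v y‖ ^ 2 := by
  have h1 := lp.norm_rpow_eq_tsum (by norm_num : 0 < (2 : ℝ≥0∞).toReal) v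
  simpa only [ENNReal.toReal_ofNat, Real.rpow_two] using h1

theorem norm_summable (v : L2 d) : Summable fun y => ‖v y‖ ^ 2 := by
  have := (lp.memℓp v).summable (by norm_num : 0 < (2 : ℝ≥0∞).toReal)
  simpa using this

theorem pf_eq {Λ : Finset (NB.Site d)} {u : L2 d} (hs : ∀ x, x ∉ Λ → u x = 0) : pf Λ u = u := by
  ext x
  rw [pf_apply]
  unfold chi
  by_cases hx : x ∈ Λ
  · simp [hx]
  · simp [hx, hs x hx]

/-- the Hilbert-Schmidt norm bounds the sum over an orthonormal family -/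
theorem hs_le {ι : Type} [Fintype ι] {Λ : Finset (NB.Site d)} {u : ι → L2 d}
    (hu : Orthonormal ℂ u) (hs : ∀ n x, x ∉ Λ → u n x = 0) (Y : L2 d →L[ℂ] L2 d) :
    ∑ n, ‖Y (u n)‖ ^ 2 ≤ ∑ x ∈ Λ, ‖Y (NB.dl x)‖ ^ 2 := by
  have e1 : ∑ n, ‖Y (u n)‖ ^ 2 = ∑' y, ∑ n, ‖(Y (u n)) y‖ ^ 2 := by
    rw [Summable.tsum_finsetSum fun n _ => norm_summable _]
    exact Finset.sum_congr rfl fun n _ => norm_tsum _
  have e2 : ∑ x ∈ Λ, ‖Y (NB.dl x)‖ ^ 2 = ∑' y, ∑ x ∈ Λ, ‖(Y (NB.dl x)) y‖ ^ 2 := by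
    rw [Summable.tsum_finsetSum fun n _ => norm_summable _]
    exact Finset.sum_congr rfl fun n _ => norm_tsum _
  rw [e1, e2]
  refine Summable.tsum_le_tsum (fun y => ?_) (summable_sum fun n _ => norm_summable _)
    (summable_sum fun n _ => norm_summable _)
  set w : L2 d := ∑ x ∈ Λ, conj ((Y (NB.dl x)) y) • (NB.dl x : L2 d) with hw
  have hev : ∀ v : L2 d, ⟪w, v⟫_ℂ = ∑ x ∈ Λ, (Y (NB.dl x)) y * v x := by
    intro v
    rw [hw, sum_inner]
    refine Finset.sum_congr rfl fun x _ => ?_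
    rw [inner_smul_left, NB.STAT.inner_dl, Complex.conj_conj]
  have h1 : ∀ n, (Y (u n)) y = ⟪w, u n⟫_ℂ := by
    intro n
    rw [hev]
    have h2 : u n = ∑ x ∈ Λ, (u n x) • (NB.dl x : L2 d) := by
      rw [← pf_sum, pf_eq (hs n)]
    have h3 : (Y (u n)) y = ⟪(NB.dl y : L2 d), Y (∑ x ∈ Λ, (u n x) • (NB.dl x : L2 d))⟫_ℂ := by
      rw [← h2, NB.STAT.inner_dl]
    rw [h3, map_sum, inner_sum]
    refine Finset.sum_congr rfl fun x _ => ?_
    rw [map_smul, inner_smul_right, NB.STAT.inner_dl, mul_comm]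
  have h4 : ∀ n, ‖(Y (u n)) y‖ ^ 2 = ‖⟪u n, w⟫_ℂ‖ ^ 2 := by
    intro n
    rw [h1, norm_inner_symm]
  simp only [h4]
  refine (hu.sum_inner_products_le w).trans (le_of_eq ?_)
  -- the norm of `w`
  have h5 : ∀ x ∈ Λ, w x = conj ((Y (NB.dl x)) y) := by
    intro x hx
    rw [← NB.STAT.inner_dl x w, hw, inner_sum]
    simp only [inner_smul_right, NB.STAT.inner_dl]
    have e4 : ∀ z : NB.Site d, (NB.dl z : L2 d) x = if z = x then 1 else 0 := by
      intro z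
      unfold NB.dl
      rw [lp.single_apply, Pi.single_apply]
      simp [eq_comm]
    simp only [e4, mul_ite, mul_one, mul_zero, Finset.sum_ite_eq', hx, if_true]
  have h6 : ((‖w‖ ^ 2 : ℝ) : ℂ) = ((∑ x ∈ Λ, ‖(Y (NB.dl x)) y‖ ^ 2 : ℝ) : ℂ) := by
    have h7 : ((‖w‖ ^ 2 : ℝ) : ℂ) = ⟪w, w⟫_ℂ := by
      rw [inner_self_eq_norm_sq_to_K]
      push_cast
      rfl
    rw [h7, hev]
    push_cast
    refine Finset.sum_congr rfl fun x hx => ?_
    rw [h5 x hx, Complex.mul_conj, Complex.normSq_eq_norm_sq]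
    push_cast
    rfl
  exact_mod_cast h6

/-- Bessel -/
theorem bes {ι : Type} [Fintype ι] {u : ι → L2 d} (hu : Orthonormal ℂ u) (v : L2 d) :
    ∑ n, ‖⟪u n, v⟫_ℂ‖ ^ 2 ≤ ‖v‖ ^ 2 := hu.sum_inner_products_le v

end Pool.Agent.H988.QB
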