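import Pool.Agent.H988.QB.Apx

/-! # Infinite volume -/

set_option autoImplicit false
set_option linter.unusedSectionVars false

open Filter Topology MeasureTheory Set
open scoped InnerProductSpace ComplexConjugate ENNReal NNReal

namespace Pool.Agent.H988.QB

open Pool.Agent.TH980.IM Pool.Agent.H5R2
open Pool.Agent.R988.NQ
open Pool.Agent.H988.WM
open Pool.Agent.Y662.ERG

section inf

variable {d : ℕ} {ev : (NB.Site d → ℝ) → NB.UG (L2 d)}

/-- polynomials of the Hamiltonian as a field -/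
noncomputable def qF (K : ℝ) (q : Polynomial ℂ) : OF d := fun ω => Polynomial.aeval (HV K ω) q

theorem fld_qF (K : ℝ) (q : Polynomial ℂ) {m : ℝ} (hm0 : 0 ≤ m)
    (hm : ∀ E : ℝ, |E| ≤ Rh d K → ‖q.eval (E : ℂ)‖ ≤ m) : Fld m (qF K q : OF d) := by
  refine ⟨fun V ψ => ?_, ?_, fun z S hS V ψ => ?_⟩
  · exact (ContinuousLinearMap.le_opNorm _ _).trans
      (mul_le_mul_of_nonneg_right (pol_sup (HV_sa K V) (HV_norm K V) q hm0 hm) (norm_nonneg _))
  · have h : MO fun V : NB.Site d → ℝ => (HV K V : L2 d →L[ℂ] L2 d) := (fld_HV K).meas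
    exact h.pol q
  · have h : IW S (HV K fun y => V (y + z)) (HV K V) := fun v => HV_cov K z S hS V v
    exact h.pol q ψ

theorem pb_sup (R : ℝ) (hR : 0 ≤ R) (q : Polynomial ℂ) (E : ℝ) (hE : |E| ≤ R) :
    ‖q.eval (E : ℂ)‖ ≤ pb R q := by
  rw [Polynomial.eval_eq_sum_range]
  unfold pb
  refine (norm_sum_le _ _).trans (Finset.sum_le_sum fun k _ => ?_)
  rw [norm_mul, norm_pow, Complex.norm_real, Real.norm_eq_abs]
  gcongr

variable {A B P : OF d} {M C : ℝ}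

/-- the state in the absolutely continuous subspace -/
noncomputable def s1 (K : ℝ) (p : Polynomial ℝ) (P : OF d) (ω : NB.Site d → ℝ) : L2 d :=
  Polynomial.aeval (HV K ω) (rp p) (P ω (NB.dl 0))

/-- the singular rest -/
noncomputable def s2 (K : ℝ) (p : Polynomial ℝ) (P : OF d) (ω : NB.Site d → ℝ) : L2 d :=
  Polynomial.aeval (HV K ω) (rp p) (NB.dl 0 - P ω (NB.dl 0))

theorem s1_sm (K : ℝ) (p : Polynomial ℝ) (hP : Fld 1 P) : StronglyMeasurable (s1 K p P) := by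
  have h : MO fun V : NB.Site d → ℝ => (HV K V : L2 d →L[ℂ] L2 d) := (fld_HV K).meas
  exact h.pol (rp p) _ hP.sm

theorem s2_sm (K : ℝ) (p : Polynomial ℝ) (hP : Fld 1 P) : StronglyMeasurable (s2 K p P) := by
  have h : MO fun V : NB.Site d → ℝ => (HV K V : L2 d →L[ℂ] L2 d) := (fld_HV K).meas
  exact h.pol (rp p) _ (stronglyMeasurable_const.sub hP.sm)

theorem s1_bd (K : ℝ) (p : Polynomial ℝ) (hP : Fld 1 P) (ω : NB.Site d → ℝ) :
    ‖s1 K p P ω‖ ≤ pb (Rh d K) (rp p) := by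
  unfold s1
  refine (ContinuousLinearMap.le_opNorm _ _).trans ?_
  have h1 : ‖P ω (NB.dl 0)‖ ≤ 1 := hP.nb ω
  calc _ ≤ pb (Rh d K) (rp p) * 1 := mul_le_mul (pol_norm (HV_norm K ω) _) h1 (norm_nonneg _)
        (pb_nonneg (Rh_nonneg d K) _)
    _ = _ := mul_one _

theorem s2_bd (K : ℝ) (p : Polynomial ℝ) (hP : Fld 1 P) (ω : NB.Site d → ℝ) :
    ‖s2 K p P ω‖ ≤ pb (Rh d K) (rp p) * 2 := by
  unfold s2
  refine (ContinuousLinearMap.le_opNorm _ _).trans ?_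
  have h1 : ‖P ω (NB.dl 0)‖ ≤ 1 := hP.nb ω
  have h2 : ‖(NB.dl 0 : L2 d) - P ω (NB.dl 0)‖ ≤ 2 := by
    refine (norm_sub_le _ _).trans ?_
    rw [NB.STAT.norm_dl]
    linarith
  exact mul_le_mul (pol_norm (HV_norm K ω) _) h2 (norm_nonneg _) (pb_nonneg (Rh_nonneg d K) _)

/-- the error of Taylor's formula -/
noncomputable def er (d : ℕ) (K μ S : ℝ) (N : ℕ) : ℝ :=
  ((2 * Rh d K + |μ|) * S) ^ N / (N.factorial : ℝ)

theorem er_nonneg (K μ : ℝ) {S : ℝ} (hS : 0 ≤ S) (N : ℕ) : 0 ≤ er d K μ S N := by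
  unfold er
  have := Rh_nonneg d K
  positivity

/-- the vector at the origin, pointwise -/
theorem tri {K : ℝ} {V : NB.Site d → ℝ} (hV : ∀ x, |V x| ≤ K)
    (hev : ∀ ω : NB.Site d → ℝ, NB.IsGrp (-1) (fun x => 2 * d + ω x) (ev ω))
    (ν : Measure ℝ) [IsProbabilityMeasure ν]
    (q : Polynomial ℂ) {mD : ℝ} (hD : Fld mD (subF A (qF K q))) (p : Polynomial ℝ) (P : OF d)
    (μ : ℝ) {S : ℝ} (hS : 0 < S) (N : ℕ) :
    ‖YY (HV K V) μ (ca S) N q (rp p) (A V) (NB.dl 0)‖ ≤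
      mD * ‖s2 K p P V‖ + (‖avR μ (Hz ev (subF A (qF K q))) S V (s1 K p P V)‖ +
        er d K μ S N * mD * pb (Rh d K) (rp p)) := by
  have hT := HV_sa K V
  have hU : ∀ t : ℝ, ‖Ex (HV K V) t‖ ≤ 1 := fun t =>
    ContinuousLinearMap.opNorm_le_bound _ zero_le_one fun u => by
      rw [Ex_norm hT, one_mul]
  set D : OF d := subF A (qF K q) with hDD
  have hmD : 0 ≤ mD := hD.nonneg
  have hL := lo_Hz (c := -1) (o := 2 * d) hev ν hmD hD
  set v : L2 d := Polynomial.aeval (HV K V) (rp p) (NB.dl 0) with hv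
  have hvs : v = s1 K p P V + s2 K p P V := by
    unfold s1 s2
    rw [← map_add, add_sub_cancel]
  have h1 := avg_close hU (HV_norm K V) μ N (D V) hS v
  have h2 : ((S : ℂ)⁻¹) • (∫ s in (0 : ℝ)..S, ph μ s • Ex (HV K V) (-s) (D V (Ex (HV K V) s v))) =
      avR μ (Hz ev D) S V v := by
    unfold avR
    congr 1
    refine intervalIntegral.integral_congr fun s _ => ?_
    show ph μ s • Ex (HV K V) (-s) (D V (Ex (HV K V) s v)) =
      ph μ s • (ev V).U (-s) (D V ((ev V).U s v))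
    rw [grp_Ex hV (hev V), grp_Ex hV (hev V)]
  have h1' : ‖avR μ (Hz ev D) S V v - avp (HV K V) μ (ca S) N (D V) v‖ ≤
      ((2 * Rh d K + |μ|) * S) ^ N / (N.factorial : ℝ) * ‖D V‖ * ‖v‖ := by
    rw [← h2]
    exact h1
  have h3 : YY (HV K V) μ (ca S) N q (rp p) (A V) (NB.dl 0) =
      avp (HV K V) μ (ca S) N (D V) v := rfl
  have h4 : avR μ (Hz ev D) S V v = avR μ (Hz ev D) S V (s1 K p P V) +
      avR μ (Hz ev D) S V (s2 K p P V) := by
    rw [hvs]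
    exact hL.avR_add μ S V _ _
  have h5 := hL.avR_le μ S V (s2 K p P V)
  have h6 : ‖v‖ ≤ pb (Rh d K) (rp p) := by
    refine (ContinuousLinearMap.le_opNorm _ _).trans ?_
    rw [NB.STAT.norm_dl, mul_one]
    exact pol_norm (HV_norm K V) _
  have h7 : ‖avR μ (Hz ev D) S V v - avp (HV K V) μ (ca S) N (D V) v‖ ≤
      er d K μ S N * mD * pb (Rh d K) (rp p) := by
    refine h1'.trans ?_
    have h8 := er_nonneg (d := d) K μ hS.le N
    unfold er at h8 ⊢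
    exact mul_le_mul (mul_le_mul_of_nonneg_left (hD.opn V) h8) h6 (norm_nonneg _) (by positivity)
  rw [h3]
  calc ‖avp (HV K V) μ (ca S) N (D V) v‖ = ‖avR μ (Hz ev D) S V v -
        (avR μ (Hz ev D) S V v - avp (HV K V) μ (ca S) N (D V) v)‖ := by
          congr 1
          abel
    _ ≤ ‖avR μ (Hz ev D) S V v‖ +
        ‖avR μ (Hz ev D) S V v - avp (HV K V) μ (ca S) N (D V) v‖ := norm_sub_le _ _
    _ ≤ (‖avR μ (Hz ev D) S V (s1 K p P V)‖ + mD * ‖s2 K p P V‖) +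
        er d K μ S N * mD * pb (Rh d K) (rp p) := by
          refine add_le_add ?_ h7
          rw [h4]
          exact (norm_add_le _ _).trans (add_le_add le_rfl h5)
    _ = _ := by ring

theorem sq_split {a b e θ : ℝ} (hθ : 0 < θ) :
    (b + (a + e)) ^ 2 ≤ (1 + θ) * b ^ 2 + 2 * (1 + θ⁻¹) * (a ^ 2 + e ^ 2) := by
  have h1 : 2 * b * (a + e) ≤ θ * b ^ 2 + θ⁻¹ * (a + e) ^ 2 := by
    have h2 : 0 ≤ θ⁻¹ * (θ * b - (a + e)) ^ 2 := by positivity
    have h3 : θ⁻¹ * (θ * b - (a + e)) ^ 2 = θ * b ^ 2 - 2 * b * (a + e) + θ⁻¹ * (a + e) ^ 2 := by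
      field_simp
      ring
    linarith
  have h4 : (1 + θ⁻¹) * (a + e) ^ 2 ≤ (1 + θ⁻¹) * (2 * (a ^ 2 + e ^ 2)) := by
    refine mul_le_mul_of_nonneg_left ?_ (by positivity)
    nlinarith [sq_nonneg (a - e)]
  nlinarith

/-- the mean at the origin -/
theorem gI_le {K : ℝ} {ν : Measure ℝ} [IsProbabilityMeasure ν] (hK : ∀ᵐ r ∂ν, |r| ≤ K)
    (hev : ∀ ω : NB.Site d → ℝ, NB.IsGrp (-1) (fun x => 2 * d + ω x) (ev ω))
    (hA : Fld M A) (hP : Fld 1 P)
    (q : Polynomial ℂ) {mD : ℝ} (hD : Fld mD (subF A (qF K q))) (p : Polynomial ℝ)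
    (μ : ℝ) {S : ℝ} (hS : 0 < S) (N : ℕ) {θ : ℝ} (hθ : 0 < θ) :
    gI ν K μ (ca S) N q (rp p) A ≤
      (1 + θ) * mD ^ 2 * (∫ ω, ‖s2 K p P ω‖ ^ 2 ∂(NB.PP d ν)) +
      2 * (1 + θ⁻¹) * ((∫ ω, ‖avR μ (Hz ev (subF A (qF K q))) S ω (s1 K p P ω)‖ ^ 2
        ∂(NB.PP d ν)) + (er d K μ S N * mD * pb (Rh d K) (rp p)) ^ 2) := by
  have hmD : 0 ≤ mD := hD.nonneg
  have hL := lo_Hz (c := -1) (o := 2 * d) hev ν hmD hD
  have hm1 : StronglyMeasurable fun ω =>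
      ‖avR μ (Hz ev (subF A (qF K q))) S ω (s1 K p P ω)‖ ^ 2 :=
    (hL.avR_sm μ hS.le (s1_sm K p hP)).norm.pow 2
  have hm2 : StronglyMeasurable fun ω => ‖s2 K p P ω‖ ^ 2 := (s2_sm K p hP).norm.pow 2
  have i1 : Integrable (fun ω => ‖avR μ (Hz ev (subF A (qF K q))) S ω (s1 K p P ω)‖ ^ 2)
      (NB.PP d ν) := by
    refine Integrable.of_bound (C := (mD * pb (Rh d K) (rp p)) ^ 2) hm1.aestronglyMeasurable
      (Eventually.of_forall fun ω => ?_)
    rw [norm_pow, norm_norm]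
    refine pow_le_pow_left₀ (norm_nonneg _) ((hL.avR_le μ S ω _).trans ?_) 2
    exact mul_le_mul_of_nonneg_left (s1_bd K p hP ω) hmD
  have i2 : Integrable (fun ω => ‖s2 K p P ω‖ ^ 2) (NB.PP d ν) := by
    refine Integrable.of_bound (C := (pb (Rh d K) (rp p) * 2) ^ 2) hm2.aestronglyMeasurable
      (Eventually.of_forall fun ω => ?_)
    rw [norm_pow, norm_norm]
    exact pow_le_pow_left₀ (norm_nonneg _) (s2_bd K p hP ω) 2
  set e := er d K μ S N * mD * pb (Rh d K) (rp p) with he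
  have h1 : gI ν K μ (ca S) N q (rp p) A ≤ ∫ ω, ((1 + θ) * mD ^ 2 * ‖s2 K p P ω‖ ^ 2 +
      2 * (1 + θ⁻¹) * (‖avR μ (Hz ev (subF A (qF K q))) S ω (s1 K p P ω)‖ ^ 2 + e ^ 2))
      ∂(NB.PP d ν) := by
    unfold gI
    refine integral_mono_of_nonneg (Eventually.of_forall fun ω => by positivity)
      ((i2.const_mul _).add ((i1.add (integrable_const _)).const_mul _)) ?_
    filter_upwards [bd_ae (d := d) hK] with ω hω
    refine (pow_le_pow_left₀ (norm_nonneg _) (tri hω hev ν q hD p P μ hS N) 2).trans ?_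
    refine (sq_split hθ).trans (le_of_eq ?_)
    rw [mul_pow, ← mul_assoc]
  refine h1.trans (le_of_eq ?_)
  have i4 : Integrable (fun ω => ‖avR μ (Hz ev (subF A (qF K q))) S ω (s1 K p P ω)‖ ^ 2 + e ^ 2)
      (NB.PP d ν) := i1.add (integrable_const _)
  have i3 : Integrable (fun ω => 2 * (1 + θ⁻¹) *
      (‖avR μ (Hz ev (subF A (qF K q))) S ω (s1 K p P ω)‖ ^ 2 + e ^ 2)) (NB.PP d ν) :=
    i4.const_mul _
  rw [integral_add (i2.const_mul _) i3, integral_const_mul, integral_const_mul]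
  have h5 : ∫ ω, (‖avR μ (Hz ev (subF A (qF K q))) S ω (s1 K p P ω)‖ ^ 2 + e ^ 2)
      ∂(NB.PP d ν) = (∫ ω, ‖avR μ (Hz ev (subF A (qF K q))) S ω (s1 K p P ω)‖ ^ 2
      ∂(NB.PP d ν)) + e ^ 2 := by
    rw [integral_add i1 (integrable_const _)]
    simp
  rw [h5]

end inf

end Pool.Agent.H988.QB
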