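import Pool.Agent.H988.QB.Inf

/-! # Infinite volume: the limits -/

set_option autoImplicit false
set_option linter.unusedSectionVars false

open Filter Topology MeasureTheory Set
open scoped InnerProductSpace ComplexConjugate ENNReal NNReal

namespace Pool.Agent.H988.QB

open Pool.Agent.TH980.IM Pool.Agent.H5R2
open Pool.Agent.R988.NQ
open Pool.Agent.H988.WM
open Pool.Agent.Y662.ERG

section inf2

variable {d : ℕ} {ev : (NB.Site d → ℝ) → NB.UG (L2 d)}
variable {A B P : OF d} {M C : ℝ}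

/-- the conserved part is not larger than the observable -/
theorem B_norm (hev : ∀ ω : NB.Site d → ℝ, NB.IsGrp (-1) (fun x => 2 * d + ω x) (ev ω))
    {ν : Measure ℝ} [IsProbabilityMeasure ν] (hA : Fld M A)
    (lB : ∀ᵐ V ∂(NB.PP d ν), ∀ x, Tendsto (fun N : ℕ => av 0 id (ev V) (A V) N x) atTop
        (𝓝 (B V x))) : ∀ᵐ V ∂(NB.PP d ν), ‖B V‖ ≤ M := by
  have hL := lo_Hz (c := -1) (o := 2 * d) hev ν hA.nonneg hA
  filter_upwards [lB] with V hV
  refine ContinuousLinearMap.opNorm_le_bound _ hA.nonneg fun x => ?_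
  refine le_of_tendsto (hV x).norm (Eventually.of_forall fun N => ?_)
  have e1 : av 0 id (ev V) (A V) N x = avR 0 (Hz ev A) N V x := rfl
  rw [e1]
  exact hL.avR_le 0 N V x

/-- the microcanonical average is bounded by the observable -/
theorem f_bd {K : ℝ} {ν : Measure ℝ} [IsProbabilityMeasure ν]
    {κ : Measure ℝ} [IsFiniteMeasure κ]
    (hκ : ∀ g : ℝ → ℂ, Measurable g → (∃ C : ℝ, ∀ E, ‖g E‖ ≤ C) →
      ∫ ω, (∫ E, g E ∂(spm (HV_sa K ω) (PA K ω (NB.dl 0 : L2 d)))) ∂(NB.PP d ν) = ∫ E, g E ∂κ)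
    (hB : ∀ᵐ V ∂(NB.PP d ν), ‖B V‖ ≤ M) {f : ℝ → ℂ} (hf : Measurable f)
    (h2 : ∀ᵐ ω ∂(NB.PP d ν), (∀ x, B ω (HV K ω x) = HV K ω (B ω x)) ∧
      (∀ ψ, ∀ᵐ E : ℝ, Ngl (HV K ω) E (B ω ψ - f E • ψ))) :
    ∀ᵐ E ∂κ, ‖f E‖ ≤ M := by
  have hms : MeasurableSet {E : ℝ | M < ‖f E‖} := measurableSet_lt measurable_const hf.norm
  have h3 := hκ ({E : ℝ | M < ‖f E‖}.indicator fun _ => (1 : ℂ))
    (measurable_const.indicator hms) ⟨1, fun E => by
      by_cases h : E ∈ {E : ℝ | M < ‖f E‖}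
      · rw [indicator_of_mem h]
        simp
      · rw [indicator_of_notMem h]
        simp⟩
  have h4 : ∫ ω, (∫ E, {E : ℝ | M < ‖f E‖}.indicator (fun _ => (1 : ℂ)) E
      ∂(spm (HV_sa K ω) (PA K ω (NB.dl 0 : L2 d)))) ∂(NB.PP d ν) = 0 := by
    refine (integral_congr_ae (g := fun _ => 0) ?_).trans (integral_zero _ _)
    filter_upwards [hB, h2] with ω e1 ⟨e2, e3⟩
    have h5 := coef_bd (HV_sa K ω) e2 hf (acP_ac _ _ : spm (HV_sa K ω)
      (PA K ω (NB.dl 0 : L2 d)) ≪ volume) (e3 _) e1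
    refine (integral_congr_ae (g := fun _ => 0) ?_).trans (integral_zero _ _)
    filter_upwards [h5] with E hE
    rw [indicator_of_notMem (by simpa using hE)]
  rw [h4, integral_indicator hms, setIntegral_const] at h3
  have h6 : κ.real {E : ℝ | M < ‖f E‖} = 0 := by
    have h7 : (0 : ℂ) = ((κ.real {E : ℝ | M < ‖f E‖} : ℝ) : ℂ) := by simpa using h3
    exact_mod_cast h7.symm
  rw [measureReal_eq_zero_iff] at h6
  rw [ae_iff]
  simpa [not_le] using h6

/-- the density of states lives on a compact interval -/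
theorem kappa_supp {K : ℝ} {ν : Measure ℝ} [IsProbabilityMeasure ν]
    {κ : Measure ℝ} [IsFiniteMeasure κ]
    (hκ : ∀ g : ℝ → ℂ, Measurable g → (∃ C : ℝ, ∀ E, ‖g E‖ ≤ C) →
      ∫ ω, (∫ E, g E ∂(spm (HV_sa K ω) (PA K ω (NB.dl 0 : L2 d)))) ∂(NB.PP d ν) = ∫ E, g E ∂κ) :
    ∀ᵐ E ∂κ, |E| ≤ Rh d K := by
  have hms : MeasurableSet {E : ℝ | Rh d K < |E|} := measurableSet_lt measurable_const (by fun_prop)
  have h3 := hκ ({E : ℝ | Rh d K < |E|}.indicator fun _ => (1 : ℂ))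
    (measurable_const.indicator hms) ⟨1, fun E => by
      by_cases h : E ∈ {E : ℝ | Rh d K < |E|}
      · rw [indicator_of_mem h]
        simp
      · rw [indicator_of_notMem h]
        simp⟩
  have h4 : ∫ ω, (∫ E, {E : ℝ | Rh d K < |E|}.indicator (fun _ => (1 : ℂ)) E
      ∂(spm (HV_sa K ω) (PA K ω (NB.dl 0 : L2 d)))) ∂(NB.PP d ν) = 0 := by
    refine (integral_congr_ae (g := fun _ => 0) (ae_of_all _ fun ω => ?_)).trans
      (integral_zero _ _)
    refine (integral_congr_ae (g := fun _ => 0) ?_).trans (integral_zero _ _)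
    filter_upwards [spm_supp (HV_sa K ω) (HV_norm K ω) (PA K ω (NB.dl 0 : L2 d))] with E hE
    rw [indicator_of_notMem (by simpa using hE)]
  rw [h4, integral_indicator hms, setIntegral_const] at h3
  have h6 : κ.real {E : ℝ | Rh d K < |E|} = 0 := by
    have h7 : (0 : ℂ) = ((κ.real {E : ℝ | Rh d K < |E|} : ℝ) : ℂ) := by simpa using h3
    exact_mod_cast h7.symm
  rw [measureReal_eq_zero_iff] at h6
  rw [ae_iff]
  simpa [not_le] using h6

theorem int_sq {Ω X : Type} [MeasurableSpace Ω] [NormedAddCommGroup X] {Q : Measure Ω}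
    {F : Ω → X} (hF : AEStronglyMeasurable F Q) :
    ∫ ω, ‖F ω‖ ^ 2 ∂Q = (∫⁻ ω, ‖F ω‖ₑ ^ 2 ∂Q).toReal := by
  have h := integral_eq_lintegral_of_nonneg_ae (μ := Q) (f := fun ω => ‖F ω‖ ^ 2)
    (Eventually.of_forall fun ω => by positivity) (hF.norm.pow 2)
  rw [h]
  congr 1
  refine lintegral_congr fun ω => ?_
  rw [ENNReal.ofReal_pow (norm_nonneg _), ofReal_norm]

theorem avg_add {X : Type} [NormedAddCommGroup X] [InnerProductSpace ℂ X] [CompleteSpace X]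
    {g : ℝ → X} (hg : Continuous g) (y : X) {S : ℝ} (hS : 0 < S) :
    ((S : ℂ)⁻¹) • (∫ s in (0 : ℝ)..S, (g s + y)) = ((S : ℂ)⁻¹) • (∫ s in (0 : ℝ)..S, g s) + y := by
  rw [intervalIntegral.integral_add (hg.intervalIntegrable _ _)
    (continuous_const.intervalIntegrable _ _), smul_add, intervalIntegral.integral_const,
    sub_zero]
  congr 1
  rw [← Complex.coe_smul S y, smul_smul, inv_mul_cancel₀ (by exact_mod_cast hS.ne'), one_smul]

theorem pol_Ex {X : Type} [NormedAddCommGroup X] [InnerProductSpace ℂ X] [CompleteSpace X]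
    (T : X →L[ℂ] X) (q : Polynomial ℂ) (s : ℝ) (x : X) :
    Polynomial.aeval T q (Ex T s x) = Ex T s (Polynomial.aeval T q x) := by
  have h : IW (Ex T s) T T := fun v => (Ex_comm T s v).symm
  exact h.pol q x

/-- the state is in the absolutely continuous subspace -/
theorem s1_ac {K : ℝ} {ν : Measure ℝ} [IsProbabilityMeasure ν] (p : Polynomial ℝ)
    (eP : ∀ᵐ ω ∂(NB.PP d ν), P ω = PA K ω) :
    ∀ᵐ ω ∂(NB.PP d ν), spm (HV_sa K ω) (s1 K p P ω) ≪ volume := by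
  filter_upwards [eP] with ω hω
  unfold s1
  rw [hω]
  exact spm_comm_ac (HV_sa K ω) (C := Polynomial.aeval (HV K ω) (rp p))
    (fun x => aeval_comm (HV K ω) (rp p) x) (acP_ac _ _)

theorem s1_mem (K : ℝ) {ν : Measure ℝ} [IsProbabilityMeasure ν] (p : Polynomial ℝ)
    (hP : Fld 1 P) : MemLp (s1 K p P) 2 (NB.PP d ν) :=
  MemLp.of_bound (s1_sm K p hP).aestronglyMeasurable _ (Eventually.of_forall (s1_bd K p hP))

/-- nonzero frequencies -/
theorem lim1 {K : ℝ} {ν : Measure ℝ} [IsProbabilityMeasure ν]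
    (hev : ∀ ω : NB.Site d → ℝ, NB.IsGrp (-1) (fun x => 2 * d + ω x) (ev ω))
    (hA : Fld M A) (hP : Fld 1 P) {μ : ℝ} (p : Polynomial ℝ)
    (hm : Mn μ (NB.PP d ν) (Hz ev A) (s1 K p P)) {ε : ℝ} (hε : 0 < ε) :
    ∃ S : ℝ, 0 < S ∧ ∫ ω, ‖avR μ (Hz ev (subF A (qF K 0))) S ω (s1 K p P ω)‖ ^ 2
      ∂(NB.PP d ν) ≤ ε := by
  have e : subF A (qF K 0) = A := by
    funext V
    show A V - Polynomial.aeval (HV K V) (0 : Polynomial ℂ) = A V
    rw [map_zero, sub_zero]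
  rw [e]
  have hL := lo_Hz (c := -1) (o := 2 * d) hev ν hA.nonneg hA
  have h1 : Tendsto (fun S : ℝ => (∫⁻ ω, ‖avR μ (Hz ev A) S ω (s1 K p P ω)‖ₑ ^ 2
      ∂(NB.PP d ν)).toReal) atTop (𝓝 (0 : ℝ≥0∞).toReal) :=
    (ENNReal.tendsto_toReal ENNReal.zero_ne_top).comp hm
  rw [ENNReal.toReal_zero] at h1
  obtain ⟨S, h2, h3⟩ := (((tendsto_order.1 h1).2 ε hε).and (eventually_gt_atTop 0)).exists
  refine ⟨S, h3, ?_⟩
  rw [int_sq (hL.avR_sm μ h3.le (s1_sm K p hP)).aestronglyMeasurable]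
  exact h2.le

/-- frequency zero -/
theorem lim0 {K : ℝ} {ν : Measure ℝ} [IsProbabilityMeasure ν] (hK : ∀ᵐ r ∂ν, |r| ≤ K)
    (hev : ∀ ω : NB.Site d → ℝ, NB.IsGrp (-1) (fun x => 2 * d + ω x) (ev ω))
    (hA : Fld M A) (hB : Fld C B) (hP : Fld 1 P) (p : Polynomial ℝ)
    (cB : ∀ V t x, B V ((ev V).U t x) = (ev V).U t (B V x))
    (hm : Mn 0 (NB.PP d ν) (Hz ev (subF A B)) (s1 K p P)) (q : Polynomial ℂ) {ε : ℝ}
    (hε : 0 < ε) :
    ∃ S : ℝ, 0 < S ∧ ∫ ω, ‖avR 0 (Hz ev (subF A (qF K q))) S ω (s1 K p P ω)‖ ^ 2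
      ∂(NB.PP d ν) ≤
        2 * (∫ ω, ‖(B ω - Polynomial.aeval (HV K ω) q) (s1 K p P ω)‖ ^ 2 ∂(NB.PP d ν)) + ε := by
  have hAB : Fld (M + C) (subF A B) := hA.sub hB
  have hL := lo_Hz (c := -1) (o := 2 * d) hev ν hAB.nonneg hAB
  have h1 : Tendsto (fun S : ℝ => (∫⁻ ω, ‖avR 0 (Hz ev (subF A B)) S ω (s1 K p P ω)‖ₑ ^ 2
      ∂(NB.PP d ν)).toReal) atTop (𝓝 (0 : ℝ≥0∞).toReal) :=
    (ENNReal.tendsto_toReal ENNReal.zero_ne_top).comp hm
  rw [ENNReal.toReal_zero] at h1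
  obtain ⟨S, h2, h3⟩ := (((tendsto_order.1 h1).2 (ε / 2) (half_pos hε)).and
    (eventually_gt_atTop 0)).exists
  refine ⟨S, h3, ?_⟩
  have hsm1 : StronglyMeasurable fun ω => avR 0 (Hz ev (subF A B)) S ω (s1 K p P ω) :=
    hL.avR_sm 0 h3.le (s1_sm K p hP)
  have hR := Rh_nonneg d K
  have hq : Fld (pb (Rh d K) q) (qF K q : OF d) := fld_qF K q (pb_nonneg hR q)
    (pb_sup (Rh d K) hR q)
  have hBq : Fld (C + pb (Rh d K) q) (subF B (qF K q)) := hB.sub hq
  have hsm2 : StronglyMeasurable fun ω =>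
      (B ω - Polynomial.aeval (HV K ω) q) (s1 K p P ω) := hBq.meas _ (s1_sm K p hP)
  rw [← int_sq hsm1.aestronglyMeasurable] at h2
  have i1 : Integrable (fun ω => ‖avR 0 (Hz ev (subF A B)) S ω (s1 K p P ω)‖ ^ 2)
      (NB.PP d ν) := by
    refine Integrable.of_bound (C := ((M + C) * pb (Rh d K) (rp p)) ^ 2)
      (hsm1.norm.pow 2).aestronglyMeasurable (Eventually.of_forall fun ω => ?_)
    rw [norm_pow, norm_norm]
    refine pow_le_pow_left₀ (norm_nonneg _) ((hL.avR_le 0 S ω _).trans ?_) 2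
    exact mul_le_mul_of_nonneg_left (s1_bd K p hP ω) hAB.nonneg
  have i2 : Integrable (fun ω => ‖(B ω - Polynomial.aeval (HV K ω) q) (s1 K p P ω)‖ ^ 2)
      (NB.PP d ν) := by
    refine Integrable.of_bound (C := ((C + pb (Rh d K) q) * pb (Rh d K) (rp p)) ^ 2)
      (hsm2.norm.pow 2).aestronglyMeasurable (Eventually.of_forall fun ω => ?_)
    rw [norm_pow, norm_norm]
    refine pow_le_pow_left₀ (norm_nonneg _) ((hBq.bd ω _).trans ?_) 2
    exact mul_le_mul_of_nonneg_left (s1_bd K p hP ω) hBq.nonneg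
  have h4 : ∫ ω, ‖avR 0 (Hz ev (subF A (qF K q))) S ω (s1 K p P ω)‖ ^ 2 ∂(NB.PP d ν) ≤
      ∫ ω, (2 * ‖avR 0 (Hz ev (subF A B)) S ω (s1 K p P ω)‖ ^ 2 +
        2 * ‖(B ω - Polynomial.aeval (HV K ω) q) (s1 K p P ω)‖ ^ 2) ∂(NB.PP d ν) := by
    refine integral_mono_of_nonneg (Eventually.of_forall fun ω => by positivity)
      ((i1.const_mul _).add (i2.const_mul _)) ?_
    filter_upwards [bd_ae (d := d) hK] with ω hω
    set x := s1 K p P ω with hx
    set y := (B ω - Polynomial.aeval (HV K ω) q) x with hy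
    have h5 : ∀ s : ℝ, Hz ev (subF A (qF K q)) s ω x = Hz ev (subF A B) s ω x + y := by
      intro s
      have hU : ∀ (t : ℝ) (u : L2 d), (ev ω).U t u = Ex (HV K ω) t u := fun t u =>
        grp_Ex hω (hev ω) t u
      have h6 : (ev ω).U (-s) (B ω ((ev ω).U s x)) = B ω x := by
        rw [cB, ← (ev ω).add', neg_add_cancel, (ev ω).zero']
      have h7 : (ev ω).U (-s) (Polynomial.aeval (HV K ω) q ((ev ω).U s x)) =
          Polynomial.aeval (HV K ω) q x := by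
        rw [hU s, pol_Ex, ← hU s, ← (ev ω).add', neg_add_cancel, (ev ω).zero']
      show (ev ω).U (-s) (A ω ((ev ω).U s x) - Polynomial.aeval (HV K ω) q ((ev ω).U s x)) =
        (ev ω).U (-s) (A ω ((ev ω).U s x) - B ω ((ev ω).U s x)) +
          (B ω x - Polynomial.aeval (HV K ω) q x)
      rw [map_sub, map_sub, h6, h7]
      abel
    have h8 : avR 0 (Hz ev (subF A (qF K q))) S ω x =
        avR 0 (Hz ev (subF A B)) S ω x + y := by
      unfold avR
      have h9 : ∀ s : ℝ, ph 0 s = 1 := by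
        intro s
        unfold ph
        simp
      simp only [h9, one_smul, h5]
      have hc := hL.ct ω x
      exact avg_add hc y h3
    rw [h8]
    have h10 := norm_add_le (avR 0 (Hz ev (subF A B)) S ω x) y
    have h11 := pow_le_pow_left₀ (norm_nonneg _) h10 2
    nlinarith [sq_nonneg (‖avR 0 (Hz ev (subF A B)) S ω x‖ - ‖y‖)]
  refine h4.trans ?_
  rw [integral_add (i1.const_mul _) (i2.const_mul _), integral_const_mul, integral_const_mul]
  linarith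

end inf2

end Pool.Agent.H988.QB
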