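import Pool.Agent.H988.QB.Inf2

/-! # Infinite volume: the microcanonical average and the singular part -/

set_option autoImplicit false
set_option linter.unusedSectionVars false

open Filter Topology MeasureTheory Set
open scoped InnerProductSpace ComplexConjugate ENNReal NNReal

namespace Pool.Agent.H988.QB

open Pool.Agent.TH980.IM Pool.Agent.H5R2
open Pool.Agent.R988.NQ
open Pool.Agent.H988.WM
open Pool.Agent.Y662.ERG

section inf3

variable {d : ℕ}
variable {A B P : OF d} {M C : ℝ}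

/-- the distance of the conserved part from a polynomial of the Hamiltonian -/
theorem mic {K : ℝ} {ν : Measure ℝ} [IsProbabilityMeasure ν]
    {κ : Measure ℝ} [IsFiniteMeasure κ]
    (hκ : ∀ g : ℝ → ℂ, Measurable g → (∃ C : ℝ, ∀ E, ‖g E‖ ≤ C) →
      ∫ ω, (∫ E, g E ∂(spm (HV_sa K ω) (PA K ω (NB.dl 0 : L2 d)))) ∂(NB.PP d ν) = ∫ E, g E ∂κ)
    {f : ℝ → ℂ} (hf : Measurable f) {Rf : ℝ} (hfR : ∀ E, ‖f E‖ ≤ Rf)
    (h2 : ∀ᵐ ω ∂(NB.PP d ν), (∀ x, B ω (HV K ω x) = HV K ω (B ω x)) ∧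
      (∀ ψ, ∀ᵐ E : ℝ, Ngl (HV K ω) E (B ω ψ - f E • ψ)))
    (eP : ∀ᵐ ω ∂(NB.PP d ν), P ω = PA K ω) (q : Polynomial ℂ) (p : Polynomial ℝ) {Cp : ℝ}
    (hCp : ∀ x, |x| ≤ Rh d K → p.eval x ^ 2 ≤ Cp) (hCp0 : 0 ≤ Cp) {ε : ℝ} (hε : 0 ≤ ε)
    (hq : ∫⁻ E, (if |E| ≤ Rh d K then ‖f E - q.eval (E : ℂ)‖ₑ ^ 2 else 0) ∂κ ≤
      ENNReal.ofReal ε) :
    ∫ ω, ‖(B ω - Polynomial.aeval (HV K ω) q) (s1 K p P ω)‖ ^ 2 ∂(NB.PP d ν) ≤ Cp * ε := by
  set R := Rh d K with hR
  have hR0 : 0 ≤ R := Rh_nonneg d K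
  have hms : MeasurableSet {E : ℝ | |E| ≤ R} := measurableSet_le (by fun_prop) measurable_const
  have hqm : Measurable fun E : ℝ => q.eval (E : ℂ) :=
    (q.continuous.comp Complex.continuous_ofReal).measurable
  have hpm : Measurable fun E : ℝ => (rp p).eval (E : ℂ) :=
    ((rp p).continuous.comp Complex.continuous_ofReal).measurable
  set G : ℝ → ℝ := fun E => if |E| ≤ R then
    ‖(f E - q.eval (E : ℂ)) * (rp p).eval (E : ℂ)‖ ^ 2 else 0 with hG
  have hGm : Measurable G := Measurable.ite hms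
    ((((hf.sub hqm).mul hpm).norm).pow_const 2) measurable_const
  have hG0 : ∀ E, 0 ≤ G E := by
    intro E
    simp only [hG]
    split_ifs
    · positivity
    · exact le_rfl
  have hGb : ∀ E, G E ≤ ((Rf + pb R q) * pb R (rp p)) ^ 2 := by
    intro E
    simp only [hG]
    split_ifs with h
    · refine pow_le_pow_left₀ (norm_nonneg _) ?_ 2
      rw [norm_mul]
      refine mul_le_mul ((norm_sub_le _ _).trans (add_le_add (hfR E) (pb_sup R hR0 q E h)))
        (pb_sup R hR0 _ E h) (norm_nonneg _) ?_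
      exact add_nonneg ((norm_nonneg _).trans (hfR 0)) (pb_nonneg hR0 q)
    · positivity
  -- pointwise
  have h3 : ∀ᵐ ω ∂(NB.PP d ν), ((‖(B ω - Polynomial.aeval (HV K ω) q) (s1 K p P ω)‖ ^ 2 : ℝ) : ℂ) =
      ∫ E, ((G E : ℝ) : ℂ) ∂(spm (HV_sa K ω) (PA K ω (NB.dl 0 : L2 d))) := by
    filter_upwards [h2, eP] with ω ⟨e1, e2⟩ e3
    have h4 : ‖(B ω - Polynomial.aeval (HV K ω) q)
        (Polynomial.aeval (HV K ω) (rp p) (PA K ω (NB.dl 0 : L2 d)))‖ₑ ^ 2 =
        ∫⁻ E : ℝ, ‖(f E - q.eval (E : ℂ)) * (rp p).eval (E : ℂ)‖ₑ ^ 2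
          ∂(spm (HV_sa K ω) (PA K ω (NB.dl 0 : L2 d))) :=
      bq_norm (HV_sa K ω) e1 hf (acP_ac _ _ : spm (HV_sa K ω)
        (PA K ω (NB.dl 0 : L2 d)) ≪ volume) e2 q (rp p)
    have e4 : s1 K p P ω = Polynomial.aeval (HV K ω) (rp p) (PA K ω (NB.dl 0 : L2 d)) := by
      unfold s1
      rw [e3]
    rw [e4, integral_complex_ofReal]
    congr 1
    have h5 : ∫⁻ E : ℝ, ‖(f E - q.eval (E : ℂ)) * (rp p).eval (E : ℂ)‖ₑ ^ 2
        ∂(spm (HV_sa K ω) (PA K ω (NB.dl 0 : L2 d))) =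
        ENNReal.ofReal (∫ E, G E ∂(spm (HV_sa K ω) (PA K ω (NB.dl 0 : L2 d)))) := by
      rw [ofReal_integral_eq_lintegral_ofReal]
      · refine lintegral_congr_ae ?_
        filter_upwards [spm_supp (HV_sa K ω) (HV_norm K ω) (PA K ω (NB.dl 0 : L2 d))] with E hE
        have hE' : |E| ≤ R := hE
        simp only [hG]
        rw [if_pos hE', ENNReal.ofReal_pow (norm_nonneg _), ofReal_norm]
      · exact Integrable.of_bound hGm.aestronglyMeasurable _ (ae_of_all _ fun E => by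
          rw [Real.norm_eq_abs, abs_of_nonneg (hG0 E)]
          exact hGb E)
      · exact ae_of_all _ hG0
    have h6 : ‖(B ω - Polynomial.aeval (HV K ω) q)
        (Polynomial.aeval (HV K ω) (rp p) (PA K ω (NB.dl 0 : L2 d)))‖ₑ ^ 2 =
        ENNReal.ofReal (‖(B ω - Polynomial.aeval (HV K ω) q)
          (Polynomial.aeval (HV K ω) (rp p) (PA K ω (NB.dl 0 : L2 d)))‖ ^ 2) := by
      rw [← ofReal_norm, ENNReal.ofReal_pow (norm_nonneg _)]
    rw [h6, h5] at h4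
    exact (ENNReal.ofReal_eq_ofReal_iff (by positivity) (integral_nonneg hG0)).1 h4
  have h7 : ∫ ω, ‖(B ω - Polynomial.aeval (HV K ω) q) (s1 K p P ω)‖ ^ 2 ∂(NB.PP d ν) =
      ∫ E, G E ∂κ := by
    have h8 := hκ (fun E => ((G E : ℝ) : ℂ)) (Complex.measurable_ofReal.comp hGm)
      ⟨((Rf + pb R q) * pb R (rp p)) ^ 2, fun E => by
        rw [Complex.norm_real, Real.norm_eq_abs, abs_of_nonneg (hG0 E)]
        exact hGb E⟩
    rw [integral_complex_ofReal, ← integral_congr_ae h3, integral_complex_ofReal] at h8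
    exact_mod_cast h8
  rw [h7]
  -- the bound
  set F : ℝ → ℝ := fun E => if |E| ≤ R then ‖f E - q.eval (E : ℂ)‖ ^ 2 else 0 with hF
  have hFm : Measurable F := Measurable.ite hms (((hf.sub hqm).norm).pow_const 2) measurable_const
  have hF0 : ∀ E, 0 ≤ F E := by
    intro E
    simp only [hF]
    split_ifs
    · positivity
    · exact le_rfl
  have hFb : ∀ E, F E ≤ (Rf + pb R q) ^ 2 := by
    intro E
    simp only [hF]
    split_ifs with h
    · exact pow_le_pow_left₀ (norm_nonneg _)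
        ((norm_sub_le _ _).trans (add_le_add (hfR E) (pb_sup R hR0 q E h))) 2
    · positivity
  have hFi : Integrable F κ := Integrable.of_bound hFm.aestronglyMeasurable _
    (ae_of_all _ fun E => by
      rw [Real.norm_eq_abs, abs_of_nonneg (hF0 E)]
      exact hFb E)
  have hGi : Integrable G κ := Integrable.of_bound hGm.aestronglyMeasurable _
    (ae_of_all _ fun E => by
      rw [Real.norm_eq_abs, abs_of_nonneg (hG0 E)]
      exact hGb E)
  have h9 : ∫ E, G E ∂κ ≤ ∫ E, Cp * F E ∂κ := by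
    refine integral_mono hGi (hFi.const_mul _) fun E => ?_
    simp only [hG, hF]
    split_ifs with h
    · rw [norm_mul, mul_pow, rp_eval, Complex.norm_real, Real.norm_eq_abs, sq_abs, mul_comm]
      exact mul_le_mul_of_nonneg_right (hCp E h) (by positivity)
    · rw [mul_zero]
  refine h9.trans ?_
  rw [integral_const_mul]
  refine mul_le_mul_of_nonneg_left ?_ hCp0
  have h10 : ENNReal.ofReal (∫ E, F E ∂κ) ≤ ENNReal.ofReal ε := by
    rw [ofReal_integral_eq_lintegral_ofReal hFi (ae_of_all _ hF0)]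
    refine le_trans (le_of_eq (lintegral_congr fun E => ?_)) hq
    simp only [hF]
    split_ifs with h
    · rw [ENNReal.ofReal_pow (norm_nonneg _), ofReal_norm]
    · simp
  exact (ENNReal.ofReal_le_ofReal_iff hε).1 h10

/-- the singular weight of the window `g` -/
noncomputable def sw (K : ℝ) (P : OF d) (g : ℝ → ℝ) (ω : NB.Site d → ℝ) : ℝ :=
  ∫ E, g E ∂(spm (HV_sa K ω) (NB.dl 0 - P ω (NB.dl 0)))

theorem s_norm (hP : Fld 1 P) (ω : NB.Site d → ℝ) :
    ‖(NB.dl 0 : L2 d) - P ω (NB.dl 0)‖ ≤ 2 := by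
  have h1 : ‖P ω (NB.dl 0)‖ ≤ 1 := hP.nb ω
  refine (norm_sub_le _ _).trans ?_
  rw [NB.STAT.norm_dl]
  linarith

theorem spm_mass (K : ℝ) (hP : Fld 1 P) (ω : NB.Site d → ℝ) :
    (spm (HV_sa K ω) (NB.dl 0 - P ω (NB.dl 0))).real univ ≤ 4 := by
  rw [← norm_sq_eq]
  have := pow_le_pow_left₀ (norm_nonneg _) (s_norm hP ω) 2
  norm_num at this
  exact this

/-- comparison on the spectrum -/
theorem spm_cmp (K : ℝ) (ω : NB.Site d → ℝ) (u : L2 d) {g h : ℝ → ℝ} (hg : Continuous g)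
    (hh : Continuous h) (hle : ∀ x, |x| ≤ Rh d K → g x ≤ h x) :
    ∫ E, g E ∂(spm (HV_sa K ω) u) ≤ ∫ E, h E ∂(spm (HV_sa K ω) u) := by
  refine integral_mono_ae (spm_int _ _ hg) (spm_int _ _ hh) ?_
  filter_upwards [spm_supp (HV_sa K ω) (HV_norm K ω) u] with E hE
  exact hle E hE

theorem sw_meas (K : ℝ) (hP : Fld 1 P) {g : ℝ → ℝ} (hg : Continuous g) :
    Measurable (sw K P g) := by
  -- approximation by polynomials
  have hr : ∀ n : ℕ, ∃ r : Polynomial ℝ, ∀ x ∈ Icc (-(Rh d K)) (Rh d K),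
      |r.eval x - g x| < 1 / ((n : ℝ) + 1) := fun n =>
    exists_polynomial_near_of_continuousOn _ _ g hg.continuousOn _ (by positivity)
  choose r hr using hr
  have hm : ∀ n, Measurable fun ω => ∫ E, (r n).eval E
      ∂(spm (HV_sa K ω) (NB.dl 0 - P ω (NB.dl 0))) := by
    intro n
    have h1 : ∀ ω : NB.Site d → ℝ, ∫ E, (r n).eval E
        ∂(spm (HV_sa K ω) (NB.dl 0 - P ω (NB.dl 0))) =
        (⟪(NB.dl 0 : L2 d) - P ω (NB.dl 0), Polynomial.aeval (HV K ω) (rp (r n))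
          (NB.dl 0 - P ω (NB.dl 0))⟫_ℂ).re := by
      intro ω
      have h2 := spm_inner (HV_sa K ω) (NB.dl 0 - P ω (NB.dl 0)) (r n).continuous
      have h3 := rp_cfc (HV_sa K ω) (r n)
      rw [h3]
      have h4 := congrArg Complex.re h2
      rw [Complex.ofReal_re] at h4
      exact h4
    simp only [h1]
    have h4 : MO fun V : NB.Site d → ℝ => (HV K V : L2 d →L[ℂ] L2 d) := (fld_HV K).meas
    have h5 : StronglyMeasurable fun ω : NB.Site d → ℝ => (NB.dl 0 : L2 d) - P ω (NB.dl 0) :=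
      stronglyMeasurable_const.sub hP.sm
    exact Complex.measurable_re.comp (h5.inner (h4.pol (rp (r n)) _ h5)).measurable
  refine measurable_of_tendsto_metrizable hm ?_
  rw [tendsto_pi_nhds]
  intro ω
  rw [tendsto_iff_dist_tendsto_zero]
  have h6 : Tendsto (fun n : ℕ => 1 / ((n : ℝ) + 1) * 4) atTop (𝓝 0) := by
    have := tendsto_one_div_add_atTop_nhds_zero_nat (𝕜 := ℝ)
    have h := this.mul_const 4
    rwa [zero_mul] at h
  refine squeeze_zero (fun n => dist_nonneg) (fun n => ?_) h6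
  rw [Real.dist_eq]
  unfold sw
  set m := spm (HV_sa K ω) (NB.dl 0 - P ω (NB.dl 0)) with hm'
  rw [← integral_sub (spm_int _ _ (r n).continuous) (spm_int _ _ hg)]
  have h7 : ‖∫ E, ((r n).eval E - g E) ∂m‖ ≤ 1 / ((n : ℝ) + 1) * m.real univ := by
    refine norm_integral_le_of_norm_le_const ?_
    filter_upwards [spm_supp (HV_sa K ω) (HV_norm K ω) (NB.dl 0 - P ω (NB.dl 0))] with E hE
    exact (hr n E (abs_le.1 hE)).le
  rw [Real.norm_eq_abs] at h7
  exact h7.trans (mul_le_mul_of_nonneg_left (spm_mass K hP ω) (by positivity))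

theorem sw_nonneg (K : ℝ) {g : ℝ → ℝ} (h0 : ∀ x, 0 ≤ g x) (ω : NB.Site d → ℝ) :
    0 ≤ sw K P g ω := integral_nonneg h0

theorem sw_le (K : ℝ) (hP : Fld 1 P) {g : ℝ → ℝ} (hg : Continuous g) (h1 : ∀ x, g x ≤ 1)
    (ω : NB.Site d → ℝ) : sw K P g ω ≤ 4 := by
  unfold sw
  have h2 := spm_cmp K ω (NB.dl 0 - P ω (NB.dl 0)) hg continuous_const (h := fun _ => 1)
    fun x _ => h1 x
  refine h2.trans ?_
  rw [integral_const, smul_eq_mul, mul_one]
  exact spm_mass K hP ω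

theorem sw_int (K : ℝ) {ν : Measure ℝ} [IsProbabilityMeasure ν] (hP : Fld 1 P) {g : ℝ → ℝ}
    (hg : Continuous g) (h0 : ∀ x, 0 ≤ g x) (h1 : ∀ x, g x ≤ 1) :
    Integrable (sw K P g) (NB.PP d ν) :=
  Integrable.of_bound (sw_meas K hP hg).aestronglyMeasurable 4 (ae_of_all _ fun ω => by
    rw [Real.norm_eq_abs, abs_of_nonneg (sw_nonneg K h0 ω)]
    exact sw_le K hP hg h1 ω)

/-- the singular part of the state -/
theorem s2_le (K : ℝ) {ν : Measure ℝ} [IsProbabilityMeasure ν] (hP : Fld 1 P) {g : ℝ → ℝ}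
    (hg : Continuous g) (h0 : ∀ x, 0 ≤ g x) (h1 : ∀ x, g x ≤ 1) (p : Polynomial ℝ) {ε : ℝ}
    (hε : 0 ≤ ε) (hp : ∀ x, |x| ≤ Rh d K → p.eval x ^ 2 ≤ g x + ε) :
    ∫ ω, ‖s2 K p P ω‖ ^ 2 ∂(NB.PP d ν) ≤ ∫ ω, sw K P g ω ∂(NB.PP d ν) + ε * 4 := by
  have hpt : ∀ ω, ‖s2 K p P ω‖ ^ 2 ≤ sw K P g ω + ε * 4 := by
    intro ω
    unfold s2
    rw [rp_norm (HV_sa K ω)]
    refine (spm_cmp K ω _ (g := fun x => p.eval x ^ 2) (h := fun x => g x + ε)
      (p.continuous.pow 2) (hg.add continuous_const) hp).trans ?_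
    rw [integral_add (spm_int _ _ hg) (integrable_const _), integral_const, smul_eq_mul]
    refine add_le_add le_rfl ?_
    rw [mul_comm]
    exact mul_le_mul_of_nonneg_left (spm_mass K hP ω) hε
  have i1 := sw_int K (ν := ν) hP hg h0 h1
  have h2 : ∫ ω, ‖s2 K p P ω‖ ^ 2 ∂(NB.PP d ν) ≤ ∫ ω, (sw K P g ω + ε * 4) ∂(NB.PP d ν) :=
    integral_mono_of_nonneg (ae_of_all _ fun ω => by positivity)
      (i1.add (integrable_const _)) (ae_of_all _ hpt)
  refine h2.trans (le_of_eq ?_)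
  rw [integral_add i1 (integrable_const _)]
  simp

end inf3

end Pool.Agent.H988.QB
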