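import Pool.Agent.H988.QB.Det

/-! # Spectral estimates -/

set_option autoImplicit false
set_option linter.unusedSectionVars false

open Filter Topology MeasureTheory Set
open scoped InnerProductSpace ComplexConjugate ENNReal NNReal

namespace Pool.Agent.H988.QB

open Pool.Agent.TH980.IM Pool.Agent.H5R2
open Pool.Agent.R988.NQ
open Pool.Agent.H988.WM
open Pool.Agent.Y662.ERG

section spc

variable {X : Type} [NormedAddCommGroup X] [InnerProductSpace ℂ X] [CompleteSpace X]
variable {T : X →L[ℂ] X}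

theorem pol_sup (hT : IsSelfAdjoint T) {R : ℝ} (hR : ‖T‖ ≤ R) (q : Polynomial ℂ) {m : ℝ}
    (hm0 : 0 ≤ m) (hm : ∀ E : ℝ, |E| ≤ R → ‖q.eval (E : ℂ)‖ ≤ m) : ‖Polynomial.aeval T q‖ ≤ m := by
  have hn : IsStarNormal T := hT.isStarNormal
  rw [← cfc_polynomial q T]
  refine norm_cfc_le hm0 fun z hz => ?_
  have h1 : z = (z.re : ℂ) := hT.mem_spectrum_eq_re hz
  have h2 : ‖z‖ ≤ ‖T‖ * ‖(1 : X →L[ℂ] X)‖ := spectrum.norm_le_norm_mul_of_mem hz
  have h3 : ‖(1 : X →L[ℂ] X)‖ ≤ 1 := ContinuousLinearMap.norm_id_le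
  have h4 : ‖z‖ ≤ R := by
    refine h2.trans ?_
    calc ‖T‖ * ‖(1 : X →L[ℂ] X)‖ ≤ ‖T‖ * 1 := mul_le_mul_of_nonneg_left h3 (norm_nonneg _)
      _ ≤ R := by rwa [mul_one]
  rw [h1]
  exact hm _ ((Complex.abs_re_le_norm z).trans h4)

/-- the spectral measures live on `[-R, R]` -/
theorem spm_supp (hT : IsSelfAdjoint T) {R : ℝ} (hR : ‖T‖ ≤ R) (u : X) :
    ∀ᵐ E ∂(spm hT u), |E| ≤ R := by
  have hf : Continuous fun E : ℝ => max (|E| - R) 0 := by fun_prop
  have h1 : cfc (fun E : ℝ => max (|E| - R) 0) T = 0 := by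
    have h2 : cfc (fun E : ℝ => max (|E| - R) 0) T = cfc (fun _ : ℝ => (0 : ℝ)) T := by
      refine cfc_congr fun z hz => ?_
      have h2 : ‖z‖ ≤ ‖T‖ * ‖(1 : X →L[ℂ] X)‖ := spectrum.norm_le_norm_mul_of_mem hz
      have h3 : ‖(1 : X →L[ℂ] X)‖ ≤ 1 := ContinuousLinearMap.norm_id_le
      have h4 : ‖z‖ ≤ R := by
        refine h2.trans ?_
        calc ‖T‖ * ‖(1 : X →L[ℂ] X)‖ ≤ ‖T‖ * 1 := mul_le_mul_of_nonneg_left h3 (norm_nonneg _)
          _ ≤ R := by rwa [mul_one]
      rw [Real.norm_eq_abs] at h4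
      exact max_eq_right (by linarith)
    rw [h2]
    exact cfc_const_zero ℝ T
  have h5 := spm_inner hT u hf
  rw [h1] at h5
  simp only [zero_apply, inner_zero_right] at h5
  have h6 : ∫ E, max (|E| - R) 0 ∂(spm hT u) = 0 := by exact_mod_cast h5
  have h6' := (integral_eq_zero_iff_of_nonneg (f := fun E : ℝ => max (|E| - R) 0)
    (fun E => le_max_right _ _) (spm_int hT u hf)).1 h6
  filter_upwards [h6'] with E hE
  have h7 : max (|E| - R) 0 = 0 := hE
  have h8 := le_max_left (|E| - R) 0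
  linarith

/-- real polynomials as complex polynomials -/
noncomputable def rp (p : Polynomial ℝ) : Polynomial ℂ := p.map (algebraMap ℝ ℂ)

theorem rp_eval (p : Polynomial ℝ) (E : ℝ) : (rp p).eval (E : ℂ) = ((p.eval E : ℝ) : ℂ) := by
  unfold rp
  exact Polynomial.eval_map_algebraMap p (E : ℂ) |>.trans (by
    exact Polynomial.aeval_algebraMap_apply ℂ E p)

theorem rp_cfc (hT : IsSelfAdjoint T) (p : Polynomial ℝ) :
    Polynomial.aeval T (rp p) = cfc (fun E : ℝ => p.eval E) T := by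
  have h1 : cfc (fun E : ℝ => p.eval E) T = Polynomial.aeval T p := cfc_polynomial p T
  rw [h1]
  unfold rp
  exact Polynomial.aeval_map_algebraMap ℂ T p

theorem rp_norm (hT : IsSelfAdjoint T) (p : Polynomial ℝ) (u : X) :
    ‖Polynomial.aeval T (rp p) u‖ ^ 2 = ∫ E, p.eval E ^ 2 ∂(spm hT u) := by
  rw [rp_cfc hT]
  exact norm_cfc_sq hT u p.continuous

/-- the function of the energy for `(B - q(T)) p(T)` -/
theorem bq_norm (hT : IsSelfAdjoint T) {B : X →L[ℂ] X} (hB : ∀ x, B (T x) = T (B x))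
    {f : ℝ → ℂ} (hf : Measurable f) {u : X} (hu : spm hT u ≪ volume)
    (h : ∀ v, ∀ᵐ E : ℝ, Ngl T E (B v - f E • v)) (q p : Polynomial ℂ) :
    ‖(B - Polynomial.aeval T q) (Polynomial.aeval T p u)‖ₑ ^ 2 =
      ∫⁻ E : ℝ, ‖(f E - q.eval (E : ℂ)) * p.eval (E : ℂ)‖ₑ ^ 2 ∂(spm hT u) := by
  have hcq : ∀ (r : Polynomial ℂ) x, Polynomial.aeval T r (T x) = T (Polynomial.aeval T r x) :=
    fun r x => aeval_comm T r x
  have hBq : ∀ x, (B - Polynomial.aeval T q) (T x) = T ((B - Polynomial.aeval T q) x) := by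
    intro x
    show B (T x) - Polynomial.aeval T q (T x) = T (B x - Polynomial.aeval T q x)
    rw [hB, hcq, map_sub]
  have hC : ∀ x, ((B - Polynomial.aeval T q) ∘L Polynomial.aeval T p) (T x) =
      T (((B - Polynomial.aeval T q) ∘L Polynomial.aeval T p) x) := by
    intro x
    show (B - Polynomial.aeval T q) (Polynomial.aeval T p (T x)) =
      T ((B - Polynomial.aeval T q) (Polynomial.aeval T p x))
    rw [hcq, hBq]
  refine norm_of_ngl hT hC (c := fun E : ℝ => (f E - q.eval (E : ℂ)) * p.eval (E : ℂ)) ?_ hu ?_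
  · refine Measurable.mul (hf.sub ?_) ?_
    · exact (q.continuous.comp Complex.continuous_ofReal).measurable
    · exact (p.continuous.comp Complex.continuous_ofReal).measurable
  · filter_upwards [h u] with E hE
    have h1 : Ngl T E (Polynomial.aeval T p u - p.eval (E : ℂ) • u) := ngl_poly hT p u E
    have h2 : Ngl T E (Polynomial.aeval T q u - q.eval (E : ℂ) • u) := ngl_poly hT q u E
    have h3 : Ngl T E ((B - Polynomial.aeval T q)
        (Polynomial.aeval T p u - p.eval (E : ℂ) • u)) := Ngl.comm hT hBq h1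
    have h4 := (hE.sub h2).smul (p.eval (E : ℂ))
    have h5 := h3.add h4
    have e : ((B - Polynomial.aeval T q) ∘L Polynomial.aeval T p) u -
        ((f E - q.eval (E : ℂ)) * p.eval (E : ℂ)) • u =
        (B - Polynomial.aeval T q) (Polynomial.aeval T p u - p.eval (E : ℂ) • u) +
        p.eval (E : ℂ) • (B u - f E • u - (Polynomial.aeval T q u - q.eval (E : ℂ) • u)) := by
      show (B (Polynomial.aeval T p u) - Polynomial.aeval T q (Polynomial.aeval T p u)) -
        ((f E - q.eval (E : ℂ)) * p.eval (E : ℂ)) • u =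
        (B (Polynomial.aeval T p u - p.eval (E : ℂ) • u) -
          Polynomial.aeval T q (Polynomial.aeval T p u - p.eval (E : ℂ) • u)) + _
      rw [map_sub, map_sub, map_smul, map_smul]
      module
    rw [e]
    exact h5

/-- the coefficient is bounded where there is absolutely continuous spectrum -/
theorem coef_bd (hT : IsSelfAdjoint T) {B : X →L[ℂ] X} (hB : ∀ x, B (T x) = T (B x))
    {f : ℝ → ℂ} (hf : Measurable f) {u : X} (hu : spm hT u ≪ volume)
    (h : ∀ᵐ E : ℝ, Ngl T E (B u - f E • u)) {M : ℝ} (hM : ‖B‖ ≤ M) :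
    ∀ᵐ E ∂(spm hT u), ‖f E‖ ≤ M := by
  have hms : MeasurableSet {E : ℝ | M < ‖f E‖} := measurableSet_lt measurable_const hf.norm
  have h1 := spm_dn hT hu (g := {E : ℝ | M < ‖f E‖}.indicator 1) (measurable_one.indicator hms)
  rw [lintegral_indicator_one hms] at h1
  have h2 : ∫⁻ E, {E : ℝ | M < ‖f E‖}.indicator 1 E * ENNReal.ofReal (dn hT u E) = 0 := by
    refine (lintegral_congr_ae (g := fun _ => 0) ?_).trans lintegral_zero
    filter_upwards [h, qn_tendsto hT u] with E e1 e2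
    rcases (Real.sqrt_nonneg (kap * dn hT u E)).eq_or_lt with h0 | h0
    · have h3 : kap * dn hT u E ≤ 0 := Real.sqrt_eq_zero'.1 h0.symm
      have h4 : dn hT u E ≤ 0 := by
        by_contra hc
        exact absurd (mul_pos kap_pos (not_le.1 hc)) (not_lt.2 h3)
      rw [ENNReal.ofReal_eq_zero.2 h4, mul_zero]
    · have h5 := (bound_of_ngl hT hB h0 e2 e1).trans hM
      rw [Set.indicator_of_notMem (by simpa using h5), zero_mul]
  rw [h2] at h1
  rw [ae_iff]
  simpa [not_le] using h1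

end spc

end Pool.Agent.H988.QB
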