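import Pool.Agent.H988.QB.Alg

/-! # Strong convergence -/

set_option autoImplicit false
set_option linter.unusedSectionVars false

open Filter Topology MeasureTheory Set
open scoped InnerProductSpace ComplexConjugate

namespace Pool.Agent.H988.QB

section str

variable {X : Type} [NormedAddCommGroup X] [InnerProductSpace ℂ X] [CompleteSpace X]
variable {ι : Type} {l : Filter ι}

/-- strong convergence -/
def SC (l : Filter ι) (F : ι → X →L[ℂ] X) (G : X →L[ℂ] X) : Prop :=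
  ∀ v, Tendsto (fun i => F i v) l (𝓝 (G v))

theorem SC.const (G : X →L[ℂ] X) : SC l (fun _ => G) G := fun _ => tendsto_const_nhds

theorem SC.add {F F' : ι → X →L[ℂ] X} {G G' : X →L[ℂ] X} (h : SC l F G) (h' : SC l F' G') :
    SC l (fun i => F i + F' i) (G + G') := fun v => (h v).add (h' v)

theorem SC.sub {F F' : ι → X →L[ℂ] X} {G G' : X →L[ℂ] X} (h : SC l F G) (h' : SC l F' G') :
    SC l (fun i => F i - F' i) (G - G') := fun v => (h v).sub (h' v)

theorem SC.smul {F : ι → X →L[ℂ] X} {G : X →L[ℂ] X} (h : SC l F G) (c : ℂ) :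
    SC l (fun i => c • F i) (c • G) := fun v => (h v).const_smul c

theorem SC.comp {F F' : ι → X →L[ℂ] X} {G G' : X →L[ℂ] X} {C : ℝ} (hC : ∀ i, ‖F i‖ ≤ C)
    (h : SC l F G) (h' : SC l F' G') : SC l (fun i => F i ∘L F' i) (G ∘L G') := by
  intro v
  have h1 : Tendsto (fun i => F i (F' i v - G' v)) l (𝓝 0) := by
    have h2 : Tendsto (fun i => C * ‖F' i v - G' v‖) l (𝓝 0) := by
      have h3 := ((tendsto_iff_norm_sub_tendsto_zero.1 (h' v)).const_mul C)
      rwa [mul_zero] at h3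
    refine squeeze_zero_norm (fun i => ?_) h2
    exact ((F i).le_opNorm _).trans (mul_le_mul_of_nonneg_right (hC i) (norm_nonneg _))
  have h4 := h1.add (h (G' v))
  rw [zero_add] at h4
  refine h4.congr fun i => ?_
  show F i (F' i v - G' v) + F i (G' v) = F i (F' i v)
  rw [map_sub]
  abel

theorem SC.sum {α : Type} (s : Finset α) {F : α → ι → X →L[ℂ] X} {G : α → X →L[ℂ] X}
    (h : ∀ a ∈ s, SC l (F a) (G a)) : SC l (fun i => ∑ a ∈ s, F a i) (∑ a ∈ s, G a) := by
  intro v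
  simp only [sum_apply]
  exact tendsto_finsetSum s fun a ha => h a ha v

theorem SC.pow {T : ι → X →L[ℂ] X} {G : X →L[ℂ] X} {R : ℝ} (hR : ∀ i, ‖T i‖ ≤ R)
    (h : SC l T G) (k : ℕ) : SC l (fun i => T i ^ k) (G ^ k) := by
  induction k with
  | zero =>
    simp only [pow_zero]
    exact SC.const _
  | succ k ih =>
    have h1 := SC.comp hR h ih
    have e : ∀ A : X →L[ℂ] X, A ^ (k + 1) = A ∘L A ^ k := fun A => pow_succ' A k
    rw [e]
    simp only [e]
    exact h1

/-- a bound for polynomials -/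
noncomputable def pb (R : ℝ) (q : Polynomial ℂ) : ℝ :=
  ∑ k ∈ Finset.range (q.natDegree + 1), ‖q.coeff k‖ * R ^ k

theorem pb_nonneg {R : ℝ} (hR : 0 ≤ R) (q : Polynomial ℂ) : 0 ≤ pb R q :=
  Finset.sum_nonneg fun k _ => by positivity

theorem pow_norm {T : X →L[ℂ] X} {R : ℝ} (hR : ‖T‖ ≤ R) (k : ℕ) : ‖T ^ k‖ ≤ R ^ k := by
  have h0 : 0 ≤ R := (norm_nonneg _).trans hR
  induction k with
  | zero =>
    rw [pow_zero, pow_zero]
    exact ContinuousLinearMap.norm_id_le
  | succ k ih =>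
    rw [pow_succ, pow_succ]
    exact (norm_mul_le _ _).trans (mul_le_mul ih hR (norm_nonneg _) (by positivity))

theorem pol_norm {T : X →L[ℂ] X} {R : ℝ} (hR : ‖T‖ ≤ R) (q : Polynomial ℂ) :
    ‖Polynomial.aeval T q‖ ≤ pb R q := by
  rw [Polynomial.aeval_eq_sum_range]
  unfold pb
  refine (norm_sum_le _ _).trans (Finset.sum_le_sum fun k _ => ?_)
  exact (norm_smul_le _ _).trans (mul_le_mul_of_nonneg_left (pow_norm hR k) (norm_nonneg _))

theorem SC.pol {T : ι → X →L[ℂ] X} {G : X →L[ℂ] X} {R : ℝ} (hR : ∀ i, ‖T i‖ ≤ R)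
    (h : SC l T G) (q : Polynomial ℂ) :
    SC l (fun i => Polynomial.aeval (T i) q) (Polynomial.aeval G q) := by
  rw [Polynomial.aeval_eq_sum_range]
  simp only [Polynomial.aeval_eq_sum_range]
  exact SC.sum _ fun k _ => (SC.pow hR h k).smul _

theorem SC.dd {T A : ι → X →L[ℂ] X} {G B : X →L[ℂ] X} {R M : ℝ} (hR : ∀ i, ‖T i‖ ≤ R)
    (hM : ∀ i, ‖A i‖ ≤ M) (h : SC l T G) (h' : SC l A B) (μ : ℝ) :
    SC l (fun i => dd (T i) μ (A i)) (dd G μ B) := by
  unfold QB.dd
  exact ((SC.comp hR h h').sub (SC.comp hM h' h)).sub (h'.smul _)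

theorem SC.iter {T A : ι → X →L[ℂ] X} {G B : X →L[ℂ] X} {R M : ℝ} (hR : ∀ i, ‖T i‖ ≤ R)
    (hM : ∀ i, ‖A i‖ ≤ M) (h : SC l T G) (h' : SC l A B) (μ : ℝ) (k : ℕ) :
    SC l (fun i => (QB.dd (T i) μ)^[k] (A i)) ((QB.dd G μ)^[k] B) := by
  induction k with
  | zero => exact h'
  | succ k ih =>
    simp only [Function.iterate_succ_apply']
    refine SC.dd hR (M := (2 * R + |μ|) ^ k * M) (fun i => ?_) h ih μ
    have h0 : 0 ≤ R := (norm_nonneg _).trans (hR i)
    exact (dd_iter_norm (hR i) μ (A i) k).trans (mul_le_mul_of_nonneg_left (hM i) (by positivity))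

theorem SC.avp {T A : ι → X →L[ℂ] X} {G B : X →L[ℂ] X} {R M : ℝ} (hR : ∀ i, ‖T i‖ ≤ R)
    (hM : ∀ i, ‖A i‖ ≤ M) (h : SC l T G) (h' : SC l A B) (μ : ℝ) (c : ℕ → ℂ) (N : ℕ) :
    SC l (fun i => avp (T i) μ c N (A i)) (avp G μ c N B) := by
  unfold QB.avp
  exact SC.sum _ fun k _ => (SC.iter hR hM h h' μ k).smul _

/-- the operator whose matrix elements are estimated -/
noncomputable def YY (T : X →L[ℂ] X) (μ : ℝ) (c : ℕ → ℂ) (N : ℕ) (q p : Polynomial ℂ)
    (A : X →L[ℂ] X) : X →L[ℂ] X :=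
  avp T μ c N (A - Polynomial.aeval T q) ∘L Polynomial.aeval T p

/-- its bound -/
noncomputable def yb (R μ : ℝ) (c : ℕ → ℂ) (N : ℕ) (q p : Polynomial ℂ) (M : ℝ) : ℝ :=
  cc R μ c N * (M + pb R q) * pb R p

theorem YY_norm {T A : X →L[ℂ] X} {R M : ℝ} (hR : ‖T‖ ≤ R) (hM : ‖A‖ ≤ M) (μ : ℝ) (c : ℕ → ℂ)
    (N : ℕ) (q p : Polynomial ℂ) : ‖YY T μ c N q p A‖ ≤ yb R μ c N q p M := by
  unfold YY yb
  have h0 : 0 ≤ R := (norm_nonneg _).trans hR
  have h1 := cc_nonneg h0 μ c N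
  refine (ContinuousLinearMap.opNorm_comp_le _ _).trans ?_
  refine mul_le_mul ((avp_norm hR μ c N _).trans (mul_le_mul_of_nonneg_left ?_ h1))
    (pol_norm hR p) (norm_nonneg _) ?_
  · exact (norm_sub_le _ _).trans (add_le_add hM (pol_norm hR q))
  · have h2 := pb_nonneg h0 q
    have h3 : 0 ≤ M := (norm_nonneg _).trans hM
    positivity

theorem SC.YY {T : ι → X →L[ℂ] X} {G A : X →L[ℂ] X} {R : ℝ} (hR : ∀ i, ‖T i‖ ≤ R)
    (h : SC l T G) (μ : ℝ) (c : ℕ → ℂ) (N : ℕ) (q p : Polynomial ℂ) :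
    SC l (fun i => YY (T i) μ c N q p A) (YY G μ c N q p A) := by
  unfold QB.YY
  have hM : ∀ i, ‖A - Polynomial.aeval (T i) q‖ ≤ ‖A‖ + pb R q := fun i =>
    (norm_sub_le _ _).trans (add_le_add le_rfl (pol_norm (hR i) q))
  refine SC.comp (C := cc R μ c N * (‖A‖ + pb R q)) (fun i => ?_)
    (SC.avp hR hM h ((SC.const A).sub (SC.pol hR h q)) μ c N) (SC.pol hR h p)
  have h0 : 0 ≤ R := (norm_nonneg _).trans (hR i)
  exact (avp_norm (hR i) μ c N _).trans (mul_le_mul_of_nonneg_left (hM i) (cc_nonneg h0 μ c N))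

end str

section itw

variable {X Y : Type} [NormedAddCommGroup X] [InnerProductSpace ℂ X] [CompleteSpace X]

/-- `F S = S G` -/
def IW (S F G : X →L[ℂ] X) : Prop := ∀ v, F (S v) = S (G v)

variable {S F G F' G' : X →L[ℂ] X}

theorem IW.add (h : IW S F G) (h' : IW S F' G') : IW S (F + F') (G + G') := fun v => by
  show F (S v) + F' (S v) = S (G v + G' v)
  rw [h, h', map_add]

theorem IW.sub (h : IW S F G) (h' : IW S F' G') : IW S (F - F') (G - G') := fun v => by
  show F (S v) - F' (S v) = S (G v - G' v)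
  rw [h, h', map_sub]

theorem IW.smul (h : IW S F G) (c : ℂ) : IW S (c • F) (c • G) := fun v => by
  show c • F (S v) = S (c • G v)
  rw [h, map_smul]

theorem IW.comp (h : IW S F G) (h' : IW S F' G') : IW S (F ∘L F') (G ∘L G') := fun v => by
  show F (F' (S v)) = S (G (G' v))
  rw [h', h]

theorem IW.one : IW S (1 : X →L[ℂ] X) 1 := fun v => rfl

theorem IW.sum {α : Type} (s : Finset α) {F G : α → X →L[ℂ] X} (h : ∀ a ∈ s, IW S (F a) (G a)) :
    IW S (∑ a ∈ s, F a) (∑ a ∈ s, G a) := fun v => by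
  rw [sum_apply, sum_apply, map_sum]
  exact Finset.sum_congr rfl fun a ha => h a ha v

theorem IW.pow (h : IW S F G) (k : ℕ) : IW S (F ^ k) (G ^ k) := by
  induction k with
  | zero => exact IW.one
  | succ k ih =>
    rw [pow_succ, pow_succ]
    exact ih.comp h

theorem IW.pol (h : IW S F G) (q : Polynomial ℂ) :
    IW S (Polynomial.aeval F q) (Polynomial.aeval G q) := by
  rw [Polynomial.aeval_eq_sum_range, Polynomial.aeval_eq_sum_range]
  exact IW.sum _ fun k _ => (h.pow k).smul _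

theorem IW.iter (h : IW S F G) (h' : IW S F' G') (μ : ℝ) (k : ℕ) :
    IW S ((dd F μ)^[k] F') ((dd G μ)^[k] G') := by
  induction k with
  | zero => exact h'
  | succ k ih =>
    rw [Function.iterate_succ_apply', Function.iterate_succ_apply']
    unfold QB.dd
    exact ((h.comp ih).sub (ih.comp h)).sub (ih.smul _)

theorem IW.YY (h : IW S F G) (h' : IW S F' G') (μ : ℝ) (c : ℕ → ℂ) (N : ℕ)
    (q p : Polynomial ℂ) : IW S (YY F μ c N q p F') (YY G μ c N q p G') := by
  unfold QB.YY QB.avp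
  exact (IW.sum _ fun k _ => (IW.iter h (h'.sub (h.pol q)) μ k).smul _).comp (h.pol p)

end itw

section mes

variable {X Ω : Type} [NormedAddCommGroup X] [InnerProductSpace ℂ X] [CompleteSpace X]
  [MeasurableSpace Ω]

/-- measurable families of operators -/
def MO (F : Ω → X →L[ℂ] X) : Prop :=
  ∀ f : Ω → X, StronglyMeasurable f → StronglyMeasurable fun ω => F ω (f ω)

variable {F G : Ω → X →L[ℂ] X}

theorem MO.const (A : X →L[ℂ] X) : MO fun _ : Ω => A := fun _ hf =>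
  A.continuous.comp_stronglyMeasurable hf

theorem MO.sub (h : MO F) (h' : MO G) : MO fun ω => F ω - G ω := fun f hf =>
  (h f hf).sub (h' f hf)

theorem MO.smul (h : MO F) (c : ℂ) : MO fun ω => c • F ω := fun f hf => (h f hf).const_smul c

theorem MO.comp (h : MO F) (h' : MO G) : MO fun ω => F ω ∘L G ω := fun f hf => h _ (h' f hf)

theorem MO.sum {α : Type} (s : Finset α) {F : α → Ω → X →L[ℂ] X} (h : ∀ a ∈ s, MO (F a)) :
    MO fun ω => ∑ a ∈ s, F a ω := fun f hf => by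
  simp only [sum_apply]
  exact Finset.stronglyMeasurable_fun_sum _ fun a ha => h a ha f hf

theorem MO.pow (h : MO F) (k : ℕ) : MO fun ω => F ω ^ k := by
  induction k with
  | zero =>
    simp only [pow_zero]
    exact MO.const 1
  | succ k ih =>
    have e : ∀ A : X →L[ℂ] X, A ^ (k + 1) = (A ^ k) ∘L A := fun A => pow_succ A k
    simp only [e]
    exact ih.comp h

theorem MO.pol (h : MO F) (q : Polynomial ℂ) : MO fun ω => Polynomial.aeval (F ω) q := by
  simp only [Polynomial.aeval_eq_sum_range]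
  exact MO.sum _ fun k _ => (h.pow k).smul _

theorem MO.iter (h : MO F) (h' : MO G) (μ : ℝ) (k : ℕ) : MO fun ω => (dd (F ω) μ)^[k] (G ω) := by
  induction k with
  | zero => exact h'
  | succ k ih =>
    simp only [Function.iterate_succ_apply']
    unfold QB.dd
    unfold QB.dd at ih
    exact ((h.comp ih).sub (ih.comp h)).sub (ih.smul _)

theorem MO.YY (h : MO F) (h' : MO G) (μ : ℝ) (c : ℕ → ℂ) (N : ℕ) (q p : Polynomial ℂ) :
    MO fun ω => YY (F ω) μ c N q p (G ω) := by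
  unfold QB.YY QB.avp
  exact (MO.sum _ fun k _ => (MO.iter h (h'.sub (h.pol q)) μ k).smul _).comp (h.pol p)

end mes

end Pool.Agent.H988.QB
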